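import Pool.Agent.Lib.MP_1a91b9_ntN.F.Fin3
import Pool.Agent.Lib.MP_1a91b9_ntN.Q.Main
import Pool.Agent.Lib.MP_1a91b9_ntI.IsoQ

/-!
# MP_1a91b9_nt (cubic stability): the curve `y² + 3 y = x³` over `ℚ(√-3)`
-/

set_option autoImplicit false

namespace Pool.Agent.Lib.MP_1a91b9_ntCC

open NumberField Finset Pool.Agent.Lib.MP_1a91b9_ntT Pool.Agent.Lib.MP_1a91b9_ntK
  Pool.Agent.Lib.MP_1a91b9_ntK.Da Pool.Agent.Lib.MP_1a91b9_ntK2 Pool.Agent.Lib.MP_1a91b9_ntK2.D9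
  Pool.Agent.Lib.MP_1a91b9_ntN
open Pool.Agent.Lib.MP_1a91b9_ntH (wO s3 Nz Sx prime_s3 s3_sq)
open Pool.Agent.Lib.MP_1a91b9_nuX.LG (LConcl)

/-- `D = 3 = -(√-3)²` is good: the matrix is empty. -/
theorem base3_K : LConcl (Wt K 3) ∧ Finite (Wt K 3).toAffine.Point := by
  have h1 := Wt_good (a := 3) (d := 1) ⟨true, 0, 2, ∅, ∅, 1, disjoint_empty_left _, one_ne_zero, ?_, ?_⟩
  · rw [mul_one] at h1
    exact h1
  · rw [DD3_empty]
    unfold pf un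
    have h2 : ((2 : Fin 3) : ℕ) = 2 := rfl
    have h0 : ((0 : Fin 3) : ℕ) = 0 := rfl
    rw [h2, h0, if_pos rfl, pow_zero, s3_sq]
    ring
  · refine Or.inr (Or.inr (Or.inr ⟨rfl, ?_⟩))
    show ((d3b.tw (0 : ZMod 3) 2).N (eT ∅) 1 (∅ ∪ ∅)).det ≠ 0
    have hE : IsEmpty ↥((∅ : Finset P3) ∪ ∅) := ⟨fun x =>
      (mem_union.1 x.2).elim (notMem_empty _) (notMem_empty _)⟩
    rw [Matrix.det_isEmpty]
    exact one_ne_zero

/-- **The curve `y² + 3 y = x³` over a quadratic field which contains `√-3`.** -/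
theorem base3 {F : Type} [Field F] [NumberField F] (hF : Module.finrank ℚ F = 2)
    (h3 : ∃ s : F, s ^ 2 = -3) :
    (∃ g : ℂ → ℂ, Differentiable ℂ g ∧ (∀ s : ℂ, 3 / 2 < s.re →
      g s = (⟨0, 0, 3, 0, 0⟩ : WeierstrassCurve F).LSeries s) ∧ g 1 ≠ 0) ∧
    Finite (⟨0, 0, 3, 0, 0⟩ : WeierstrassCurve F).toAffine.Point := by
  obtain ⟨s, hs⟩ := h3
  have hK2 : Module.finrank ℚ K = 2 := Pool.Agent.Lib.MP_1a91b9_ntH.finrank_K
  have hs3 : ((s3 : 𝓞 K) : K) ^ 2 = ((-3 : ℤ) : K) := by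
    have h := congrArg (fun z : 𝓞 K => (z : K)) s3_sq
    push_cast at h ⊢
    exact h
  obtain ⟨e, -⟩ := Pool.Agent.Lib.MP_1a91b9_ntI.iso_sq (a := -3) hK2 hF (x := ((s3 : 𝓞 K) : K))
    (x' := s) hs3 (by
      rw [hs]
      push_cast
      rfl) (by
      rintro ⟨r, hr⟩
      nlinarith [mul_self_nonneg r])
  let _ : Algebra K F := (e : K →+* F).toAlgebra
  have hb : Function.Bijective (algebraMap K F) := e.bijective
  have e1 : Wt F 3 = (⟨0, 0, 3, 0, 0⟩ : WeierstrassCurve F) := by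
    unfold Wt
    have h2 : algebraMap K F (((3 : 𝓞 K)) : K) = 3 := by
      have h4 : (((3 : 𝓞 K)) : K) = 3 := rfl
      rw [h4, map_ofNat]
    rw [h2]
  have h1 := chainHyp3.base F hb 3 (by norm_num) base3_K.1
  have h2 := finite_base3 hb 3 base3_K.2
  rw [e1] at h1 h2
  exact ⟨h1, h2⟩

end Pool.Agent.Lib.MP_1a91b9_ntCC
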