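import Pool.Agent.Lib.MP_1a91b9_ntK.D.Lim3

/-!
# MP_1a91b9_nt (cubic stability), part D: the constant is at most `2 / 3`
-/

set_option autoImplicit false

namespace Pool.Agent.Lib.MP_1a91b9_ntCC

open Pool.Agent.Lib.MP_1a91b9_ntK.Da

/-- `cinf3 = ∏' i, (1 - (1 / 3) ^ (2 * i + 1))` has factors between `0` and `1` and the first factor is `2 / 3`. -/
theorem cinf3_le : cinf3 ≤ 2 / 3 := by
  have hs : Summable fun i : ℕ => (1 / 3 : ℝ) ^ (2 * i + 1) := by
    have h : (fun i : ℕ => (1 / 3 : ℝ) ^ (2 * i + 1)) = fun i : ℕ => (1 / 9 : ℝ) ^ i * (1 / 3) := by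
      funext i
      rw [pow_succ, pow_mul]
      norm_num
    rw [h]
    exact (summable_geometric_of_lt_one (by norm_num) (by norm_num)).mul_right _
  have hC : Multipliable fun i : ℕ => (1 - (1 / 3 : ℝ) ^ (2 * i + 1)) := by
    have := Real.multipliable_one_add_of_summable (f := fun i : ℕ => -(1 / 3 : ℝ) ^ (2 * i + 1)) hs.neg
    simpa [sub_eq_add_neg] using this
  have ht := hC.hasProd.tendsto_prod_nat
  refine le_of_tendsto ht ?_
  filter_upwards [Filter.eventually_ge_atTop 1] with n hn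
  obtain ⟨m, rfl⟩ : ∃ m, n = m + 1 := ⟨n - 1, by omega⟩
  rw [Finset.prod_range_succ']
  have h0 : ∀ i : ℕ, (1 / 3 : ℝ) ^ (2 * i + 1) ≤ 1 := fun i => pow_le_one₀ (by norm_num) (by norm_num)
  have h0' : ∀ i : ℕ, (0 : ℝ) ≤ (1 / 3 : ℝ) ^ (2 * i + 1) := fun i => by positivity
  have h1 : ∏ k ∈ Finset.range m, (1 - (1 / 3 : ℝ) ^ (2 * (k + 1) + 1)) ≤ 1 :=
    Finset.prod_le_one (fun i _ => by linarith [h0 (i + 1)]) (fun i _ => by linarith [h0' (i + 1)])
  have h2 : (1 : ℝ) - (1 / 3) ^ (2 * 0 + 1) = 2 / 3 := by norm_num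
  rw [h2]
  linarith

end Pool.Agent.Lib.MP_1a91b9_ntCC
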