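import Pool.Agent.Lib.MP_1a91b9_ntCC.DSys

/-!
# MP_1a91b9_nt (cubic stability), part D: the conditions on the matrices
-/

set_option autoImplicit false
set_option linter.unusedSectionVars false

namespace Pool.Agent.Lib.MP_1a91b9_ntCC

open NumberField Finset Pool.Agent.Lib.MP_1a91b9_ntT Pool.Agent.Lib.MP_1a91b9_ntK
  Pool.Agent.Lib.MP_1a91b9_ntK.Da Pool.Agent.Lib.MP_1a91b9_ntK2 Pool.Agent.Lib.MP_1a91b9_ntK2.D9
  Pool.Agent.Lib.MP_1a91b9_ntN Pool.Agent.Lib.MP_1a91b9_ntN.H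

noncomputable section

/-! ### The square of the label -/

/-- The matrix of `D ^ 2` is the matrix of `D`. -/
theorem N_neg {R : Finset P3} {e e' : P3 → ZMod 3} (he : ∀ q ∈ R, e' q = -e q) {τ σ τ' σ' : ZMod 3}
    (hτ : τ' = -τ) (hσ : σ' = -σ) :
    (d3b.tw τ' σ').N e' 1 R = (d3b.tw τ σ).N e 1 R := by
  subst hτ hσ
  ext i j
  unfold Dat3.N
  by_cases h : i = j
  · rw [if_pos h, if_pos h, he i i.2]
    have h1 : ∑ l ∈ R.erase i, (d3b.tw (-τ) (-σ)).s i l * e' l =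
        -∑ l ∈ R.erase i, (d3b.tw τ σ).s i l * e l := by
      rw [← sum_neg_distrib]
      refine sum_congr rfl fun l hl => ?_
      rw [he l (mem_of_mem_erase hl)]
      show d3b.s i l * -e l = -(d3b.s i l * e l)
      ring
    rw [h1]
    show -e i * (1 * (-τ * d3b.a i + -σ * d3b.b i) + -∑ l ∈ R.erase i, (d3b.tw τ σ).s i l * e l) =
      e i * (1 * (τ * d3b.a i + σ * d3b.b i) + ∑ l ∈ R.erase i, (d3b.tw τ σ).s i l * e l)
    ring
  · rw [if_neg h, if_neg h]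
    rfl

theorem NB_neg {R : Finset P3} {e e' : P3 → ZMod 3} (he : ∀ q ∈ R, e' q = -e q)
    {τ σ τ' σ' : ZMod 3} (hτ : τ' = -τ) (hσ : σ' = -σ) (κ : ZMod 3) :
    d3b.NB e' τ' σ' κ R = d3b.NB e τ σ κ R := by
  unfold Dat3b.NB
  rw [N_neg he hτ hσ]

theorem kc_neg {R : Finset P3} {e e' : P3 → ZMod 3} (he : ∀ q ∈ R, e' q = -e q)
    {τ σ τ' σ' : ZMod 3} (hτ : τ' = -τ) (hσ : σ' = -σ) :
    (d3b.tw τ' σ').kc e' 1 R = (d3b.tw τ σ).kc e 1 R := by
  unfold Dat3.kc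
  simp only [N_neg he hτ hσ]

theorem kB_neg {R : Finset P3} {e e' : P3 → ZMod 3} (he : ∀ q ∈ R, e' q = -e q)
    {τ σ τ' σ' : ZMod 3} (hτ : τ' = -τ) (hσ : σ' = -σ) (κ : ZMod 3) :
    d3b.kB e' τ' σ' κ R = d3b.kB e τ σ κ R := by
  unfold Dat3b.kB
  simp only [NB_neg he hτ hσ]

variable {P T B : Finset P3} {γ : Bool ⊕ B → ZMod 3} {S : Finset P3}

theorem Cx.hd (h : Cx P T B γ S) : Disjoint (S ∪ P) T := disjoint_union_left.2 ⟨h.hST, h.hPT⟩

theorem Cx.hU (_h : Cx P T B γ S) : S ∪ P ∪ T = S ∪ (P ∪ T) := union_assoc _ _ _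

theorem Cx.hU' (_h : Cx P T B γ S) : T ∪ (S ∪ P) = S ∪ (P ∪ T) := by
  rw [union_comm, union_assoc]

theorem Cx.hα' (h : Cx P T B γ S) : cl3 (DD3 (S ∪ P) * DD3 T ^ 2) = αO P T B γ := by
  rw [← cls_a h.hd, ← h.hα]
  unfold Dat3b.cA
  rw [h.hU]

theorem Cx.hβ' (h : Cx P T B γ S) : cn3 (DD3 (S ∪ P) * DD3 T ^ 2) = βO P T B γ := by
  rw [← cls_b h.hd, ← h.hβ]
  unfold Dat3b.cB
  rw [h.hU]

theorem Cx.he (h : Cx P T B γ S) : ∀ q ∈ S ∪ (P ∪ T), eT (S ∪ P) q = -eT T q := by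
  intro q hq
  by_cases hT : q ∈ T
  · have h1 : q ∉ S ∪ P := fun h2 => disjoint_left.1 h.hd h2 hT
    rw [eT, eT, if_neg h1, if_pos hT, neg_neg]
  · have h1 : q ∈ S ∪ P := by
      rw [← h.hU] at hq
      exact (mem_union.1 hq).resolve_right hT
    rw [eT, eT, if_pos h1, if_neg hT]

theorem Cx.hα2 (h : Cx P T B γ S) : cl3 (DD3 T * DD3 (S ∪ P) ^ 2) = -αO P T B γ := by
  rw [← cls_a h.hd.symm, ← h.hα]
  unfold Dat3b.cA
  rw [h.hU', ← sum_neg_distrib]
  exact sum_congr rfl fun q hq => by rw [h.he q hq, neg_mul]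

theorem Cx.hβ2 (h : Cx P T B γ S) : cn3 (DD3 T * DD3 (S ∪ P) ^ 2) = -βO P T B γ := by
  rw [← cls_b h.hd.symm, ← h.hβ]
  unfold Dat3b.cB
  rw [h.hU', ← sum_neg_distrib]
  exact sum_congr rfl fun q hq => by rw [h.he q hq, neg_mul]

theorem Cx.hne' (h : Cx P T B γ S) : (S ∪ (P ∪ T)).Nonempty := h.hne.mono subset_union_left

/-- **`D` is good** if the matrix `r0` has the minimal kernel. -/
theorem gd_x0 (h : Cx P T B γ S) {k j : Fin 3}
    (hx : xo k j P T B γ (r0 k j (αO P T B γ) (βO P T B γ)) S = 1) : Gd9 k j (S ∪ P) T := by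
  rw [Gd9, h.hα', h.hβ']
  rcases fin3_cases j with hj | hj | hj
  · subst hj
    by_cases hk : k = 0
    · subst hk
      by_cases hα : αO P T B γ = 0
      · have hr : r0 0 0 (αO P T B γ) (βO P T B γ) = some (βO P T B γ) := by
          rw [r0, if_neg f3_01, if_pos ⟨rfl, rfl, hα⟩]
        rw [hr] at hx
        have h1 := h.xo_some_0 hα (βO P T B γ)
        rw [hx] at h1
        refine Or.inr (Or.inl ⟨rfl, rfl, hα, ?_, ?_⟩)
        · rw [h.hU]
          exact h.hne'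
        · show d3b.kB (eT T) 0 0 (βO P T B γ) (S ∪ P ∪ T) = 3
          rw [h.hU]
          exact h1
      · have hr : r0 0 0 (αO P T B γ) (βO P T B γ) = none := by
          rw [r0, if_neg f3_01, if_neg fun h => hα h.2.2]
        rw [hr] at hx
        have h1 := h.xo_none_0
        rw [hx] at h1
        refine Or.inl ⟨rfl, Or.inr ⟨rfl, ?_, ?_⟩⟩
        · rw [h.hU]
          have h2 : ∑ q ∈ S ∪ (P ∪ T), eT T q * d3.a q = αO P T B γ := h.hα
          rw [h2]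
          exact hα
        · rw [h.hU, ← d3_kc 0 (eT T) (S ∪ (P ∪ T))]
          exact h1
    · have hr : r0 k 0 (αO P T B γ) (βO P T B γ) = none := by
        rw [r0, if_neg f3_01, if_neg fun h => hk h.2.1]
      rw [hr, h.xo_none_k hk] at hx
      refine Or.inl ⟨rfl, Or.inl ⟨hk, ?_⟩⟩
      have h2 := det_of_ker _ hx
      have h3 := N_tw (k : ZMod 3) (eT T) (S ∪ (P ∪ T))
      rw [h.hU, ← h3]
      exact h2
  · subst hj
    have hr : r0 k 1 (αO P T B γ) (βO P T B γ) = some (k : ZMod 3) := if_pos rfl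
    rw [hr] at hx
    refine Or.inr (Or.inr (Or.inl ⟨rfl, ?_⟩))
    have h1 : d3b.kB (eT T) (k : ZMod 3) 1 (k : ZMod 3) (S ∪ (P ∪ T)) = 1 :=
      (h.xo_some_j k (j := 1) z3_one (k : ZMod 3)).symm.trans hx
    have h2 := det_of_ker _ h1
    show (d3b.NB (eT T) (k : ZMod 3) 1 (k : ZMod 3) (S ∪ P ∪ T)).det ≠ 0
    rw [h.hU]
    exact h2
  · subst hj
    have hr : r0 k 2 (αO P T B γ) (βO P T B γ) = none := by
      rw [r0, if_neg f3_21, if_neg fun h => f3_20 h.1]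
    rw [hr] at hx
    refine Or.inr (Or.inr (Or.inr ⟨rfl, ?_⟩))
    have h1 : (d3b.tw (k : ZMod 3) 2).kc (eT T) 1 (S ∪ (P ∪ T)) = 1 :=
      (h.xo_none_j k (j := 2) z3_two).symm.trans hx
    have h2 := det_of_ker _ h1
    show ((d3b.tw (k : ZMod 3) 2).N (eT T) 1 (S ∪ P ∪ T)).det ≠ 0
    rw [h.hU]
    exact h2

theorem f3_neg0 : (-(0 : Fin 3)) = 0 := by decide

theorem f3_neg1 : (-(1 : Fin 3)) = 2 := by decide

theorem f3_neg2 : (-(2 : Fin 3)) = 1 := by decide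

theorem f3_neg_ne : ∀ k : Fin 3, k ≠ 0 → -k ≠ 0 := by decide

theorem z3_neg (k : Fin 3) : ((-k : Fin 3) : ZMod 3) = -(k : ZMod 3) := rfl

/-- **`D ^ 2` is good** if the matrix `r1` has the minimal kernel. -/
theorem gd_x1 (h : Cx P T B γ S) {k j : Fin 3}
    (hx : xo k j P T B γ (r1 k j (αO P T B γ) (βO P T B γ)) S = 1) :
    Gd9 (-k) (-j) T (S ∪ P) := by
  rw [Gd9, h.hα2, h.hβ2]
  rcases fin3_cases j with hj | hj | hj
  · subst hj
    by_cases hk : k = 0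
    · subst hk
      by_cases hα : αO P T B γ = 0
      · have hr : r1 0 0 (αO P T B γ) (βO P T B γ) = some (-βO P T B γ) := by
          rw [r1, if_neg f3_20.symm, if_pos ⟨rfl, rfl, hα⟩]
        rw [hr] at hx
        have h1 := h.xo_some_0 hα (-βO P T B γ)
        rw [hx] at h1
        refine Or.inr (Or.inl ⟨f3_neg0, f3_neg0, ?_, ?_, ?_⟩)
        · show -αO P T B γ = 0
          rw [hα, neg_zero]
        · rw [h.hU']
          exact h.hne'
        · show d3b.kB (eT (S ∪ P)) 0 0 (-βO P T B γ) (T ∪ (S ∪ P)) = 3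
          rw [h.hU', kB_neg h.he (neg_zero (G := ZMod 3)).symm (neg_zero (G := ZMod 3)).symm]
          exact h1
      · have hr : r1 0 0 (αO P T B γ) (βO P T B γ) = none := by
          rw [r1, if_neg f3_20.symm, if_neg fun h => hα h.2.2]
        rw [hr] at hx
        have h1 := h.xo_none_0
        rw [hx] at h1
        refine Or.inl ⟨f3_neg0, Or.inr ⟨f3_neg0, ?_, ?_⟩⟩
        · rw [h.hU']
          have h2 : ∑ q ∈ S ∪ (P ∪ T), eT (S ∪ P) q * d3.a q = -αO P T B γ := by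
            rw [← h.hα, ← sum_neg_distrib]
            exact sum_congr rfl fun q hq => by
              rw [h.he q hq, neg_mul]
              rfl
          rw [h2]
          exact neg_ne_zero.2 hα
        · rw [h.hU', ← d3_kc 0 (eT (S ∪ P)) (S ∪ (P ∪ T)),
            kc_neg h.he (neg_zero (G := ZMod 3)).symm (neg_zero (G := ZMod 3)).symm]
          exact h1
    · have hr : r1 k 0 (αO P T B γ) (βO P T B γ) = none := by
        rw [r1, if_neg f3_20.symm, if_neg fun h => hk h.2.1]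
      rw [hr, h.xo_none_k hk] at hx
      refine Or.inl ⟨f3_neg0, Or.inl ⟨f3_neg_ne k hk, ?_⟩⟩
      have h2 := det_of_ker _ hx
      have h3 := N_tw (-(k : ZMod 3)) (eT (S ∪ P)) (S ∪ (P ∪ T))
      have h4 := N_neg (R := S ∪ (P ∪ T)) h.he (τ := (k : ZMod 3)) (σ := 0) rfl
        (neg_zero (G := ZMod 3)).symm
      show (d3.N (eT (S ∪ P)) (-(k : ZMod 3)) (T ∪ (S ∪ P))).det ≠ 0
      rw [h.hU']
      exact fun h5 => h2 ((congrArg Matrix.det (h4.symm.trans h3)).trans h5)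
  · subst hj
    have hr : r1 k 1 (αO P T B γ) (βO P T B γ) = none := by
      rw [r1, if_neg f3_21.symm, if_neg fun h => f3_01.symm h.1]
    rw [hr] at hx
    refine Or.inr (Or.inr (Or.inr ⟨f3_neg1, ?_⟩))
    have h1 : (d3b.tw (k : ZMod 3) 1).kc (eT T) 1 (S ∪ (P ∪ T)) = 1 :=
      (h.xo_none_j k (j := 1) z3_one).symm.trans hx
    have h2 := det_of_ker _ h1
    have h4 := N_neg (R := S ∪ (P ∪ T)) h.he (τ := (k : ZMod 3)) (σ := 1)
      (τ' := -(k : ZMod 3)) (σ' := 2) rfl (by decide)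
    show ((d3b.tw (-(k : ZMod 3)) 2).N (eT (S ∪ P)) 1 (T ∪ (S ∪ P))).det ≠ 0
    rw [h.hU']
    exact fun h5 => h2 ((congrArg Matrix.det h4.symm).trans h5)
  · subst hj
    have hr : r1 k 2 (αO P T B γ) (βO P T B γ) = some (-(k : ZMod 3)) := if_pos rfl
    rw [hr] at hx
    refine Or.inr (Or.inr (Or.inl ⟨f3_neg2, ?_⟩))
    have h1 : d3b.kB (eT T) (k : ZMod 3) 2 (-(k : ZMod 3)) (S ∪ (P ∪ T)) = 1 :=
      (h.xo_some_j k (j := 2) z3_two (-(k : ZMod 3))).symm.trans hx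
    have h2 := det_of_ker _ h1
    have h4 := NB_neg (R := S ∪ (P ∪ T)) h.he (τ := (k : ZMod 3)) (σ := 2)
      (τ' := -(k : ZMod 3)) (σ' := 1) rfl (by decide) (-(k : ZMod 3))
    show (d3b.NB (eT (S ∪ P)) (-(k : ZMod 3)) 1 (-(k : ZMod 3)) (T ∪ (S ∪ P))).det ≠ 0
    rw [h.hU']
    exact fun h5 => h2 ((congrArg Matrix.det h4.symm).trans h5)

end

end Pool.Agent.Lib.MP_1a91b9_ntCC
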