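import Mathlib

/-!
# MP_1a91b9_nt (cubic stability), part D: the dichotomy and the weights
-/

set_option autoImplicit false

namespace Pool.Agent.Lib.MP_1a91b9_ntCC

/-- The condition on the properties `p ρ`: `ρ = none` is the matrix without border, `ρ = some κ` the bordered
matrix with the corner `κ`. If `p none` then exactly one corner is bad, otherwise all the corners are good or all
are bad. -/
def Dich (p : Option (ZMod 3) → Prop) : Prop :=
  (p none → ∃ κ₀, ∀ κ, p (some κ) ↔ κ ≠ κ₀) ∧ (¬ p none → ∀ κ κ', p (some κ) → p (some κ'))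

/-- The weights. -/
noncomputable def wt (ρ₀ ρ₁ ρ : Option (ZMod 3)) : ℝ :=
  if ρ₀ = ρ₁ then (if ρ = ρ₀ then 1 else 0) else (if ρ = ρ₀ ∨ ρ = ρ₁ then 2 / 3 else -1 / 3)

end Pool.Agent.Lib.MP_1a91b9_ntCC
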