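import Pool.Agent.Lib.MP_1a91b9_ntCC.DDef

/-!
# MP_1a91b9_nt (cubic stability), part D: the kernels of a symmetric matrix over `𝔽₃` with a border
-/

set_option autoImplicit false

namespace Pool.Agent.Lib.MP_1a91b9_ntCC

/-- The orthogonal complement of the kernel of a symmetric matrix is its image. -/
private theorem DLin_im {n : Type} [Fintype n] [DecidableEq n] (N : Matrix n n (ZMod 3)) (hN : N.IsSymm)
    (a : n → ZMod 3) (h : ∀ v : n → ZMod 3, N.mulVec v = 0 → a ⬝ᵥ v = 0) :
    ∃ u : n → ZMod 3, N.mulVec u = a := by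
  let φ : Module.Dual (ZMod 3) (n → ZMod 3) :=
    { toFun := fun v => a ⬝ᵥ v
      map_add' := fun v w => dotProduct_add a v w
      map_smul' := fun c v => dotProduct_smul c a v }
  have h1 : φ ∈ (LinearMap.ker N.mulVecLin).dualAnnihilator := by
    rw [Submodule.mem_dualAnnihilator]
    intro v hv
    rw [LinearMap.mem_ker, Matrix.mulVecLin_apply] at hv
    exact h v hv
  rw [← LinearMap.range_dualMap_eq_dualAnnihilator_ker] at h1
  obtain ⟨g, hg⟩ := h1
  refine ⟨fun i => g (fun j => if i = j then 1 else 0), ?_⟩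
  have h2 : ∀ w : n → ZMod 3, g w = (fun i => g (fun j => if i = j then 1 else 0)) ⬝ᵥ w := by
    intro w
    rw [LinearMap.pi_apply_eq_sum_univ g w]
    refine Finset.sum_congr rfl fun i _ => ?_
    rw [smul_eq_mul, mul_comm]
  refine dotProduct_eq _ _ fun v => ?_
  have h3 : a ⬝ᵥ v = g (N.mulVec v) := (LinearMap.congr_fun hg v).symm
  rw [h3, h2, Matrix.dotProduct_mulVec, ← Matrix.mulVec_transpose, hN.eq]

/-- Let `N` be symmetric, `a` a vector and `W` a subspace of the kernel of `N` which is orthogonal to `a`. The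
properties: the kernel of `N` is in `W` (`none`), the kernel of the bordered matrix `[[N, a], [aᵀ, κ]]` is in
`W × 0` (`some κ`). Proof. The orthogonal complement of `ker N` is the image of `N` (`N` is symmetric; the form is
nondegenerate on `𝔽₃ ^ n`; dimension count, or `Matrix.dotProduct_mulVec` and double orthogonal complement).
(i) If `ker N ⊆ W` then `a ⊥ ker N`, so `a = N u` for some `u`; the kernel of the bordered matrix is the set of
`(-t u + w, t)` with `w ∈ ker N` and `t (κ - a ⬝ u) = 0`, so the only bad corner is `κ₀ = a ⬝ u`.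
(ii) Otherwise, if `a ⊥ ker N`, take `v ∈ ker N` outside `W`: `(v, 0)` is in the kernel for every `κ`, all corners
are bad. If `a` is not orthogonal to `ker N` then `a` is not in the image of `N`, so `t = 0` for every vector in
the kernel, and the condition `N v = 0`, `a ⬝ v = 0` does not depend on `κ`. -/
theorem db_lin {n : Type} [Fintype n] [DecidableEq n] (N : Matrix n n (ZMod 3)) (hN : N.IsSymm)
    (a : n → ZMod 3) (W : Submodule (ZMod 3) (n → ZMod 3)) (hW : ∀ v ∈ W, N.mulVec v = 0)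
    (ha : ∀ v ∈ W, a ⬝ᵥ v = 0) :
    Dich fun ρ => match ρ with
      | none => ∀ v : n → ZMod 3, N.mulVec v = 0 → v ∈ W
      | some κ => ∀ (v : n → ZMod 3) (t : ZMod 3), N.mulVec v + t • a = 0 →
          a ⬝ᵥ v + κ * t = 0 → v ∈ W ∧ t = 0 := by
  refine ⟨fun hk => ?_, fun hk κ κ' hp => ?_⟩
  · change ∀ v : n → ZMod 3, N.mulVec v = 0 → v ∈ W at hk
    obtain ⟨u, hu⟩ := DLin_im N hN a fun v hv => ha v (hk v hv)
    refine ⟨a ⬝ᵥ u, fun κ => ⟨fun hp hκ => ?_, fun hκ v t h1 h2 => ?_⟩⟩
    · change ∀ (v : n → ZMod 3) (t : ZMod 3), N.mulVec v + t • a = 0 →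
        a ⬝ᵥ v + κ * t = 0 → v ∈ W ∧ t = 0 at hp
      have h3 := (hp (-u) 1 (by rw [Matrix.mulVec_neg, hu, one_smul, neg_add_cancel])
        (by rw [dotProduct_neg, hκ, mul_one, neg_add_cancel])).2
      exact one_ne_zero h3
    · have h3 : N.mulVec (v + t • u) = 0 := by
        rw [Matrix.mulVec_add, Matrix.mulVec_smul, hu, h1]
      have h4 := ha _ (hk _ h3)
      rw [dotProduct_add, dotProduct_smul, smul_eq_mul] at h4
      have h5 : (κ - a ⬝ᵥ u) * t = 0 := by linear_combination h2 - h4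
      have h6 : t = 0 := (mul_eq_zero.1 h5).resolve_left (sub_ne_zero.2 hκ)
      refine ⟨hk v ?_, h6⟩
      rw [h6, zero_smul, add_zero] at h1
      exact h1
  · change ¬ ∀ v : n → ZMod 3, N.mulVec v = 0 → v ∈ W at hk
    change ∀ (v : n → ZMod 3) (t : ZMod 3), N.mulVec v + t • a = 0 →
      a ⬝ᵥ v + κ * t = 0 → v ∈ W ∧ t = 0 at hp
    change ∀ (v : n → ZMod 3) (t : ZMod 3), N.mulVec v + t • a = 0 →
      a ⬝ᵥ v + κ' * t = 0 → v ∈ W ∧ t = 0
    by_cases hc : ∀ v : n → ZMod 3, N.mulVec v = 0 → a ⬝ᵥ v = 0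
    · exfalso
      apply hk
      intro v hv
      exact (hp v 0 (by rw [hv, zero_smul, add_zero]) (by rw [hc v hv, mul_zero, add_zero])).1
    · push Not at hc
      obtain ⟨v₀, hv₀, hv₁⟩ := hc
      intro v t h1 h2
      have h3 : v₀ ⬝ᵥ N.mulVec v = 0 := by
        rw [Matrix.dotProduct_mulVec, ← Matrix.mulVec_transpose, hN.eq, hv₀, zero_dotProduct]
      have h4 : v₀ ⬝ᵥ (N.mulVec v + t • a) = 0 := by rw [h1, dotProduct_zero]
      rw [dotProduct_add, h3, zero_add, dotProduct_smul, smul_eq_mul, dotProduct_comm] at h4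
      have h5 : t = 0 := (mul_eq_zero.1 h4).resolve_right hv₁
      rw [h5] at h1 h2 ⊢
      rw [mul_zero] at h2
      exact hp v 0 h1 (by rw [mul_zero]; exact h2)

end Pool.Agent.Lib.MP_1a91b9_ntCC
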