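import Pool.Agent.Lib.MP_1a91b9_ntCC.DSys
import Pool.Agent.Lib.MP_1a91b9_ntCC.DLin

/-!
# MP_1a91b9_nt (cubic stability), part D: the dichotomy for the four matrices of a label
-/

set_option autoImplicit false
set_option linter.unusedSectionVars false

namespace Pool.Agent.Lib.MP_1a91b9_ntCC

open NumberField Finset Pool.Agent.Lib.MP_1a91b9_ntT Pool.Agent.Lib.MP_1a91b9_ntK
  Pool.Agent.Lib.MP_1a91b9_ntK.Da Pool.Agent.Lib.MP_1a91b9_ntK2 Pool.Agent.Lib.MP_1a91b9_ntK2.D9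
  Pool.Agent.Lib.MP_1a91b9_ntN Pool.Agent.Lib.MP_1a91b9_ntN.H

noncomputable section

/-! ### The sizes of kernels -/

section Card

variable {n : Type} [Fintype n] [DecidableEq n]

theorem card_one_iff (M : Matrix n n (ZMod 3)) :
    Fintype.card {v : n → ZMod 3 // M.mulVec v = 0} = 1 ↔ ∀ v, M.mulVec v = 0 → v = 0 := by
  rw [Fintype.card_eq_one_iff]
  constructor
  · rintro ⟨x, hx⟩ v hv
    have h1 := hx ⟨v, hv⟩
    have h2 := hx ⟨0, Matrix.mulVec_zero _⟩
    rw [← h2] at h1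
    exact congrArg Subtype.val h1
  · intro h
    exact ⟨⟨0, Matrix.mulVec_zero _⟩, fun y => Subtype.ext (h y.1 y.2)⟩

theorem card_three_iff (M : Matrix n n (ZMod 3)) {w : n → ZMod 3} (hw : w ≠ 0)
    (hM : M.mulVec w = 0) :
    Fintype.card {v : n → ZMod 3 // M.mulVec v = 0} = 3 ↔
      ∀ v, M.mulVec v = 0 → v ∈ Submodule.span (ZMod 3) {w} := by
  classical
  obtain ⟨i, hi⟩ : ∃ i, w i ≠ 0 := by
    by_contra h
    push Not at h
    exact hw (funext h)
  have hmul : ∀ c : ZMod 3, M.mulVec (c • w) = 0 := fun c => by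
    rw [Matrix.mulVec_smul, hM, smul_zero]
  have hinj : Function.Injective fun c : ZMod 3 =>
      (⟨c • w, hmul c⟩ : {v : n → ZMod 3 // M.mulVec v = 0}) := by
    intro c c' h
    have h1 := congrFun (congrArg Subtype.val h) i
    exact mul_right_cancel₀ hi h1
  constructor
  · intro h v hv
    have hb : Function.Bijective fun c : ZMod 3 =>
        (⟨c • w, hmul c⟩ : {v : n → ZMod 3 // M.mulVec v = 0}) := by
      rw [Fintype.bijective_iff_injective_and_card]
      refine ⟨hinj, ?_⟩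
      rw [h]
      exact ZMod.card 3
    obtain ⟨c, hc⟩ := hb.2 ⟨v, hv⟩
    exact Submodule.mem_span_singleton.2 ⟨c, congrArg Subtype.val hc⟩
  · intro h
    have hb : Function.Bijective fun c : ZMod 3 =>
        (⟨c • w, hmul c⟩ : {v : n → ZMod 3 // M.mulVec v = 0}) := by
      refine ⟨hinj, ?_⟩
      rintro ⟨v, hv⟩
      obtain ⟨c, hc⟩ := Submodule.mem_span_singleton.1 (h v hv)
      exact ⟨c, Subtype.ext hc⟩
    rw [← Fintype.card_of_bijective hb]
    exact ZMod.card 3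

end Card

/-! ### The bordered matrix -/

section Bord

/-- the vector of the exponents -/
def vE (e : P3 → ZMod 3) (R : Finset P3) : R → ZMod 3 := fun i => e i

/-- the border -/
def vA (R : Finset P3) : R → ZMod 3 := fun i => d3b.a i

variable {e : P3 → ZMod 3} {τ σ κ : ZMod 3} {R : Finset P3}

theorem NB_mulVec (x : R ⊕ Unit → ZMod 3) :
    (d3b.NB e τ σ κ R).mulVec x = Sum.elim
      (((d3b.tw τ σ).N e 1 R).mulVec (fun i => x (Sum.inl i)) +
        x (Sum.inr ()) • vA R)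
      (fun _ => vA R ⬝ᵥ (fun i => x (Sum.inl i)) + κ * x (Sum.inr ())) := by
  unfold Dat3b.NB
  rw [Matrix.fromBlocks_mulVec]
  funext y
  rcases y with i | u
  · show (((d3b.tw τ σ).N e 1 R).mulVec (x ∘ Sum.inl)) i +
      (Matrix.of fun (j : R) (_ : Unit) => d3b.a j).mulVec (x ∘ Sum.inr) i = _
    have h1 : (Matrix.of fun (j : R) (_ : Unit) => d3b.a j).mulVec (x ∘ Sum.inr) i =
        d3b.a i * x (Sum.inr ()) := by
      show ∑ u : Unit, d3b.a i * x (Sum.inr u) = _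
      rw [Fintype.sum_unique]
    rw [h1, mul_comm]
    rfl
  · show (Matrix.of fun (_ : Unit) (j : R) => d3b.a j).mulVec (x ∘ Sum.inl) u +
      (Matrix.of fun (_ : Unit) (_ : Unit) => κ).mulVec (x ∘ Sum.inr) u = _
    have h1 : (Matrix.of fun (_ : Unit) (_ : Unit) => κ).mulVec (x ∘ Sum.inr) u =
        κ * x (Sum.inr ()) := by
      show ∑ u : Unit, κ * x (Sum.inr u) = _
      rw [Fintype.sum_unique]
    rw [h1]
    rfl

theorem NB_zero_iff (x : R ⊕ Unit → ZMod 3) : (d3b.NB e τ σ κ R).mulVec x = 0 ↔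
    (((d3b.tw τ σ).N e 1 R).mulVec (fun i => x (Sum.inl i)) +
        x (Sum.inr ()) • vA R) = 0 ∧
      vA R ⬝ᵥ (fun i => x (Sum.inl i)) + κ * x (Sum.inr ()) = 0 := by
  rw [NB_mulVec]
  constructor
  · intro h
    exact ⟨funext fun i => congrFun h (Sum.inl i), congrFun h (Sum.inr ())⟩
  · rintro ⟨h1, h2⟩
    funext y
    rcases y with i | u
    · exact congrFun h1 i
    · exact h2

theorem kc_one_iff : (d3b.tw τ σ).kc e 1 R = 1 ↔
    ∀ v, ((d3b.tw τ σ).N e 1 R).mulVec v = 0 → v ∈ (⊥ : Submodule (ZMod 3) (R → ZMod 3)) := by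
  simp only [Submodule.mem_bot]
  exact card_one_iff _

theorem kB_one_iff : d3b.kB e τ σ κ R = 1 ↔
    ∀ (v : R → ZMod 3) (t : ZMod 3), ((d3b.tw τ σ).N e 1 R).mulVec v + t • vA R = 0 →
      vA R ⬝ᵥ v + κ * t = 0 →
        v ∈ (⊥ : Submodule (ZMod 3) (R → ZMod 3)) ∧ t = 0 := by
  simp only [Submodule.mem_bot]
  refine (card_one_iff _).trans ⟨fun h v t h1 h2 => ?_, fun h x hx => ?_⟩
  · have h3 := h (Sum.elim v fun _ => t) ((NB_zero_iff _).2 ⟨h1, h2⟩)
    exact ⟨funext fun i => congrFun h3 (Sum.inl i), congrFun h3 (Sum.inr ())⟩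
  · obtain ⟨h1, h2⟩ := (NB_zero_iff x).1 hx
    obtain ⟨h3, h4⟩ := h _ _ h1 h2
    funext y
    rcases y with i | u
    · exact congrFun h3 i
    · exact h4

theorem kc_three_iff (he : ∀ q, e q * e q = 1) (hR : R.Nonempty)
    (hM : ((d3b.tw τ σ).N e 1 R).mulVec (vE e R) = 0) : (d3b.tw τ σ).kc e 1 R = 3 ↔
    ∀ v, ((d3b.tw τ σ).N e 1 R).mulVec v = 0 →
      v ∈ Submodule.span (ZMod 3) {vE e R} := by
  obtain ⟨q, hq⟩ := hR
  refine card_three_iff _ (fun h => ?_) hM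
  have h1 : e q = 0 := congrFun h ⟨q, hq⟩
  have h2 := he q
  rw [h1, mul_zero] at h2
  exact absurd h2 (by decide)

theorem kB_three_iff (he : ∀ q, e q * e q = 1) (hR : R.Nonempty)
    (hM : ((d3b.tw τ σ).N e 1 R).mulVec (vE e R) = 0)
    (ha : vA R ⬝ᵥ (vE e R) = 0) : d3b.kB e τ σ κ R = 3 ↔
    ∀ (v : R → ZMod 3) (t : ZMod 3), ((d3b.tw τ σ).N e 1 R).mulVec v + t • vA R = 0 →
      vA R ⬝ᵥ v + κ * t = 0 →
        v ∈ Submodule.span (ZMod 3) {vE e R} ∧ t = 0 := by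
  obtain ⟨q, hq⟩ := hR
  have hw : (Sum.elim (vE e R) (fun _ => 0) : R ⊕ Unit → ZMod 3) ≠ 0 := by
    intro h
    have h1 : e q = 0 := congrFun h (Sum.inl ⟨q, hq⟩)
    have h2 := he q
    rw [h1, mul_zero] at h2
    exact absurd h2 (by decide)
  have hw0 : (d3b.NB e τ σ κ R).mulVec (Sum.elim (vE e R) (fun _ => 0)) = 0 := by
    rw [NB_zero_iff]
    refine ⟨?_, ?_⟩
    · show ((d3b.tw τ σ).N e 1 R).mulVec (vE e R) + (0 : ZMod 3) • vA R = 0
      rw [hM, zero_smul, add_zero]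
    · show vA R ⬝ᵥ (vE e R) + κ * 0 = 0
      rw [ha, mul_zero, add_zero]
  refine (card_three_iff _ hw hw0).trans ⟨fun h v t h1 h2 => ?_, fun h x hx => ?_⟩
  · have h3 := h (Sum.elim v fun _ => t) ((NB_zero_iff _).2 ⟨h1, h2⟩)
    obtain ⟨c, hc⟩ := Submodule.mem_span_singleton.1 h3
    refine ⟨Submodule.mem_span_singleton.2 ⟨c, funext fun i => congrFun hc (Sum.inl i)⟩, ?_⟩
    have h4 := congrFun hc (Sum.inr ())
    have h5 : c * 0 = t := h4
    rw [← h5, mul_zero]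
  · obtain ⟨h1, h2⟩ := (NB_zero_iff x).1 hx
    obtain ⟨h3, h4⟩ := h _ _ h1 h2
    obtain ⟨c, hc⟩ := Submodule.mem_span_singleton.1 h3
    refine Submodule.mem_span_singleton.2 ⟨c, ?_⟩
    funext y
    rcases y with i | u
    · exact congrFun hc i
    · show c * 0 = x (Sum.inr u)
      rw [mul_zero]
      exact h4.symm

theorem N_symm (hs : d3b.Sym) : ((d3b.tw τ σ).N e 1 R).IsSymm := by
  ext i j
  rw [Matrix.transpose_apply]
  unfold Dat3.N
  by_cases h : i = j
  · subst h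
    rfl
  · rw [if_neg h, if_neg fun h' => h h'.symm]
    show -d3b.s j i = -d3b.s i j
    rw [hs j i fun h' => h (Subtype.ext h'.symm)]

/-- `N e = 0` for the Laplacian -/
theorem N_mul_e (he : ∀ q, e q * e q = 1) :
    ((d3b.tw 0 0).N e 1 R).mulVec (vE e R) = 0 := by
  funext i
  rw [Dat3.N_mulVec _ e he]
  have h1 : ∀ l : R, (d3b.tw 0 0).s i l * (e i * e l * vE e R i - vE e R l) = 0 := by
    intro l
    have h2 : e i * e l * vE e R i - vE e R l = 0 := by
      show e i * e l * e i - e l = 0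
      linear_combination (e l) * he i
    rw [h2, mul_zero]
  rw [sum_eq_zero fun l _ => h1 l]
  show e i * (1 * (0 * d3b.a i + 0 * d3b.b i)) * e i + 0 = 0
  ring

end Bord

variable {P T B : Finset P3} {γ : Bool ⊕ B → ZMod 3} {S : Finset P3}

theorem Dich.congr {p q : Option (ZMod 3) → Prop} (h : ∀ ρ, p ρ ↔ q ρ) (hq : Dich q) : Dich p := by
  have e : p = q := funext fun ρ => propext (h ρ)
  rw [e]
  exact hq

theorem f3_ne (j : Fin 3) (h : j ≠ 0) : (j : ZMod 3) ≠ 0 := h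

theorem three_mul_iff {a b : ℕ} (h : a = 3 * b) : b = 1 ↔ a = 3 := by omega

/-- **The dichotomy.** -/
theorem dich_xo (h : Cx P T B γ S) {k j : Fin 3}
    (hc : j ≠ 0 ∨ (j = 0 ∧ k = 0 ∧ αO P T B γ = 0)) :
    Dich fun ρ => xo k j P T B γ ρ S = 1 := by
  have hs : d3b.Sym := d3b_OK.ok.sym
  by_cases hj : j = 0
  · obtain ⟨-, hk, hα⟩ := hc.resolve_left fun h => h hj
    subst hj hk
    have he : ∀ q, eT T q * eT T q = 1 := eT_mul T
    have hM := N_mul_e (R := S ∪ (P ∪ T)) he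
    have ha : vA (S ∪ (P ∪ T)) ⬝ᵥ vE (eT T) (S ∪ (P ∪ T)) = 0 := by
      show ∑ i : ↥(S ∪ (P ∪ T)), d3b.a i * eT T i = 0
      rw [sum_coe_sort (S ∪ (P ∪ T)) fun q => d3b.a q * eT T q]
      rw [← hα, ← h.hα]
      exact sum_congr rfl fun q _ => mul_comm _ _
    have hR : (S ∪ (P ∪ T)).Nonempty := h.hne.mono subset_union_left
    refine Dich.congr (fun ρ => ?_) (db_lin _ (N_symm (e := eT T) (τ := 0) (σ := 0) hs)
      (vA (S ∪ (P ∪ T))) (Submodule.span (ZMod 3) {vE (eT T) (S ∪ (P ∪ T))})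
      (fun v hv => ?_) fun v hv => ?_)
    · cases ρ with
      | none => exact (three_mul_iff h.xo_none_0).trans (kc_three_iff he hR hM)
      | some κ => exact (three_mul_iff (h.xo_some_0 hα κ)).trans (kB_three_iff he hR hM ha)
    · obtain ⟨c, rfl⟩ := Submodule.mem_span_singleton.1 hv
      rw [Matrix.mulVec_smul, hM, smul_zero]
    · obtain ⟨c, rfl⟩ := Submodule.mem_span_singleton.1 hv
      rw [dotProduct_smul, ha, smul_zero]
  · have hj' : (j : ZMod 3) ≠ 0 := f3_ne j hj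
    refine Dich.congr (fun ρ => ?_) (db_lin _ (N_symm (e := eT T) (τ := (k : ZMod 3))
      (σ := (j : ZMod 3)) (R := S ∪ (P ∪ T)) hs)
      (vA (S ∪ (P ∪ T))) ⊥ (fun v hv => ?_) fun v hv => ?_)
    · cases ρ with
      | none =>
        have h1 := h.xo_none_j k hj'
        exact (iff_of_eq (congrArg (· = 1) h1)).trans kc_one_iff
      | some κ =>
        have h1 := h.xo_some_j k hj' κ
        exact (iff_of_eq (congrArg (· = 1) h1)).trans kB_one_iff
    · rw [(Submodule.mem_bot _).1 hv, Matrix.mulVec_zero]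
    · rw [(Submodule.mem_bot _).1 hv, dotProduct_zero]

end

end Pool.Agent.Lib.MP_1a91b9_ntCC
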