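import Pool.Agent.Lib.MP_1a91b9_ntZ.Bin

/-!
# MP_1a91b9_nt (cubic stability), part D: mean values of products of linear combinations
-/

set_option autoImplicit false

namespace Pool.Agent.Lib.MP_1a91b9_ntCC

open Finset Pool.Agent.Lib.MP_1a91b9_ntZ

/-- A mean value does not depend on the value of the function at one element. (`|∑ h - ∑ f| ≤ |h b₀ - f b₀|`,
which is at most `ε / 2 * X` for large `X`.) -/
theorem mn_off {β : Type} {B : ℕ → Finset β} {f h : β → ℝ} {v : ℝ} (hf : Mn B f v) (b₀ : β)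
    (h1 : ∀ X, ∀ x ∈ B X, x ≠ b₀ → h x = f x) : Mn B h v := by
  intro δ hδ ε hε
  obtain ⟨X1, hX1⟩ := hf δ hδ (ε / 2) (by positivity)
  obtain ⟨X2, hX2⟩ := exists_nat_ge (|h b₀ - f b₀| / (ε / 2))
  refine ⟨max X1 X2, fun X hX => ?_⟩
  have h3 := hX1 X (le_trans (le_max_left _ _) hX)
  have h4 : |h b₀ - f b₀| ≤ ε / 2 * X := by
    have h5 : (X2 : ℝ) ≤ X := by exact_mod_cast le_trans (le_max_right _ _) hX
    have h6 : |h b₀ - f b₀| / (ε / 2) ≤ X := hX2.trans h5
    rw [div_le_iff₀ (by positivity)] at h6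
    linarith
  have h7 : |∑ b ∈ B X, h b - ∑ b ∈ B X, f b| ≤ |h b₀ - f b₀| := by
    rw [← sum_sub_distrib]
    by_cases hb : b₀ ∈ B X
    · rw [sum_eq_single_of_mem b₀ hb (fun x hx hne => by rw [h1 X x hx hne, sub_self])]
    · rw [sum_eq_zero (fun x hx => by
        rw [h1 X x hx (fun he => hb (he ▸ hx)), sub_self]), abs_zero]
      exact abs_nonneg _
  calc |∑ b ∈ B X, h b - v * (B X).card|
      = |(∑ b ∈ B X, h b - ∑ b ∈ B X, f b) + (∑ b ∈ B X, f b - v * (B X).card)| := by
        congr 1
        ring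
    _ ≤ _ := abs_add_le _ _
    _ ≤ ε / 2 * X + (δ * (B X).card + ε / 2 * X) := add_le_add (h7.trans h4) h3
    _ = δ * (B X).card + ε * X := by ring

private theorem DMix_smul {β : Type} {B : ℕ → Finset β} {f : β → ℝ} {v : ℝ} (hf : Mn B f v) (s : ℝ) :
    Mn B (fun x => s * f x) (s * v) := by
  intro δ hδ ε hε
  have hs : (0 : ℝ) < |s| + 1 := by positivity
  obtain ⟨X1, hX1⟩ := hf (δ / (|s| + 1)) (by positivity) (ε / (|s| + 1)) (by positivity)
  refine ⟨X1, fun X hX => ?_⟩
  have h3 := hX1 X hX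
  rw [← mul_sum, mul_assoc, ← mul_sub, abs_mul]
  calc |s| * |∑ b ∈ B X, f b - v * (B X).card|
      ≤ (|s| + 1) * (δ / (|s| + 1) * (B X).card + ε / (|s| + 1) * X) :=
        mul_le_mul (by linarith) h3 (abs_nonneg _) hs.le
    _ = δ * (B X).card + ε * X := by
        field_simp

private theorem DMix_zero {β : Type} (B : ℕ → Finset β) : Mn B (fun _ => 0) 0 := by
  intro δ hδ ε hε
  refine ⟨0, fun X _ => ?_⟩
  rw [sum_const_zero, zero_mul, sub_self, abs_zero]
  positivity

private theorem DMix_sum {β R : Type} {B : ℕ → Finset β} (s : Finset R) {F : R → β → ℝ} {v : R → ℝ}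
    (h : ∀ r ∈ s, Mn B (F r) (v r)) : Mn B (fun b => ∑ r ∈ s, F r b) (∑ r ∈ s, v r) := by
  classical
  induction s using Finset.induction_on with
  | empty =>
    simp only [sum_empty]
    exact DMix_zero B
  | insert a t ha ih =>
    simp only [sum_insert ha]
    exact (h a (mem_insert_self _ _)).add (ih fun r hr => h r (mem_insert_of_mem hr))

private theorem DMix_gen {β A R : Type} [DecidableEq A] [Fintype R] {B : ℕ → Finset β}
    {y : A → R → β → ℝ} {c : ℝ}
    (hy : ∀ f : A → R, ∀ J : Finset A, J.Nonempty →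
      Mn B (fun b => ∏ a ∈ J, y a (f a) b) (c ^ J.card))
    (w : A → R → ℝ) (J₂ : Finset A) : ∀ (J₁ : Finset A), Disjoint J₁ J₂ → ∀ f : A → R,
    Mn B (fun b => (∏ a ∈ J₁, y a (f a) b) * ∏ a ∈ J₂, ∑ r, w a r * y a r b)
      (c ^ J₁.card * ∏ a ∈ J₂, (∑ r, w a r) * c) := by
  induction J₂ using Finset.induction_on with
  | empty =>
    intro J₁ _ f
    simp only [prod_empty, mul_one]
    rcases J₁.eq_empty_or_nonempty with h0 | h0
    · rw [h0]
      simp only [prod_empty, card_empty, pow_zero]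
      exact Mn.one B
    · exact hy f J₁ h0
  | insert a s ha ih =>
    intro J₁ hd f
    rw [disjoint_insert_right] at hd
    obtain ⟨ha1, hd1⟩ := hd
    have hdis : Disjoint (insert a J₁) s := by
      rw [disjoint_insert_left]
      exact ⟨ha, hd1⟩
    have h1 := DMix_sum (B := B) (univ : Finset R)
      (F := fun r b => w a r * ((∏ i ∈ insert a J₁, y i (Function.update f a r i) b) *
        ∏ i ∈ s, ∑ r, w i r * y i r b))
      (v := fun r => w a r * (c ^ (insert a J₁).card * ∏ i ∈ s, (∑ r, w i r) * c))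
      (fun r _ => DMix_smul (ih (insert a J₁) hdis (Function.update f a r)) (w a r))
    refine h1.congr (fun X x _ => ?_) ?_
    · rw [prod_insert ha, sum_mul, mul_sum]
      refine sum_congr rfl fun r _ => ?_
      rw [prod_insert ha1, Function.update_self]
      have h2 : ∏ i ∈ J₁, y i (Function.update f a r i) x = ∏ i ∈ J₁, y i (f i) x := by
        refine prod_congr rfl fun i hi => ?_
        have hne : i ≠ a := by
          rintro rfl
          exact ha1 hi
        rw [Function.update_of_ne hne]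
      rw [h2]
      ring
    · rw [prod_insert ha, card_insert_of_notMem ha1, ← sum_mul]
      ring

/-- **Products of linear combinations.** If all the choices `f` of one function `y a (f a)` for every index `a` in
`J` have the joint mean value `c ^ #J`, then the product of the linear combinations `∑ r, w a r * y a r` has the
mean value `∏ (∑ r, w a r) * c`. (Induction on `J₂` for the stronger statement on disjoint `J₁`, `J₂`:
`∏ a ∈ J₁, y a (f a) * ∏ a ∈ J₂, ∑ r, w a r * y a r` has the mean value `c ^ #J₁ * ∏ a ∈ J₂, (∑ r, w a r) * c`;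
for `insert a J₂` write the factor of `a` as a sum over `r` and move `a` to `J₁` with `Function.update f a r`;
`Mn.add`, `Mn.congr`, and a scalar multiple of a mean value. For `J₁ = J₂ = ∅` use `Mn.one`.) -/
theorem da_mix {β A R : Type} [Fintype A] [DecidableEq A] [Fintype R] {B : ℕ → Finset β}
    {y : A → R → β → ℝ} {c : ℝ}
    (hy : ∀ f : A → R, ∀ J : Finset A, J.Nonempty →
      Mn B (fun b => ∏ a ∈ J, y a (f a) b) (c ^ J.card))
    (w : A → R → ℝ) (J : Finset A) :
    Mn B (fun b => ∏ a ∈ J, ∑ r, w a r * y a r b) (∏ a ∈ J, (∑ r, w a r) * c) := by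
  rcases isEmpty_or_nonempty R with hR | ⟨⟨r₀⟩⟩
  · rcases J.eq_empty_or_nonempty with h0 | ⟨a, ha⟩
    · rw [h0]
      simp only [prod_empty]
      exact Mn.one B
    · refine (DMix_zero B).congr (fun X x _ => ?_) ?_
      · exact prod_eq_zero ha (by rw [univ_eq_empty, sum_empty])
      · exact prod_eq_zero ha (by rw [univ_eq_empty, sum_empty, zero_mul])
  · refine (DMix_gen hy w J ∅ (disjoint_empty_left _) (fun _ => r₀)).congr (fun X x _ => ?_) ?_
    · rw [prod_empty, one_mul]
    · rw [card_empty, pow_zero, one_mul]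

end Pool.Agent.Lib.MP_1a91b9_ntCC
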