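import Pool.Agent.Lib.MP_1a91b9_ntCC.DDef

/-!
# MP_1a91b9_nt (cubic stability), part D: the weights
-/

set_option autoImplicit false

namespace Pool.Agent.Lib.MP_1a91b9_ntCC

private theorem DWt_ne {ρ₀ ρ₁ : Option (ZMod 3)} (h : ρ₀ ≠ ρ₁) (ρ : Option (ZMod 3)) :
    wt ρ₀ ρ₁ ρ = -1 / 3 + (if ρ = ρ₀ then 1 else 0) + (if ρ = ρ₁ then 1 else 0) := by
  unfold wt
  rw [if_neg h]
  by_cases h0 : ρ = ρ₀
  · have h1 : ρ ≠ ρ₁ := fun e => h (h0.symm.trans e)
    rw [if_pos (Or.inl h0), if_pos h0, if_neg h1]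
    norm_num
  · by_cases h1 : ρ = ρ₁
    · rw [if_pos (Or.inr h1), if_neg h0, if_pos h1]
      norm_num
    · rw [if_neg (by tauto), if_neg h0, if_neg h1]
      norm_num

/-- The sum of the weights (`Option (ZMod 3)` has four elements). -/
theorem wt_sum (ρ₀ ρ₁ : Option (ZMod 3)) :
    ∑ ρ, wt ρ₀ ρ₁ ρ = if ρ₀ = ρ₁ then 1 else 2 / 3 := by
  by_cases h : ρ₀ = ρ₁
  · simp only [wt, if_pos h, Finset.sum_ite_eq', Finset.mem_univ, if_true]
  · rw [if_neg h, Finset.sum_congr rfl fun ρ _ => DWt_ne h ρ, Finset.sum_add_distrib, Finset.sum_add_distrib,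
      Finset.sum_ite_eq', Finset.sum_ite_eq', Finset.sum_const, if_pos (Finset.mem_univ _),
      if_pos (Finset.mem_univ _), Finset.card_univ, Fintype.card_option, ZMod.card]
    norm_num

open Classical in
/-- **The indicator of two of the properties as a linear combination of the indicators.** If `ρ₀ = ρ₁` this is
clear. Otherwise, in the first case of `Dich` exactly three of the four properties hold (`none` and two corners),
in the second case `none` fails and all or no corners hold; so the sum is `2 / 3 * #(good among ρ₀, ρ₁) - 1 / 3 *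
#(good among the others)`: check the cases. -/
theorem wt_ind (ρ₀ ρ₁ : Option (ZMod 3)) (p : Option (ZMod 3) → Prop) (h : ρ₀ ≠ ρ₁ → Dich p) :
    ∑ ρ, wt ρ₀ ρ₁ ρ * (if p ρ then (1 : ℝ) else 0) = if p ρ₀ ∧ p ρ₁ then 1 else 0 := by
  by_cases e : ρ₀ = ρ₁
  · subst e
    have : ∀ ρ, wt ρ₀ ρ₀ ρ * (if p ρ then (1 : ℝ) else 0) = if ρ = ρ₀ then (if p ρ₀ then 1 else 0) else 0 := by
      intro ρ
      unfold wt
      rw [if_pos rfl]
      by_cases h0 : ρ = ρ₀
      · subst h0
        simp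
      · simp [h0]
    rw [Finset.sum_congr rfl fun ρ _ => this ρ, Finset.sum_ite_eq', if_pos (Finset.mem_univ _)]
    simp
  · have hd := h e
    have alt : (∃ β, ∀ ρ, p ρ ↔ ρ ≠ β) ∨ ∀ ρ, ¬ p ρ := by
      by_cases hn : p none
      · obtain ⟨κ₀, hκ⟩ := hd.1 hn
        refine Or.inl ⟨some κ₀, ?_⟩
        rintro (_ | κ)
        · simp [hn]
        · rw [hκ κ]
          simp
      · by_cases h0 : p (some 0)
        · refine Or.inl ⟨none, ?_⟩
          rintro (_ | κ)
          · simp [hn]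
          · simp [hd.2 hn 0 κ h0]
        · refine Or.inr ?_
          rintro (_ | κ) hp
          · exact hn hp
          · exact h0 (hd.2 hn κ 0 hp)
    rcases alt with ⟨β, hβ⟩ | h0
    · have h1 : ∀ ρ, wt ρ₀ ρ₁ ρ * (if p ρ then (1 : ℝ) else 0) =
          wt ρ₀ ρ₁ ρ - if ρ = β then wt ρ₀ ρ₁ β else 0 := by
        intro ρ
        by_cases hr : ρ = β
        · have : ¬ p ρ := fun hp => (hβ ρ).1 hp hr
          rw [if_neg this, if_pos hr, hr]
          ring
        · rw [if_pos ((hβ ρ).2 hr), if_neg hr]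
          ring
      rw [Finset.sum_congr rfl fun ρ _ => h1 ρ, Finset.sum_sub_distrib, wt_sum, if_neg e, Finset.sum_ite_eq',
        if_pos (Finset.mem_univ _), DWt_ne e]
      by_cases a0 : β = ρ₀
      · have : ¬ (p ρ₀ ∧ p ρ₁) := fun hp => (hβ ρ₀).1 hp.1 a0.symm
        have a1 : β ≠ ρ₁ := fun x => e (a0.symm.trans x)
        rw [if_neg this, if_pos a0, if_neg a1]
        norm_num
      · by_cases a1 : β = ρ₁
        · have : ¬ (p ρ₀ ∧ p ρ₁) := fun hp => (hβ ρ₁).1 hp.2 a1.symm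
          rw [if_neg this, if_neg a0, if_pos a1]
          norm_num
        · rw [if_neg a0, if_neg a1, if_pos ⟨(hβ ρ₀).2 (Ne.symm a0), (hβ ρ₁).2 (Ne.symm a1)⟩]
          norm_num
    · rw [if_neg fun hp => h0 _ hp.1]
      refine Finset.sum_eq_zero fun ρ _ => ?_
      rw [if_neg (h0 ρ), mul_zero]

end Pool.Agent.Lib.MP_1a91b9_ntCC
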