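import Pool.Agent.Lib.MP_1a91b9_ntCC.DX
import Pool.Agent.Lib.MP_1a91b9_ntCC.DMix
import Pool.Agent.Lib.MP_1a91b9_ntCC.DWt
import Pool.Agent.Lib.MP_1a91b9_ntCC.DCond
import Pool.Agent.Lib.MP_1a91b9_ntCC.DDich
import Pool.Agent.Lib.MP_1a91b9_ntZ.C3Dens
import Pool.Agent.Lib.MP_1a91b9_ntN.H.GdJ

/-!
# MP_1a91b9_nt (cubic stability), part D: the fine classes
-/

set_option autoImplicit false
set_option linter.unusedSectionVars false

namespace Pool.Agent.Lib.MP_1a91b9_ntCC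

open NumberField Finset Pool.Agent.Lib.MP_1a91b9_ntT Pool.Agent.Lib.MP_1a91b9_ntK
  Pool.Agent.Lib.MP_1a91b9_ntK.Da Pool.Agent.Lib.MP_1a91b9_ntK2 Pool.Agent.Lib.MP_1a91b9_ntK2.D9
  Pool.Agent.Lib.MP_1a91b9_ntN Pool.Agent.Lib.MP_1a91b9_ntN.H Pool.Agent.Lib.MP_1a91b9_ntZ
open Pool.Agent.Lib.MP_1a91b9_ntH (PS nm Sx mem_Sx)
open Pool.Agent.Lib.MP_1a91b9_ntS3.G (G9 c9 dich3_9)

noncomputable section

/-- The type of a label: `0`: `D` is good; `1`: `D ^ 2` is good; `2`: both are good. Here `D` is the unit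
`w ^ k` times `s3 ^ j` times the primes in `S` and the squares of the primes in `T`. -/
def GdT (ty k j : Fin 3) (S T : Finset P3) : Prop :=
  (ty ≠ 1 → Gd9 k j S T) ∧ (ty ≠ 0 → Gd9 (-k) (-j) T S)

/-- The first matrix. -/
def q0 (ty k j : Fin 3) (α β : ZMod 3) : Option (ZMod 3) := if ty = 1 then r1 k j α β else r0 k j α β

/-- The second matrix. -/
def q1 (ty k j : Fin 3) (α β : ZMod 3) : Option (ZMod 3) := if ty = 0 then r0 k j α β else r1 k j α β

theorem wt_ind' (ρ₀ ρ₁ : Option (ZMod 3)) (p : Option (ZMod 3) → Prop) [∀ ρ, Decidable (p ρ)]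
    [Decidable (p ρ₀ ∧ p ρ₁)] (h : ρ₀ ≠ ρ₁ → Dich p) :
    ∑ ρ, wt ρ₀ ρ₁ ρ * (if p ρ then (1 : ℝ) else 0) = if p ρ₀ ∧ p ρ₁ then 1 else 0 := by
  have h1 := wt_ind ρ₀ ρ₁ p h
  have h2 : ∀ ρ ∈ (univ : Finset (Option (ZMod 3))), wt ρ₀ ρ₁ ρ * (if p ρ then (1 : ℝ) else 0) =
      wt ρ₀ ρ₁ ρ * (@ite ℝ (p ρ) (Classical.propDecidable (p ρ)) 1 0) := by
    intro ρ _
    by_cases h9 : p ρ
    · rw [if_pos h9, if_pos h9]
    · rw [if_neg h9, if_neg h9]
  rw [sum_congr rfl h2, h1]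
  by_cases h9 : p ρ₀ ∧ p ρ₁
  · rw [if_pos h9, if_pos h9]
  · rw [if_neg h9, if_neg h9]

theorem q_ty {ty k j : Fin 3} {α β : ZMod 3} (h : q0 ty k j α β ≠ q1 ty k j α β) : ty = 2 := by
  rcases fin3_cases ty with rfl | rfl | rfl
  · exact absurd (by rw [q0, q1, if_neg f3_01, if_pos rfl]) h
  · exact absurd (by rw [q0, q1, if_pos rfl, if_neg f3_01.symm]) h
  · rfl

theorem q_hard {ty k j : Fin 3} {α β : ZMod 3} (h : q0 ty k j α β ≠ q1 ty k j α β) :
    j ≠ 0 ∨ (j = 0 ∧ k = 0 ∧ α = 0) := by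
  have hty := q_ty h
  subst hty
  rw [q0, q1, if_neg f3_21, if_neg f3_20] at h
  by_cases hj : j = 0
  · right
    by_contra hc
    apply h
    have h1 : j ≠ 1 := fun h1 => f3_01 (hj.symm.trans h1)
    have h2 : j ≠ 2 := fun h1 => f3_20 (h1.symm.trans hj)
    rw [r0, r1, if_neg h1, if_neg h2, if_neg hc, if_neg hc]
  · exact Or.inl hj

variable {I : Type} [Fintype I] [DecidableEq I]

/-- **The sets of primes which are good for at least `t` blocks of labels with types, in a fine class.** -/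
theorem gd_fineT (n : ℕ) {N : ℕ} (_hN : 0 < N) (ty k j : I × Fin N → Fin 3)
    (P T : I × Fin N → Finset P3) {B : Finset P3}
    (hP : ∀ a, P a ⊆ B) (hT : ∀ a, T a ⊆ B) (hPT : ∀ a, Disjoint (P a) (T a))
    (hinj : Function.Injective fun a => (k a, j a, P a, T a)) (γ : Bool ⊕ B → ZMod 3) (g : G9 n)
    (t : ℕ) {w : ℝ} (hw0 : 0 ≤ w) (hw1 : w ≤ 1) (hw : ∀ a, ty a = 2 → w ≤ 2 / 3)
    {κ₀ : ℝ} (hκ : κ₀ < bn (Fintype.card I) t ((w * cinf3) ^ N)) (ε : ℝ) (hε : 0 < ε) :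
    ∃ X₀ : ℕ, ∀ X : ℕ, X₀ ≤ X →
      κ₀ * ((Cl (c9 n) g (SG (dtB d3b B) (SxT B) γ X)).card : ℝ) - ε * X ≤
        ((sgG n g B γ (fun S => Atl t fun i => ∀ l,
          GdT (ty (i, l)) (k (i, l)) (j (i, l)) (S ∪ P (i, l)) (T (i, l))) X).card : ℝ) := by
  classical
  let _ : Fintype (G9 n) := Fintype.ofFinite _
  have hB : ∀ a, P a ∪ T a ⊆ B := fun a => union_subset (hP a) (hT a)
  have hc0 := cinf3_pos
  have hc1 := cinf3_lt_one
  obtain ⟨p0, hp0⟩ : ∃ p0 : I × Fin N → Option (ZMod 3), p0 = fun a =>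
    q0 (ty a) (k a) (j a) (αO (P a) (T a) B γ) (βO (P a) (T a) B γ) := ⟨_, rfl⟩
  obtain ⟨p1, hp1⟩ : ∃ p1 : I × Fin N → Option (ZMod 3), p1 = fun a =>
    q1 (ty a) (k a) (j a) (αO (P a) (T a) B γ) (βO (P a) (T a) B γ) := ⟨_, rfl⟩
  obtain ⟨Bc, hBc⟩ : ∃ Bc : ℕ → Finset (Finset P3), Bc = fun X =>
    Cl (c9 n) g (SG (dtB d3b B) (SxT B) γ X) := ⟨_, rfl⟩
  obtain ⟨x, hx⟩ : ∃ x : I × Fin N → Option (ZMod 3) → Finset P3 → ℕ, x = fun a ρ S =>
    xo (k a) (j a) (P a) (T a) B γ ρ S := ⟨_, rfl⟩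
  have hy : ∀ f : I × Fin N → Option (ZMod 3), ∀ J : Finset (I × Fin N), J.Nonempty →
      Mn Bc (fun S => ∏ a ∈ J, if x a (f a) S = 1 then (1 : ℝ) else 0) (cinf3 ^ J.card) := by
    intro f J hJ
    have h1 := ind_sub3 (A := I × Fin N) (B := Bc)
      (x := fun a S => xP (dtB d3b B) (fun a => cO (k a) (j a) (P a) (T a) B)
        (fun a => PO (P a) (T a) B (f a)) (fun a => RO (k a) (j a) (P a) (T a) B γ (f a)) γ a S)
      (fun a S => xP_pow _ _ _ _ _ a S)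
      (by
        rw [hBc]
        exact mom_xPG (eng_dtB d3b_OK card_P3 B) (mean_dtB d3b_OK B)
          (dichJ_dtB d3b_OK card_P3 B (dich3_9 n))
          (fun a b hab => by
            obtain ⟨h1, h2, h3, h4⟩ := cJ_inj (hP a) (hT a) (hP b) (hT b) (hPT a) (hPT b) hab
            exact hinj (by
              show (k a, j a, P a, T a) = (k b, j b, P b, T b)
              rw [show k a = k b from h1, show j a = j b from h2, h3, h4]))
          (fun a => RJ_symm d3b_OK.ok.sym γ)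
          (fun a => PJ_inj (eT_mul _) (hB a) fun u u' => Subsingleton.elim _ _) γ g)
      J hJ
    rw [hx]
    exact h1
  have hmix := fun J : Finset (I × Fin N) => da_mix (B := Bc) (c := cinf3)
    (y := fun a ρ S => if x a ρ S = 1 then (1 : ℝ) else 0) hy (fun a => wt (p0 a) (p1 a)) J
  have hsum : ∀ a, w * cinf3 ≤ (∑ ρ, wt (p0 a) (p1 a) ρ) * cinf3 ∧
      (∑ ρ, wt (p0 a) (p1 a) ρ) * cinf3 ≤ 1 := by
    intro a
    rw [wt_sum]
    split_ifs with h
    · exact ⟨mul_le_mul_of_nonneg_right hw1 hc0.le, by linarith⟩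
    · have hty : ty a = 2 := q_ty (k := k a) (j := j a) (α := αO (P a) (T a) B γ)
        (β := βO (P a) (T a) B γ) (by
          rw [hp0, hp1] at h
          exact h)
      exact ⟨mul_le_mul_of_nonneg_right (hw a hty) hc0.le, by linarith⟩
  have key := Mn.lower (B := Bc)
    (F := fun i S => if ∀ l, x (i, l) (p0 (i, l)) S = 1 ∧ x (i, l) (p1 (i, l)) S = 1 then (1 : ℝ)
      else 0)
    (v := fun i => ∏ l : Fin N, (∑ ρ, wt (p0 (i, l)) (p1 (i, l)) ρ) * cinf3)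
    (P := fun i S => ∀ l, x (i, l) (p0 (i, l)) S = 1 ∧ x (i, l) (p1 (i, l)) S = 1)
    (fun i b => by split_ifs <;> norm_num) (fun i b => by split_ifs <;> norm_num)
    (fun i b h => if_neg h)
    (fun J hJ => by
      have h1 := hmix (J ×ˢ (univ : Finset (Fin N)))
      have h2 : Mn Bc (fun S => ∏ i ∈ J, ∏ l : Fin N, ∑ ρ, wt (p0 (i, l)) (p1 (i, l)) ρ *
          (if x (i, l) ρ S = 1 then (1 : ℝ) else 0))
          (∏ i ∈ J, ∏ l : Fin N, (∑ ρ, wt (p0 (i, l)) (p1 (i, l)) ρ) * cinf3) := by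
        refine h1.congr (fun X S _ => ?_) ?_
        · rw [prod_product]
        · rw [prod_product]
      refine mn_off h2 ∅ fun X S hS hne => ?_
      rw [hBc] at hS
      have hS1 := (mem_Cl.1 hS).1
      refine prod_congr rfl fun i _ => ?_
      have h3 : ∀ l : Fin N, (∑ ρ, wt (p0 (i, l)) (p1 (i, l)) ρ *
          (if x (i, l) ρ S = 1 then (1 : ℝ) else 0)) =
          if x (i, l) (p0 (i, l)) S = 1 ∧ x (i, l) (p1 (i, l)) S = 1 then 1 else 0 := by
        intro l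
        refine wt_ind' (p0 (i, l)) (p1 (i, l)) (fun ρ => x (i, l) ρ S = 1) fun hq => ?_
        have hcx := cx_of (hP (i, l)) (hT (i, l)) (hPT (i, l)) hS1 hne
        rw [hx]
        refine dich_xo hcx ?_
        rw [hp0, hp1] at hq
        exact q_hard hq
      rw [prod_congr rfl fun l _ => h3 l]
      split_ifs with h
      · exact (prod_eq_one fun l _ => if_pos (h l)).symm
      · push Not at h
        obtain ⟨l, hl⟩ := h
        exact (prod_eq_zero (mem_univ l) (if_neg fun h => hl h.1 h.2)).symm)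
    (g := (w * cinf3) ^ N) (by positivity)
    (fun i => by
      calc (w * cinf3) ^ N = ∏ _l : Fin N, (w * cinf3) := by
            rw [prod_const, card_univ, Fintype.card_fin]
        _ ≤ _ := prod_le_prod (fun _ _ => by positivity) fun l _ => (hsum (i, l)).1)
    (fun i => prod_le_one (fun l _ => le_trans (by positivity) (hsum (i, l)).1)
      fun l _ => (hsum (i, l)).2) t hκ (ε / 2) (by positivity)
  obtain ⟨X0, h0⟩ := key
  obtain ⟨X1, hX1⟩ := exists_nat_gt (2 / ε)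
  refine ⟨X0 + X1, fun X hX => ?_⟩
  have h1 := h0 X ((Nat.le_add_right _ _).trans hX)
  have h2 : (1 : ℝ) ≤ ε / 2 * X := by
    have h4 : (X1 : ℝ) ≤ X := by exact_mod_cast (Nat.le_add_left _ _).trans hX
    have h5 := hX1.le.trans h4
    rw [div_le_iff₀ hε] at h5
    linarith
  have h4 : (Bc X).filter (fun S => Atl t fun i => ∀ l,
      x (i, l) (p0 (i, l)) S = 1 ∧ x (i, l) (p1 (i, l)) S = 1) ⊆
      insert ∅ (sgG n g B γ (fun S => Atl t fun i => ∀ l,
          GdT (ty (i, l)) (k (i, l)) (j (i, l)) (S ∪ P (i, l)) (T (i, l))) X) := by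
    intro S hS'
    rw [mem_filter] at hS'
    rw [mem_insert, mem_sgG]
    by_cases h : S = ∅
    · exact Or.inl h
    · rw [hBc] at hS'
      refine Or.inr ⟨hS'.1, hS'.2.mono fun i hi l => ?_⟩
      have hS1 := (mem_Cl.1 hS'.1).1
      have hcx := cx_of (hP (i, l)) (hT (i, l)) (hPT (i, l)) hS1 h
      obtain ⟨h5, h6⟩ := hi l
      rw [hx, hp0] at h5
      rw [hx, hp1] at h6
      refine ⟨fun h7 => gd_x0 hcx ?_, fun h7 => gd_x1 hcx ?_⟩
      · simp only [q0, if_neg h7] at h5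
        exact h5
      · simp only [q1, if_neg h7] at h6
        exact h6
  have h5 := (card_le_card h4).trans (card_insert_le _ _)
  have h6 : (((Bc X).filter (fun S => Atl t fun i => ∀ l,
      x (i, l) (p0 (i, l)) S = 1 ∧ x (i, l) (p1 (i, l)) S = 1)).card : ℝ) ≤
      ((sgG n g B γ (fun S => Atl t fun i => ∀ l,
          GdT (ty (i, l)) (k (i, l)) (j (i, l)) (S ∪ P (i, l)) (T (i, l))) X).card : ℝ) + 1 := by
    exact_mod_cast h5
  rw [hBc] at h1 h6
  linarith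

end

end Pool.Agent.Lib.MP_1a91b9_ntCC
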