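import Pool.Agent.Lib.MP_1a91b9_ntN.H.Den
import Pool.Agent.Lib.MP_1a91b9_ntZ.C3Den
import Pool.Agent.Lib.MP_1a91b9_ntCC.DFine

/-!
# MP_1a91b9_nt (cubic stability), part D: the density of the cube-free `D` for which all the labels with types of at
least `t` blocks are good
-/

set_option autoImplicit false

namespace Pool.Agent.Lib.MP_1a91b9_ntCC

open NumberField Finset Pool.Agent.Lib.MP_1a91b9_ntT Pool.Agent.Lib.MP_1a91b9_ntK
  Pool.Agent.Lib.MP_1a91b9_ntK.Da Pool.Agent.Lib.MP_1a91b9_ntK2 Pool.Agent.Lib.MP_1a91b9_ntK2.D9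
  Pool.Agent.Lib.MP_1a91b9_ntZ Pool.Agent.Lib.MP_1a91b9_ntN Pool.Agent.Lib.MP_1a91b9_ntN.H
open Pool.Agent.Lib.MP_1a91b9_ntH (wO s3 Nz Sx prime_s3)
open Pool.Agent.Lib.MP_1a91b9_ntS3.G (G9 c9 Q9 toI IdG density_allG hR_cls exists_cfG_class cl3_sP
  cn3_sP)

noncomputable section

/-- The element `x` of type `0`, `1`, `2`: `x` is good, `x ^ 2` is good, both are good (up to cubes). -/
def GdET (ty : Fin 3) (x : 𝓞 K) : Prop := (ty ≠ 1 → GdE x) ∧ (ty ≠ 0 → GdE (x ^ 2))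

open Classical in
/-- The joint density of the sets of primes which are good for at least `t` blocks of labels. -/
def DSJT (n : ℕ) : Prop := ∀ (I : Type) [Fintype I] [DecidableEq I] (N : ℕ), 0 < N →
  ∀ (ty k j : I × Fin N → Fin 3) (P T : I × Fin N → Finset P3)
  (B : Finset P3), (∀ i, P i ⊆ B) → (∀ i, T i ⊆ B) → (∀ i, Disjoint (P i) (T i)) →
  Function.Injective (fun i => (k i, j i, P i, T i)) → ∀ (g : G9 n) (t : ℕ) (w : ℝ), 0 ≤ w → w ≤ 1 →
  (∀ a, ty a = 2 → w ≤ 2 / 3) → ∀ (κ₀ : ℝ),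
  κ₀ < bn (Fintype.card I) t ((w * Da.cinf3) ^ N) → ∀ ε : ℝ, 0 < ε → ∃ X₀ : ℕ, ∀ X : ℕ, X₀ ≤ X →
    κ₀ * (((Sx P3 X).filter fun S => Disjoint S B ∧ ∑ q ∈ S, c9 n q = g).card : ℝ) - ε * X ≤
    (((Sx P3 X).filter fun S => Disjoint S B ∧ ∑ q ∈ S, c9 n q = g ∧ Atl t fun i => ∀ l,
      GdT (ty (i, l)) (k (i, l)) (j (i, l)) (S ∪ P (i, l)) (T (i, l))).card : ℝ)

/-- **At least `t` blocks, in the classes modulo a power of three.** -/
theorem dsjT (n : ℕ) : DSJT n := by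
  classical
  intro I _ _ N hN ty k j P T B hP hT hPT hinj g t w hw0 hw1 hw κ₀ hκ ε hε
  have hM : (0 : ℝ) < Fintype.card (Bool ⊕ B → ZMod 3) := by exact_mod_cast Fintype.card_pos
  choose X0 h0 using fun γ : Bool ⊕ B → ZMod 3 =>
    gd_fineT n hN ty k j P T hP hT hPT hinj γ g t hw0 hw1 hw hκ
      (ε / Fintype.card (Bool ⊕ B → ZMod 3)) (by positivity)
  refine ⟨∑ γ, X0 γ, fun X hX => ?_⟩
  have hXt : ∀ γ, X0 γ ≤ X := fun γ =>
    (single_le_sum (fun _ _ => Nat.zero_le _) (mem_univ γ)).trans hX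
  have e1 : ((Sx P3 X).filter fun S => Disjoint S B ∧ ∑ q ∈ S, c9 n q = g) =
      clG n g B (fun _ => True) X := by
    ext S
    rw [mem_filter, mem_clG, mem_SxT]
    tauto
  have e2 : ((Sx P3 X).filter fun S => Disjoint S B ∧ ∑ q ∈ S, c9 n q = g ∧ Atl t fun i => ∀ l,
      GdT (ty (i, l)) (k (i, l)) (j (i, l)) (S ∪ P (i, l)) (T (i, l))) =
      clG n g B (fun S => Atl t fun i => ∀ l,
        GdT (ty (i, l)) (k (i, l)) (j (i, l)) (S ∪ P (i, l)) (T (i, l))) X := by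
    ext S
    rw [mem_filter, mem_clG, mem_SxT]
    tauto
  have e3 : ((clG n g B (fun _ => True) X).card : ℝ) =
      ∑ γ : Bool ⊕ B → ZMod 3, ((Cl (c9 n) g (SG (dtB d3b B) (SxT B) γ X)).card : ℝ) := by
    rw [card_fineG, Nat.cast_sum]
    refine sum_congr rfl fun γ _ => ?_
    congr 2
    ext S
    rw [mem_sgG]
    exact ⟨fun h => h.1, fun h => ⟨h, trivial⟩⟩
  rw [e1, e2, e3, card_fineG, Nat.cast_sum, mul_sum]
  have h1 : ∑ γ : Bool ⊕ B → ZMod 3, (κ₀ * ((Cl (c9 n) g (SG (dtB d3b B) (SxT B) γ X)).card : ℝ) -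
      ε / Fintype.card (Bool ⊕ B → ZMod 3) * X) ≤
      ∑ γ : Bool ⊕ B → ZMod 3,
        ((sgG n g B γ (fun S => Atl t fun i => ∀ l,
          GdT (ty (i, l)) (k (i, l)) (j (i, l)) (S ∪ P (i, l)) (T (i, l))) X).card : ℝ) :=
    sum_le_sum fun γ _ => h0 γ X (hXt γ)
  rw [sum_sub_distrib, sum_const, nsmul_eq_mul, card_univ] at h1
  have h2 : (Fintype.card (Bool ⊕ B → ZMod 3) : ℝ) *
      (ε / Fintype.card (Bool ⊕ B → ZMod 3) * X) = ε * X := by field_simp
  linarith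


theorem dsc_ofT {n : ℕ} {I : Type} [Fintype I] [DecidableEq I] {N : ℕ} (hN : 0 < N)
    (ty k j : I × Fin N → Fin 3) (P T : I × Fin N → Finset P3)
    (B : Finset P3) (hP : ∀ i, P i ⊆ B) (hT : ∀ i, T i ⊆ B) (hd : ∀ i, Disjoint (P i) (T i))
    (hinj : Function.Injective (fun i => (k i, j i, P i, T i))) (g : G9 n) (t : ℕ)
    {w : ℝ} (hw0 : 0 ≤ w) (hw1 : w ≤ 1) (hw : ∀ a, ty a = 2 → w ≤ 2 / 3) {κ₀ : ℝ}
    (hκ : κ₀ < bn (Fintype.card I) t ((w * Da.cinf3) ^ N)) : DSC B g κ₀ fun S => Atl t fun i => ∀ l,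
      GdT (ty (i, l)) (k (i, l)) (j (i, l)) (S ∪ P (i, l)) (T (i, l)) := by
  classical
  intro ε hε
  obtain ⟨X₀, h0⟩ := dsjT n I N hN ty k j P T B hP hT hd hinj g t w hw0 hw1 hw κ₀ hκ ε hε
  refine ⟨X₀, fun X hX => (h0 X hX).trans (le_of_eq ?_)⟩
  congr 2


/-- the square of a good element -/
theorem gdET_of {ty k j : Fin 3} {b : Bool} {S T : Finset P3} {s x : 𝓞 K} (hd : Disjoint S T)
    (hs : s ≠ 0) (hx : x = pf b k j (DD3 S * DD3 T ^ 2) * s ^ 3) (hG : GdT ty k j S T) :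
    GdET ty x := by
  refine ⟨fun h => ⟨b, k, j, S, T, s, hd, hs, hx, hG.1 h⟩, fun h => ?_⟩
  have hT0 : DD3 T ≠ 0 := by
    rw [DD3]
    exact prod_ne_zero_iff.2 fun q _ => q.2.1.ne_zero
  obtain ⟨t, ht, h1⟩ := pf_mul b b k k j j (y := DD3 S * DD3 T ^ 2) (y' := DD3 S * DD3 T ^ 2)
    (y'' := DD3 T * DD3 S ^ 2) hT0 (by ring)
  have hk : ∀ k : Fin 3, k + k = -k := by decide
  rw [hk k, hk j] at h1
  refine ⟨b, -k, -j, T, S, t * s ^ 2, hd.symm, mul_ne_zero ht (pow_ne_zero 2 hs), ?_, hG.2 h⟩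
  rw [hx]
  linear_combination (s ^ 3) ^ 2 * h1

/-- **The density** of the cube-free `D` for which all the elements `a (i, l) * D` with types of at least `t`
blocks are good. Adaptation of `ntZ/C3Gd` (`dsjGb`), `ntZ/C3Den` (`dsc_ofb`, `den_allGb`) with `gd_fineT` in place
of `gd_fineGb`, `GdT` in place of `Gd9`, `GdET` in place of `GdE`. New: if `x = pf b k j (DD3 S * DD3 T ^ 2) * s ^ 3`
then `x ^ 2 = pf b' (-k) (-j) (DD3 T * DD3 S ^ 2) * s' ^ 3`: `x ^ 2` contains `w ^ (2 k) s3 ^ (2 j) DD3 S ^ 2 DD3 T ^ 4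
= w ^ (2 k) s3 ^ (2 j) (DD3 T * DD3 S ^ 2) DD3 T ^ 3`, and `2 k`, `2 j` are congruent to the representatives of
`-k`, `-j` modulo `3` (`s3 ^ 3` is a cube, `w ^ 3 = 1`, `-1` is a cube). -/
theorem den_allT {n : ℕ} {I : Type} [Fintype I] [DecidableEq I] {N : ℕ} (hN : 0 < N)
    (ty : I × Fin N → Fin 3) (a : I × Fin N → 𝓞 K) (hne : ∀ l, a l ≠ 0)
    (hdis : ∀ l l', l ≠ l' → ¬ ∃ y : K, y ^ 3 * (a l' : K) = a l)
    {w : ℝ} (hw0 : 0 ≤ w) (hw1 : w ≤ 1) (hw : ∀ l, ty l = 2 → w ≤ 2 / 3)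
    {m u : 𝓞 K} (hm : m ∣ Q9 n) (hu : ¬ (s3 ^ 3 ∣ m ∧ s3 ^ 3 ∣ u)) (t : ℕ)
    (Pr : 𝓞 K → Prop)
    (hPr : ∀ D : 𝓞 K, CF D → (Atl t fun i => ∀ l : Fin N, GdET (ty (i, l)) (a (i, l) * D)) → Pr D)
    (ε : ℝ) (hε : 0 < ε) :
    ∀ᶠ X : ℝ in Filter.atTop,
      bn (Fintype.card I) t ((w * ∏' i : ℕ, (1 + 1 / (3 : ℝ) ^ (i + 1))⁻¹) ^ N) - ε ≤
      (Nat.card {x : 𝓞 K // (∀ p, Prime p → ¬ p ^ 3 ∣ x) ∧ m ∣ x - u ∧ |Algebra.norm ℤ x| ≤ X ∧
          Pr x} : ℝ) /
        (Nat.card {x : 𝓞 K // (∀ p, Prime p → ¬ p ^ 3 ∣ x) ∧ m ∣ x - u ∧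
          |Algebra.norm ℤ x| ≤ X} : ℝ) := by
  classical
  rw [cinf3_form]
  obtain ⟨v, hv⟩ : ∃ v, v = bn (Fintype.card I) t ((w * Da.cinf3) ^ N) := ⟨_, rfl⟩
  rw [← hv]
  rcases le_or_gt (v - ε) 0 with hv0 | hv0
  · exact Filter.Eventually.of_forall fun X => hv0.trans (by positivity)
  have h1 : ∀ i, ∃ (b : Bool) (k j : Fin 3) (P V : Finset P3) (s : 𝓞 K), Disjoint P V ∧ s ≠ 0 ∧
      a i = pf b k j (DD3 P * DD3 V ^ 2) * s ^ 3 :=
    fun i => exists_sf (a i) (hne i)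
  choose bb kk jk P V s hPV hs hT using h1
  obtain ⟨B₀, hB₀⟩ : ∃ B : Finset P3, B = univ.biUnion fun i => P i ∪ V i := ⟨_, rfl⟩
  have hPB : ∀ i, P i ⊆ B₀ := fun i => by
    rw [hB₀]
    exact subset_union_left.trans (subset_biUnion_of_mem (fun i => P i ∪ V i) (mem_univ i))
  have hVB : ∀ i, V i ⊆ B₀ := fun i => by
    rw [hB₀]
    exact subset_union_right.trans (subset_biUnion_of_mem (fun i => P i ∪ V i) (mem_univ i))
  have hinj : ∀ i i', kk i = kk i' → jk i = jk i' → P i = P i' → V i = V i' → i = i' := by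
    intro i i' e1 e2 e3 e4
    by_contra hii
    apply hdis i i' hii
    obtain ⟨t, ht, h2⟩ := pf_sgn (bb i) (bb i') (kk i) (jk i) (DD3 (P i) * DD3 (V i) ^ 2)
    have hs0 : ((s i' : 𝓞 K) : K) ≠ 0 := by exact_mod_cast hs i'
    refine ⟨((t * s i : 𝓞 K) : K) / ((s i' : 𝓞 K) : K), ?_⟩
    have h3 : (t * s i) ^ 3 * a i' = a i * (s i') ^ 3 := by
      rw [hT i, hT i', ← e1, ← e2, ← e3, ← e4, h2]
      ring
    have h4 : ((t * s i : 𝓞 K) : K) ^ 3 * ((a i' : 𝓞 K) : K) =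
        ((a i : 𝓞 K) : K) * ((s i' : 𝓞 K) : K) ^ 3 := by exact_mod_cast h3
    rw [div_pow, div_mul_eq_mul_div, h4, mul_div_assoc, div_self (pow_ne_zero 3 hs0), mul_one]
  obtain ⟨κ, hκ1, hκ2⟩ : ∃ κ : ℝ, v - ε < κ ∧ κ < v := exists_between (by linarith)
  have key := density_allG n (fun x => m ∣ x - u) (fun i y y' _ _ h9 => hR_cls hm i y y' h9)
    (exists_cfG_class hm hu) κ (v - ε) (hv0.le.trans hκ1.le) hκ1
    (fun i S T => Atl t fun i' => ∀ l : Fin N,
      GdET (ty (i', l)) (a (i', l) * ph (toI i) (DD3 S * DD3 T ^ 2)))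
    (fun i T η hη => ?_) Pr (fun i S T hST hs1 hG => ?_)
  · filter_upwards [key] with X hX
    simp only [CF_iff] at hX
    exact hX
  · have h9 : ∀ g : G9 n, DSC T g κ fun S => Atl t fun i' => ∀ l : Fin N,
        GdET (ty (i', l)) (a (i', l) * ph (toI i) (DD3 S * DD3 T ^ 2)) := by
      intro g
      have hTB : T ⊆ B₀ ∪ T := subset_union_right
      refine DS_of_DSC hTB g fun B' hB' g' => ?_
      have hB'T : Disjoint B' T := disjoint_of_subset_left hB' sdiff_disjoint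
      rw [hv] at hκ2
      refine (dsc_ofT hN ty (fun l => i.2.1 + kk l) (fun l => i.2.2.1 + jk l)
        (fun l => (B₀ ∪ T).filter fun q => ez B' T q + ez (P l) (V l) q = 1)
        (fun l => (B₀ ∪ T).filter fun q => ez B' T q + ez (P l) (V l) q = 2) (B₀ ∪ T)
        (fun l => filter_subset _ _) (fun l => filter_subset _ _) (fun l => ?_) (fun l l' h => ?_)
        g' t hw0 hw1 hw hκ2).mono ?_
      · rw [disjoint_filter]
        intro q _ h1 h2
        rw [h1] at h2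
        exact absurd h2 (by decide)
      · simp only [Prod.mk.injEq] at h
        obtain ⟨e1, e2, e3, e4⟩ := h
        have e5 : ∀ q ∈ B₀ ∪ T, ez (P l) (V l) q = ez (P l') (V l') q := by
          intro q hq
          have h1 : ez B' T q + ez (P l) (V l) q = ez B' T q + ez (P l') (V l') q := by
            refine z3_ext ?_ ?_
            · have h2 := Finset.ext_iff.1 e3 q
              simp only [mem_filter, hq, true_and] at h2
              exact h2
            · have h2 := Finset.ext_iff.1 e4 q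
              simp only [mem_filter, hq, true_and] at h2
              exact h2
          exact add_left_cancel h1
        refine hinj l l' (add_left_cancel e1) (add_left_cancel e2) ?_ ?_
        · ext q
          constructor
          · intro h1
            have h2 := e5 q (mem_union_left _ (hPB l h1))
            rw [ez_eq_one.2 h1] at h2
            exact ez_eq_one.1 h2.symm
          · intro h1
            have h2 := e5 q (mem_union_left _ (hPB l' h1))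
            rw [ez_eq_one.2 h1] at h2
            exact ez_eq_one.1 h2
        · ext q
          constructor
          · intro h1
            have h2 := e5 q (mem_union_left _ (hVB l h1))
            rw [(ez_eq_two (hPV l)).2 h1] at h2
            exact (ez_eq_two (hPV l')).1 h2.symm
          · intro h1
            have h2 := e5 q (mem_union_left _ (hVB l' h1))
            rw [(ez_eq_two (hPV l')).2 h1] at h2
            exact (ez_eq_two (hPV l)).1 h2
      · intro S hS _ hG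
        refine hG.mono fun i' hi' l' => ?_
        obtain ⟨l, hl⟩ : ∃ l : I × Fin N, l = (i', l') := ⟨_, rfl⟩
        have hG' := hi' l'
        rw [← hl] at hG' ⊢
        obtain ⟨t₀, ht₀, h2⟩ := pair_mul hTB hB' ((hPB l).trans subset_union_left)
          ((hVB l).trans subset_union_left) (hPV l) hS
        obtain ⟨t, ht, h3⟩ := pf_mul i.1 (bb l) i.2.1 (kk l) i.2.2.1 (jk l) ht₀ h2
        refine gdET_of (b := i.1) (s := t * s l) ?_ (mul_ne_zero ht (hs l)) ?_ hG'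
        · rw [disjoint_union_left]
          refine ⟨disjoint_of_subset_right (filter_subset _ _) hS, ?_⟩
          rw [disjoint_filter]
          intro q _ h4 h5
          rw [h4] at h5
          exact absurd h5 (by decide)
        · rw [show ph (toI i) (DD3 (B' ∪ S) * DD3 T ^ 2) =
            pf i.1 i.2.1 i.2.2.1 (DD3 (B' ∪ S) * DD3 T ^ 2) from rfl, hT l]
          linear_combination (s l) ^ 3 * h3
    exact fam_of_DSC (T := T) (g := i.2.2.2) (κ₀ := κ) (Q := fun S => Atl t fun i' => ∀ l : Fin N,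
        GdET (ty (i', l)) (a (i', l) * ph (toI i) (DD3 S * DD3 T ^ 2))) h9 η hη
  · have hα : cl3 (DD3 S * DD3 T ^ 2) = (toI i).2.2.2.1 := by
      rw [cl3_sP (n := n), hs1]
      rfl
    have hβ : cn3 (DD3 S * DD3 T ^ 2) = (toI i).2.2.2.2 := by
      rw [cn3_sP (n := n), hs1]
      rfl
    exact hPr _ (ph_cf ⟨prm3.pp_cf hST, in3_pair S T, hα, hβ⟩) hG


end

end Pool.Agent.Lib.MP_1a91b9_ntCC
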