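import Pool.Agent.Lib.MP_1a91b9_ntN.F.Cls

/-!
# MP_1a91b9_nt (cubic stability), part D: the list of a multicubic extension contains all the classes
-/

set_option autoImplicit false

namespace Pool.Agent.Lib.MP_1a91b9_ntCC

open NumberField Pool.Agent.Lib.MP_1a91b9_ntT Pool.Agent.Lib.MP_1a91b9_ntN

/-- the sum of the third roots of unity -/
private theorem DFull_sum {F : Type} [Field F] {ζ : F} (hζ : IsPrimitiveRoot ζ 3) :
    ζ ^ 2 + ζ + 1 = 0 := by
  have h := hζ.geom_sum_eq_zero (by norm_num)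
  rw [Finset.sum_range_succ, Finset.sum_range_succ, Finset.sum_range_one, pow_zero, pow_one] at h
  linear_combination h

/-- a cube root of an element of `F` which is not in `F` is not of degree `2` -/
private theorem DFull_indep {N N' : Type} [Field N] [Field N'] [Algebra N N'] {ζ : N}
    (hζ : ζ ^ 2 + ζ + 1 = 0) {x : N'}
    {a : N} (hx : x ^ 3 = algebraMap N N' a) (hn : ¬ ∃ y : N, algebraMap N N' y = x)
    {b c d : N} (h : algebraMap N N' b + algebraMap N N' c * x + algebraMap N N' d * x ^ 2 = 0) :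
    b = 0 ∧ c = 0 ∧ d = 0 := by
  -- the linear case
  have lin : ∀ b c : N, algebraMap N N' b + algebraMap N N' c * x = 0 → b = 0 ∧ c = 0 := by
    intro b c h
    by_cases hc : c = 0
    · rw [hc, map_zero, zero_mul, add_zero] at h
      exact ⟨(map_eq_zero _).mp h, hc⟩
    · exfalso
      apply hn
      have hc' : algebraMap N N' c ≠ 0 := fun h0 => hc ((map_eq_zero _).mp h0)
      refine ⟨-b / c, ?_⟩
      rw [map_div₀, map_neg, div_eq_iff hc']
      linear_combination -h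
  by_cases hd : d = 0
  · rw [hd, map_zero, zero_mul, add_zero] at h
    obtain ⟨h1, h2⟩ := lin b c h
    exact ⟨h1, h2, hd⟩
  · exfalso
    have hd' : algebraMap N N' d ≠ 0 := fun h0 => hd ((map_eq_zero _).mp h0)
    obtain ⟨p, hp⟩ : ∃ p : N, p = -c / d := ⟨_, rfl⟩
    obtain ⟨q, hq⟩ : ∃ q : N, q = -b / d := ⟨_, rfl⟩
    have hp' : algebraMap N N' p * algebraMap N N' d = -algebraMap N N' c := by
      rw [← map_mul, ← map_neg, hp, div_mul_cancel₀ _ hd]
    have hq' : algebraMap N N' q * algebraMap N N' d = -algebraMap N N' b := by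
      rw [← map_mul, ← map_neg, hq, div_mul_cancel₀ _ hd]
    have h2 : x ^ 2 = algebraMap N N' p * x + algebraMap N N' q := by
      apply mul_right_cancel₀ hd'
      linear_combination h - x * hp' - hq'
    have h3 : algebraMap N N' (p * q - a) + algebraMap N N' (p ^ 2 + q) * x = 0 := by
      simp only [map_sub, map_add, map_mul, map_pow]
      linear_combination -(x + algebraMap N N' p) * h2 + hx
    obtain ⟨h4, h5⟩ := lin _ _ h3
    have hω' := congrArg (algebraMap N N') hζ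
    simp only [map_add, map_pow, map_one, map_zero] at hω'
    have h6 : algebraMap N N' q = -algebraMap N N' p ^ 2 := by
      have h7 : q = -p ^ 2 := by linear_combination h5
      rw [h7, map_neg, map_pow]
    have h7 : (x + algebraMap N N' (ζ * p)) * (x + algebraMap N N' (ζ ^ 2 * p)) = 0 := by
      simp only [map_mul, map_pow]
      rw [h6] at h2
      linear_combination h2 + (algebraMap N N' p * x +
        (algebraMap N N' ζ - 1) * algebraMap N N' p ^ 2) * hω'
    rcases mul_eq_zero.1 h7 with h8 | h8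
    · exact hn ⟨-(ζ * p), by rw [map_neg]; linear_combination -h8⟩
    · exact hn ⟨-(ζ ^ 2 * p), by rw [map_neg]; linear_combination -h8⟩

/-- Kummer theory for one step: if `c` in `F` is a cube in `F' = F(x)`, `x ^ 3 = a`, then `c` is `1`, `a` or `a ^ 2`
times a cube of `F`. (`F` contains a primitive third root of unity `ζ`; let `y ^ 3 = c` and write
`y = b₀ + b₁ x + b₂ x ^ 2`. The automorphism `σ` of `F' / F` with `σ x = ζ x` satisfies `(σ y / y) ^ 3 = 1`, so
`σ y = ζ ^ i y`, and comparison of the coefficients gives `y = b_i x ^ i`, `c = b_i ^ 3 a ^ i`. `1, x, x ^ 2` are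
independent over `F` because `x` is not in `F`: `X ^ 3 - a` is irreducible. Without `σ`: compare the coefficients of
`y ^ 3 = c` in the basis `1, x, x ^ 2`: `b₀ ^ 2 b₁ + ... = 0`.) -/
theorem full_step {F F' : Type} [Field F] [NumberField F] [Field F'] [NumberField F'] [Algebra F F']
    {ζ : F} (hζ : IsPrimitiveRoot ζ 3) {a : F} {x : F'} (hx : x ^ 3 = algebraMap F F' a)
    (hn : ¬ ∃ y : F, algebraMap F F' y = x)
    (hgen : ∀ z : F', ∃ b c d : F, z = algebraMap F F' b + algebraMap F F' c * x +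
      algebraMap F F' d * x ^ 2) {c : F} (hc : c ≠ 0) {y : F'} (hy : y ^ 3 = algebraMap F F' c) :
    ∃ z : F, c = z ^ 3 ∨ c = a * z ^ 3 ∨ c = a ^ 2 * z ^ 3 := by
  have hs := DFull_sum hζ
  have hζ1 : ζ - 1 ≠ 0 := sub_ne_zero.2 (hζ.ne_one (by norm_num))
  have hζ0 : ζ ≠ 0 := hζ.ne_zero (by norm_num)
  have hζ3 : ζ ^ 3 = 1 := hζ.pow_eq_one
  -- the cube of an element
  have hexp : ∀ b₀ b₁ b₂ : F, (algebraMap F F' b₀ + algebraMap F F' b₁ * x +
      algebraMap F F' b₂ * x ^ 2) ^ 3 =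
      algebraMap F F' (b₀ ^ 3 + a * b₁ ^ 3 + a ^ 2 * b₂ ^ 3 + 6 * a * b₀ * b₁ * b₂) +
      algebraMap F F' (3 * (b₀ ^ 2 * b₁ + a * b₁ ^ 2 * b₂ + a * b₀ * b₂ ^ 2)) * x +
      algebraMap F F' (3 * (b₀ ^ 2 * b₂ + b₀ * b₁ ^ 2 + a * b₁ * b₂ ^ 2)) * x ^ 2 := by
    intro b₀ b₁ b₂
    simp only [map_add, map_mul, map_pow, map_ofNat]
    linear_combination (algebraMap F F' b₁ ^ 3 +
      6 * algebraMap F F' b₀ * algebraMap F F' b₁ * algebraMap F F' b₂ +
      3 * algebraMap F F' b₁ ^ 2 * algebraMap F F' b₂ * x +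
      3 * algebraMap F F' b₀ * algebraMap F F' b₂ ^ 2 * x +
      3 * algebraMap F F' b₁ * algebraMap F F' b₂ ^ 2 * x ^ 2 +
      algebraMap F F' b₂ ^ 3 * (x ^ 3 + algebraMap F F' a)) * hx
  obtain ⟨b₀, b₁, b₂, hb⟩ := hgen y
  -- the coefficients of the cube
  have hcoef : b₀ ^ 3 + a * b₁ ^ 3 + a ^ 2 * b₂ ^ 3 + 6 * a * b₀ * b₁ * b₂ - c = 0 ∧
      3 * (b₀ ^ 2 * b₁ + a * b₁ ^ 2 * b₂ + a * b₀ * b₂ ^ 2) = 0 ∧
      3 * (b₀ ^ 2 * b₂ + b₀ * b₁ ^ 2 + a * b₁ * b₂ ^ 2) = 0 := by
    refine DFull_indep hs hx hn ?_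
    have h := hexp b₀ b₁ b₂
    rw [← hb, hy] at h
    rw [map_sub]
    linear_combination -h
  obtain ⟨e0, e1, e2⟩ := hcoef
  -- the conjugate
  obtain ⟨y', hy'⟩ : ∃ y' : F', y' = algebraMap F F' b₀ + algebraMap F F' (ζ * b₁) * x +
      algebraMap F F' (ζ ^ 2 * b₂) * x ^ 2 := ⟨_, rfl⟩
  have hy'3 : y' ^ 3 = y ^ 3 := by
    rw [hy', hexp, hy]
    have f0 : b₀ ^ 3 + a * (ζ * b₁) ^ 3 + a ^ 2 * (ζ ^ 2 * b₂) ^ 3 +
        6 * a * b₀ * (ζ * b₁) * (ζ ^ 2 * b₂) = c := by
      linear_combination e0 + (a * b₁ ^ 3 + a ^ 2 * b₂ ^ 3 * (ζ ^ 3 + 1) +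
        6 * a * b₀ * b₁ * b₂) * hζ3
    have f1 : 3 * (b₀ ^ 2 * (ζ * b₁) + a * (ζ * b₁) ^ 2 * (ζ ^ 2 * b₂) +
        a * b₀ * (ζ ^ 2 * b₂) ^ 2) = 0 := by
      linear_combination ζ * e1 + 3 * ζ * (a * b₁ ^ 2 * b₂ + a * b₀ * b₂ ^ 2) * hζ3
    have f2 : 3 * (b₀ ^ 2 * (ζ ^ 2 * b₂) + b₀ * (ζ * b₁) ^ 2 +
        a * (ζ * b₁) * (ζ ^ 2 * b₂) ^ 2) = 0 := by
      linear_combination ζ ^ 2 * e2 + 3 * ζ ^ 2 * (a * b₁ * b₂ ^ 2) * hζ3
    rw [f0, f1, f2, map_zero, zero_mul, add_zero, zero_mul, add_zero]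
  -- the quotient is a third root of unity
  have hcase : ∃ ω : F, (ω = 1 ∨ ω = ζ ∨ ω = ζ ^ 2) ∧ y' = algebraMap F F' ω * y := by
    have hs' := congrArg (algebraMap F F') hs
    simp only [map_add, map_pow, map_one, map_zero] at hs'
    have h3 : (y' - y) * ((y' - algebraMap F F' ζ * y) * (y' - algebraMap F F' (ζ ^ 2) * y)) =
        0 := by
      rw [map_pow]
      linear_combination hy'3 + (y' - y) * ((algebraMap F F' ζ - 1) * y ^ 2 - y' * y) * hs'
    rcases mul_eq_zero.1 h3 with h4 | h4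
    · exact ⟨1, Or.inl rfl, by rw [map_one, one_mul]; exact sub_eq_zero.1 h4⟩
    · rcases mul_eq_zero.1 h4 with h5 | h5
      · exact ⟨ζ, Or.inr (Or.inl rfl), sub_eq_zero.1 h5⟩
      · exact ⟨ζ ^ 2, Or.inr (Or.inr rfl), sub_eq_zero.1 h5⟩
  obtain ⟨ω, hω, hyω⟩ := hcase
  have hcmp : b₀ - ω * b₀ = 0 ∧ ζ * b₁ - ω * b₁ = 0 ∧ ζ ^ 2 * b₂ - ω * b₂ = 0 := by
    refine DFull_indep hs hx hn ?_
    rw [hy', hb] at hyω
    simp only [map_sub, map_mul] at hyω ⊢
    linear_combination hyω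
  obtain ⟨g0, g1, g2⟩ := hcmp
  have h2 : ζ ^ 2 - 1 ≠ 0 := by
    intro h
    have h4 : (ζ - 1) * (ζ + 1) = 0 := by linear_combination h
    rcases mul_eq_zero.1 h4 with h5 | h5
    · exact hζ1 h5
    · have h6 : ζ = -1 := by linear_combination h5
      rw [h6] at hs
      norm_num at hs
  have h3 : ζ ^ 2 - ζ ≠ 0 := by
    intro h
    have h4 : ζ * (ζ - 1) = 0 := by linear_combination h
    exact (mul_ne_zero hζ0 hζ1) h4
  rcases hω with rfl | rfl | rfl
  · -- `y` is in `F`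
    have k1 : b₁ = 0 := by
      have : (ζ - 1) * b₁ = 0 := by linear_combination g1
      exact (mul_eq_zero.1 this).resolve_left hζ1
    have k2 : b₂ = 0 := by
      have : (ζ ^ 2 - 1) * b₂ = 0 := by linear_combination g2
      exact (mul_eq_zero.1 this).resolve_left h2
    refine ⟨b₀, Or.inl ?_⟩
    rw [k1, k2] at e0
    linear_combination -e0
  · have k0 : b₀ = 0 := by
      have : (ω - 1) * b₀ = 0 := by linear_combination -g0
      exact (mul_eq_zero.1 this).resolve_left hζ1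
    have k2 : b₂ = 0 := by
      have : (ω ^ 2 - ω) * b₂ = 0 := by linear_combination g2
      exact (mul_eq_zero.1 this).resolve_left h3
    refine ⟨b₁, Or.inr (Or.inl ?_)⟩
    rw [k0, k2] at e0
    linear_combination -e0
  · have k0 : b₀ = 0 := by
      have : (ζ ^ 2 - 1) * b₀ = 0 := by linear_combination -g0
      exact (mul_eq_zero.1 this).resolve_left h2
    have k1 : b₁ = 0 := by
      have : (ζ ^ 2 - ζ) * b₁ = 0 := by linear_combination -g1
      exact (mul_eq_zero.1 this).resolve_left h3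
    refine ⟨b₂, Or.inr (Or.inr ?_)⟩
    rw [k0, k1] at e0
    linear_combination -e0

/-- **The list `A` of a multicubic extension contains all the classes of cubes.** Induction on `MCT` with
`full_step` (`om` in `F` is a primitive third root of unity; see `ntN/F/Chain3`). -/
theorem mct_full {F : Type} [Field F] [NumberField F] [Algebra K F] {A : List (𝓞 K)} (h : MCT F A) :
    ∀ c : K, c ≠ 0 → (∃ y : F, y ^ 3 = algebraMap K F c) → ∃ b ∈ A, ∃ z : K, c = (b : K) * z ^ 3 := by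
  induction h with
  | base F hb =>
    rintro c hc ⟨y, hy⟩
    obtain ⟨z, rfl⟩ := hb.2 y
    refine ⟨1, List.mem_singleton_self 1, z, ?_⟩
    apply hb.1
    rw [← hy, map_mul, map_pow]
    simp
  | step F F' A a x hx hn hgen h ih =>
    rintro c hc ⟨y, hy⟩
    have ha : a ≠ 0 := by
      rintro rfl
      have h1 : x ^ 3 = 0 := hx.trans (map_zero (algebraMap K F'))
      exact hn ⟨0, by rw [map_zero, (pow_eq_zero_iff three_ne_zero).1 h1]⟩
    have haK : (a : K) ≠ 0 := by exact_mod_cast ha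
    have haF : algebraMap K F (a : K) ≠ 0 := by rwa [map_ne_zero]
    have hal : ∀ y : K, algebraMap K F' y = algebraMap F F' (algebraMap K F y) :=
      fun y => IsScalarTower.algebraMap_apply K F F' y
    have hζ : IsPrimitiveRoot (algebraMap K F om) 3 :=
      (IsCyclotomicExtension.zeta_spec 3 ℚ K).map_of_injective (algebraMap K F).injective
    obtain ⟨z, hz⟩ := full_step hζ (a := algebraMap K F (a : K)) (by rw [hx, hal]) hn hgen
      (c := algebraMap K F c) (by rwa [map_ne_zero]) (y := y) (by rw [hy, hal])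
    rcases hz with hz | hz | hz
    · obtain ⟨b, hb, w, hw⟩ := ih c hc ⟨z, hz.symm⟩
      exact ⟨b, by
        rw [trp]
        exact List.mem_append_left _ hb, w, hw⟩
    · obtain ⟨b, hb, w, hw⟩ := ih (c / a) (div_ne_zero hc haK) ⟨z, by
        rw [map_div₀, hz, mul_div_cancel_left₀ _ haF]⟩
      refine ⟨a * b, ?_, w, ?_⟩
      · rw [trp]
        exact List.mem_append_right _ (List.mem_append_left _ (List.mem_map.2 ⟨b, hb, rfl⟩))
      · push_cast
        rw [div_eq_iff haK] at hw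
        rw [hw]
        ring
    · obtain ⟨b, hb, w, hw⟩ := ih (c / a ^ 2) (div_ne_zero hc (pow_ne_zero 2 haK)) ⟨z, by
        rw [map_div₀, hz, map_pow, mul_div_cancel_left₀ _ (pow_ne_zero 2 haF)]⟩
      refine ⟨a ^ 2 * b, ?_, w, ?_⟩
      · rw [trp]
        exact List.mem_append_right _ (List.mem_append_right _ (List.mem_map.2 ⟨b, hb, rfl⟩))
      · push_cast
        rw [div_eq_iff (pow_ne_zero 2 haK)] at hw
        rw [hw]
        ring

end Pool.Agent.Lib.MP_1a91b9_ntCC
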