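import Pool.Agent.Lib.MP_1a91b9_ntCC.DDen
import Pool.Agent.Lib.MP_1a91b9_ntCC.DFull
import Pool.Agent.Lib.MP_1a91b9_ntCC.DC23
import Pool.Agent.Lib.MP_1a91b9_ntZ.C3Fin

/-!
# MP_1a91b9_nt (cubic stability), part D: the rank part for both twists
-/

set_option autoImplicit false

namespace Pool.Agent.Lib.MP_1a91b9_ntCC

open NumberField IsDedekindDomain Finset WeierstrassCurve Pool.Agent.Lib.MP_1a91b9_ntN.H
  Pool.Agent.Lib.MP_1a91b9_ntZ
open Pool.Agent.Lib.MP_1a91b9_ntN (MCT chain3 Wt_good lfree_iff norm_ringEquiv adjoin_top)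
open Pool.Agent.Lib.MP_1a91b9_ntH (s3 prime_s3)

/-- The elements of `Δ` are different modulo cubes in `F` and powers of `α`. -/
def Sep3a {K : Type} [Field K] [NumberField K] (F : Type) [Field F] [Algebra K F] (α : K)
    (Δ : Finset (𝓞 K)) : Prop :=
  ∀ δ ∈ Δ, ∀ δ' ∈ Δ, δ ≠ δ' → ∀ i : ℕ, ∀ x : F, x ≠ 0 →
    x ^ 3 * algebraMap K F (δ' : K) ≠ algebraMap K F (α ^ i * (δ : K))

/-- The statement over `K` for the cubic twists of `y² + α y = x³` by `δ d` and by its square. -/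
def KB2 (K : Type) [Field K] [NumberField K] (α : 𝓞 K) (M : 𝓞 K → 𝓞 K → Prop) : Prop :=
  ∀ (F : Type) [Field F] [NumberField F] [Algebra K F],
    IntermediateField.adjoin K {x : F | ∃ c : K, x ^ 3 = algebraMap K F c} = ⊤ →
    ∀ m u : 𝓞 K, M m u → ∀ Δ : Finset (𝓞 K), 0 ∉ Δ → Sep3a F (α : K) Δ → ∀ t : ℕ,
    ∀ ε : ℝ, 0 < ε → ∀ᶠ X : ℝ in Filter.atTop,
      bn Δ.card t ((∏' i : ℕ, (1 + 1 / (3 : ℝ) ^ (i + 1))⁻¹) ^ (2 * Module.finrank K F)) - ε ≤
      (Nat.card {d : 𝓞 K // (∀ p, Prime p → ¬ p ^ 3 ∣ d) ∧ m ∣ d - u ∧ |Algebra.norm ℤ d| ≤ X ∧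
        AtF Δ t fun δ => Rk (⟨0, 0, algebraMap K F (α : K) *
          algebraMap K F ((δ * d : 𝓞 K) : K), 0, 0⟩ : WeierstrassCurve F) ∧
          Rk (⟨0, 0, algebraMap K F (α : K) *
          algebraMap K F (((δ * d) ^ 2 : 𝓞 K) : K), 0, 0⟩ : WeierstrassCurve F)} : ℝ) /
        (Nat.card {d : 𝓞 K // (∀ p, Prime p → ¬ p ^ 3 ∣ d) ∧ m ∣ d - u ∧
          |Algebra.norm ℤ d| ≤ X} : ℝ)

open Pool.Agent.Lib.MP_1a91b9_ntT (K) in
/-- The curves `Y² + x Y = X³` and `Y² + y Y = X³` with `x = y s³` are isomorphic. -/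
private theorem DRk_Wt_congr {x y : 𝓞 K} {s : K} (hs : s ≠ 0) (h : (x : K) = (y : K) * s ^ 3)
    (h1 : Pool.Agent.Lib.MP_1a91b9_nuX.LG.LConcl (Pool.Agent.Lib.MP_1a91b9_ntN.Wt K x) ∧
      Finite (Pool.Agent.Lib.MP_1a91b9_ntN.Wt K x).toAffine.Point) :
    Pool.Agent.Lib.MP_1a91b9_nuX.LG.LConcl (Pool.Agent.Lib.MP_1a91b9_ntN.Wt K y) ∧
      Finite (Pool.Agent.Lib.MP_1a91b9_ntN.Wt K y).toAffine.Point := by
  obtain ⟨C, hC⟩ : ∃ C : VariableChange K, C • Pool.Agent.Lib.MP_1a91b9_ntN.Wt K x =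
      Pool.Agent.Lib.MP_1a91b9_ntN.Wt K y := by
    refine ⟨⟨Units.mk0 s hs, 0, 0, 0⟩, ?_⟩
    rw [Pool.Agent.Lib.MP_1a91b9_ntN.Wt_K, Pool.Agent.Lib.MP_1a91b9_ntN.Wt_K, h]
    ext
    · simp [variableChange_a₁]
    · simp [variableChange_a₂]
    · simp only [variableChange_a₃, Units.val_inv_eq_inv_val, Units.val_mk0]
      field_simp
      ring
    · simp [variableChange_a₄]
    · simp [variableChange_a₆]
  refine ⟨?_, ?_⟩
  · obtain ⟨g, hg, hg1, hg2⟩ := h1.1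
    refine ⟨g, hg, fun z hz => ?_, hg2⟩
    rw [hg1 z hz, Pool.Agent.Lib.MP_1a91b9_ntN.LSer_congr fun v =>
      Pool.Agent.Lib.MP_1a91b9_nuX.LG.locPoly_iso hC v (Pool.Agent.Lib.MP_1a91b9_ntN.Wt_ji y v)]
  · have h2 := h1.2
    rw [← hC]
    exact Finite.of_injective _ (Pool.Agent.Lib.MP_1a91b9_nt.vcFun_bijective
      (Pool.Agent.Lib.MP_1a91b9_ntN.Wt K x) C).1

open Pool.Agent.Lib.MP_1a91b9_ntT (K) in
/-- The curve of a good element. -/
private theorem DRk_Wt_GdE {x : 𝓞 K} (h : GdE x) :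
    Pool.Agent.Lib.MP_1a91b9_nuX.LG.LConcl (Pool.Agent.Lib.MP_1a91b9_ntN.Wt K x) ∧
      Finite (Pool.Agent.Lib.MP_1a91b9_ntN.Wt K x).toAffine.Point := by
  have h2 := Wt_good (a := x) (d := 1) (by
    obtain ⟨b, k, j, S, T, s, e1, e2, e3, e4⟩ := h
    exact ⟨b, k, j, S, T, s, e1, e2, by rw [mul_one]; exact e3, e4⟩)
  rw [mul_one] at h2
  exact h2

/-- The probability of at least `t` successes is monotone. -/
private theorem DRk_bn_mono (n t : ℕ) {g g' : ℝ} (h0 : 0 ≤ g) (h1 : g ≤ g') (h2 : g' ≤ 1) :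
    bn n t g ≤ bn n t g' := by
  have e1 := bts_const (Finset.univ : Finset (Fin n)) t g
  have e2 := bts_const (Finset.univ : Finset (Fin n)) t g'
  rw [card_univ, Fintype.card_fin] at e1 e2
  rw [← e1, ← e2]
  exact bts_mono _ t (fun _ _ => h0) (fun _ _ => h1) (fun _ _ => h2)

open Pool.Agent.Lib.MP_1a91b9_ntT (K) in
/-- The rank part over `F` for the curve of `D`, from the curves of `b D`. -/
private theorem DRk_curve {F : Type} [Field F] [NumberField F] [Algebra K F] {A : List (𝓞 K)}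
    (hA : MCT F A) {α D : 𝓞 K} (hα : α ≠ 0) (hD : D ≠ 0)
    (H : ∀ b ∈ A, Pool.Agent.Lib.MP_1a91b9_nuX.LG.LConcl
      (Pool.Agent.Lib.MP_1a91b9_ntN.Wt K (b * (α * D))) ∧
      Finite (Pool.Agent.Lib.MP_1a91b9_ntN.Wt K (b * (α * D))).toAffine.Point) :
    Rk (⟨0, 0, algebraMap K F (α : K) * algebraMap K F (D : K), 0, 0⟩ : WeierstrassCurve F) := by
  have h1 := chain3 Pool.Agent.Lib.MP_1a91b9_ntN.chainHyp3 hA (α * D) (mul_ne_zero hα hD) H
  have e : Pool.Agent.Lib.MP_1a91b9_ntN.Wt F (α * D) =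
      ⟨0, 0, algebraMap K F (α : K) * algebraMap K F (D : K), 0, 0⟩ := by
    rw [← map_mul]
    rfl
  rw [← e]
  exact h1

open Pool.Agent.Lib.MP_1a91b9_ntT (K) in
/-- The elements of the list are different modulo cubes. -/
private theorem DRk_dis {F : Type} [Field F] [Algebra K F] {A : List (𝓞 K)}
    (hok : Pool.Agent.Lib.MP_1a91b9_ntN.MCok F A) (l l' : Fin A.length) (hl : l ≠ l') :
    ¬ ∃ y : K, y ^ 3 * ((A.get l' : 𝓞 K) : K) = ((A.get l : 𝓞 K) : K) := by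
  have hpw := List.pairwise_iff_get.1 hok.pw
  rcases lt_or_gt_of_ne hl with h | h
  · exact hpw l l' h
  · rintro ⟨y, hy⟩
    refine hpw l' l h ⟨y⁻¹, ?_⟩
    have hy0 : y ≠ 0 := by
      rintro rfl
      rw [zero_pow three_ne_zero, zero_mul] at hy
      exact hok.ne _ (List.get_mem A l) (by exact_mod_cast hy.symm)
    rw [← hy, ← mul_assoc, ← mul_pow, inv_mul_cancel₀ hy0, one_pow, one_mul]

open Pool.Agent.Lib.MP_1a91b9_ntT (K) in
/-- Elements of `Δ` times cubes in `F`. -/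
private theorem DRk_sep {F : Type} [Field F] [Algebra K F] {α : K} {Δ : Finset (𝓞 K)}
    (hsep : Sep3a F α Δ) {δ δ' : 𝓞 K} (hδ : δ ∈ Δ) (hδ' : δ' ∈ Δ) (hne : δ ≠ δ') (i : ℕ)
    {β γ : F} (hβ : β ≠ 0) (hγ : γ ≠ 0)
    (h : γ ^ 3 * algebraMap K F (δ' : K) = β ^ 3 * algebraMap K F (α ^ i * (δ : K))) : False := by
  refine hsep δ hδ δ' hδ' hne i (γ / β) (div_ne_zero hγ hβ) ?_
  rw [div_pow, div_mul_eq_mul_div, h, mul_div_cancel_left₀ _ (pow_ne_zero 3 hβ)]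

open Pool.Agent.Lib.MP_1a91b9_ntT (K) in
/-- Case 1: `α` is not a cube in `F`. -/
private theorem DRk_case1 {α : 𝓞 K} (hα : α ≠ 0) {F : Type} [Field F] [NumberField F]
    [Algebra K F] {A : List (𝓞 K)} (hA : MCT F A)
    (hcu : ¬ ∃ y : F, y ^ 3 = algebraMap K F (α : K)) {n : ℕ} {m u : 𝓞 K} (hm : m ∣ 3 ^ n)
    (hu : ¬ (s3 ^ 3 ∣ m ∧ s3 ^ 3 ∣ u)) (Δ : Finset (𝓞 K)) (h0 : 0 ∉ Δ)
    (hsep : Sep3a F (α : K) Δ) (t : ℕ) (ε : ℝ) (hε : 0 < ε) :
    ∀ᶠ X : ℝ in Filter.atTop,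
      bn Δ.card t ((∏' i : ℕ, (1 + 1 / (3 : ℝ) ^ (i + 1))⁻¹) ^ (2 * Module.finrank K F)) - ε ≤
      (Nat.card {d : 𝓞 K // (∀ p, Prime p → ¬ p ^ 3 ∣ d) ∧ m ∣ d - u ∧ |Algebra.norm ℤ d| ≤ X ∧
        AtF Δ t fun δ => Rk (⟨0, 0, algebraMap K F (α : K) *
          algebraMap K F ((δ * d : 𝓞 K) : K), 0, 0⟩ : WeierstrassCurve F) ∧
          Rk (⟨0, 0, algebraMap K F (α : K) *
          algebraMap K F (((δ * d) ^ 2 : 𝓞 K) : K), 0, 0⟩ : WeierstrassCurve F)} : ℝ) /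
        (Nat.card {d : 𝓞 K // (∀ p, Prime p → ¬ p ^ 3 ∣ d) ∧ m ∣ d - u ∧
          |Algebra.norm ℤ d| ≤ X} : ℝ) := by
  classical
  have hok := hA.ok
  have hα' : ((α : 𝓞 K) : K) ≠ 0 := by exact_mod_cast hα
  have hN : 0 < A.length * 2 := by
    rw [hok.len]
    exact Nat.mul_pos Module.finrank_pos two_pos
  have hΔ0 : ∀ δ : Δ, (δ.1 : 𝓞 K) ≠ 0 := fun δ h => h0 (h ▸ δ.2)
  have hget : ∀ l : Fin A.length, A.get l ∈ A := fun l => List.get_mem A l
  have hget0 : ∀ l : Fin A.length, A.get l ≠ 0 := fun l => hok.ne _ (hget l)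
  have hgetK : ∀ l : Fin A.length, ((A.get l : 𝓞 K) : K) ≠ 0 := fun l => by
    exact_mod_cast hget0 l
  have hcube : ∀ l : Fin A.length, ∃ β : F, β ≠ 0 ∧ β ^ 3 = algebraMap K F (A.get l : K) := by
    intro l
    obtain ⟨β, hβ⟩ := hok.cu _ (hget l)
    refine ⟨β, ?_, hβ⟩
    rintro rfl
    rw [zero_pow three_ne_zero, eq_comm, map_eq_zero] at hβ
    exact hgetK l hβ
  -- the element of the label
  obtain ⟨el, hel⟩ : ∃ el : 𝓞 K → Fin A.length × Fin 2 → 𝓞 K, ∀ δ q, el δ q =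
      if q.2 = 0 then α * δ * A.get q.1 else α ^ 2 * δ * A.get q.1 ^ 2 := ⟨_, fun _ _ => rfl⟩
  have el0 : ∀ δ l, el δ (l, 0) = α * δ * A.get l := fun δ l => by
    rw [hel, if_pos rfl]
  have el1 : ∀ δ l, el δ (l, 1) = α ^ 2 * δ * A.get l ^ 2 := fun δ l => by
    rw [hel, if_neg (by decide : ¬ ((1 : Fin 2) = 0))]
  -- mixed labels
  have hmix : ∀ (δ δ' : Δ) (l l' : Fin A.length),
      ¬ ∃ y : K, y ^ 3 * (el δ'.1 (l', 1) : K) = (el δ.1 (l, 0) : K) := by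
    rintro δ δ' l l' ⟨y, hy⟩
    rw [el0, el1] at hy
    push_cast at hy
    obtain ⟨β, hβ0, hβ⟩ := hcube l
    obtain ⟨β', hβ0', hβ'⟩ := hcube l'
    have hδ : (((δ.1 : 𝓞 K) : K)) ≠ 0 := by exact_mod_cast hΔ0 δ
    have hy1 : y ^ 3 * ((α : K) * (((δ'.1 : 𝓞 K) : K)) * ((A.get l' : 𝓞 K) : K) ^ 2) =
        (((δ.1 : 𝓞 K) : K)) * ((A.get l : 𝓞 K) : K) := by
      refine mul_left_cancel₀ hα' ?_
      linear_combination hy
    have hy0 : y ≠ 0 := by
      rintro rfl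
      rw [zero_pow three_ne_zero, zero_mul] at hy1
      exact mul_ne_zero hδ (hgetK l) hy1.symm
    have hyF : algebraMap K F y ≠ 0 := by rwa [map_ne_zero]
    have h1 := congrArg (algebraMap K F) hy1
    simp only [map_mul, map_pow] at h1
    rw [← hβ, ← hβ'] at h1
    by_cases hd : δ = δ'
    · subst hd
      apply hcu
      have hδF : algebraMap K F ((δ.1 : 𝓞 K) : K) ≠ 0 := by rwa [map_ne_zero]
      refine ⟨β / (algebraMap K F y * β' ^ 2), ?_⟩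
      rw [div_pow, div_eq_iff (pow_ne_zero 3 (mul_ne_zero hyF (pow_ne_zero 2 hβ0')))]
      refine mul_left_cancel₀ hδF ?_
      linear_combination -h1
    · refine DRk_sep hsep δ'.2 δ.2 (fun h => hd (Subtype.ext h).symm) 1
        (β := algebraMap K F y * β' ^ 2) (γ := β)
        (mul_ne_zero hyF (pow_ne_zero 2 hβ0')) hβ0 ?_
      rw [pow_one, map_mul]
      linear_combination -h1
  have key := den_allT (n := n) (I := Δ) (N := A.length * 2) hN
    (fun x => if (finProdFinEquiv.symm x.2).2 = 0 then 0 else 1)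
    (fun x => el x.1.1 (finProdFinEquiv.symm x.2)) ?_ ?_ (w := 1) zero_le_one le_rfl ?_
    (hm.trans (pow3_dvd_Q9 n)) hu t (fun d => AtF Δ t fun δ => Rk (⟨0, 0, algebraMap K F (α : K) *
          algebraMap K F ((δ * d : 𝓞 K) : K), 0, 0⟩ : WeierstrassCurve F) ∧
          Rk (⟨0, 0, algebraMap K F (α : K) *
          algebraMap K F (((δ * d) ^ 2 : 𝓞 K) : K), 0, 0⟩ : WeierstrassCurve F)) ?_ ε hε
  · rw [Fintype.card_coe, one_mul, hok.len, mul_comm (Module.finrank K F) 2] at key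
    exact key
  · -- the elements are different from zero
    rintro ⟨δ, l⟩
    simp only
    rw [hel]
    split_ifs
    · exact mul_ne_zero (mul_ne_zero hα (hΔ0 δ)) (hget0 _)
    · exact mul_ne_zero (mul_ne_zero (pow_ne_zero 2 hα) (hΔ0 δ)) (pow_ne_zero 2 (hget0 _))
  · -- different modulo cubes
    rintro ⟨δ, l⟩ ⟨δ', l'⟩ hne ⟨y, hy⟩
    obtain ⟨⟨l, i⟩, rfl⟩ := finProdFinEquiv.surjective l
    obtain ⟨⟨l', i'⟩, rfl⟩ := finProdFinEquiv.surjective l'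
    simp only [Equiv.symm_apply_apply] at hy
    have hδ : (((δ.1 : 𝓞 K) : K)) ≠ 0 := by exact_mod_cast hΔ0 δ
    have hδ' : (((δ'.1 : 𝓞 K) : K)) ≠ 0 := by exact_mod_cast hΔ0 δ'
    obtain ⟨β, hβ0, hβ⟩ := hcube l
    obtain ⟨β', hβ0', hβ'⟩ := hcube l'
    have hi : i = 0 ∨ i = 1 := by
      fin_cases i
      · exact Or.inl rfl
      · exact Or.inr rfl
    have hi' : i' = 0 ∨ i' = 1 := by
      fin_cases i'
      · exact Or.inl rfl
      · exact Or.inr rfl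
    have hy0 : y ≠ 0 := by
      rintro rfl
      rw [zero_pow three_ne_zero, zero_mul, eq_comm] at hy
      rcases hi with rfl | rfl
      · rw [el0] at hy
        exact mul_ne_zero (mul_ne_zero hα (hΔ0 δ)) (hget0 l) (by exact_mod_cast hy)
      · rw [el1] at hy
        exact mul_ne_zero (mul_ne_zero (pow_ne_zero 2 hα) (hΔ0 δ)) (pow_ne_zero 2 (hget0 l))
          (by exact_mod_cast hy)
    have hyF : algebraMap K F y ≠ 0 := by rwa [map_ne_zero]
    rcases hi with rfl | rfl <;> rcases hi' with rfl | rfl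
    · rw [el0, el0] at hy
      push_cast at hy
      have hy1 : y ^ 3 * ((((δ'.1 : 𝓞 K) : K)) * ((A.get l' : 𝓞 K) : K)) =
          (((δ.1 : 𝓞 K) : K)) * ((A.get l : 𝓞 K) : K) := by
        refine mul_left_cancel₀ hα' ?_
        linear_combination hy
      by_cases hd : δ = δ'
      · subst hd
        have hl : l ≠ l' := fun h => hne (by rw [h])
        refine DRk_dis hok l l' hl ⟨y, mul_left_cancel₀ hδ ?_⟩
        linear_combination hy1
      · have h1 := congrArg (algebraMap K F) hy1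
        simp only [map_mul, map_pow] at h1
        rw [← hβ, ← hβ'] at h1
        refine DRk_sep hsep δ.2 δ'.2 (fun h => hd (Subtype.ext h)) 0
          (β := β) (γ := algebraMap K F y * β') hβ0 (mul_ne_zero hyF hβ0') ?_
        rw [pow_zero, one_mul]
        linear_combination h1
    · exact hmix δ δ' l l' ⟨y, hy⟩
    · refine hmix δ' δ l' l ⟨y⁻¹, ?_⟩
      rw [← hy, ← mul_assoc, ← mul_pow, inv_mul_cancel₀ hy0, one_pow, one_mul]
    · rw [el1, el1] at hy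
      push_cast at hy
      have hy1 : y ^ 3 * ((((δ'.1 : 𝓞 K) : K)) * ((A.get l' : 𝓞 K) : K) ^ 2) =
          (((δ.1 : 𝓞 K) : K)) * ((A.get l : 𝓞 K) : K) ^ 2 := by
        refine mul_left_cancel₀ (pow_ne_zero 2 hα') ?_
        linear_combination hy
      by_cases hd : δ = δ'
      · subst hd
        have hl : l ≠ l' := fun h => hne (by rw [h])
        have hy2 : y ^ 3 * ((A.get l' : 𝓞 K) : K) ^ 2 = ((A.get l : 𝓞 K) : K) ^ 2 := by
          refine mul_left_cancel₀ hδ ?_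
          linear_combination hy1
        -- `b = (b / (b' y)) ^ 3 * b'`
        refine DRk_dis hok l l' hl ⟨((A.get l : 𝓞 K) : K) / (((A.get l' : 𝓞 K) : K) * y), ?_⟩
        have hb := hgetK l
        have hb' := hgetK l'
        rw [div_pow, div_mul_eq_mul_div, div_eq_iff (pow_ne_zero 3 (mul_ne_zero hb' hy0))]
        linear_combination -((A.get l : 𝓞 K) : K) * ((A.get l' : 𝓞 K) : K) * hy2
      · have h1 := congrArg (algebraMap K F) hy1
        simp only [map_mul, map_pow] at h1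
        rw [← hβ, ← hβ'] at h1
        refine DRk_sep hsep δ.2 δ'.2 (fun h => hd (Subtype.ext h)) 0
          (β := β ^ 2) (γ := algebraMap K F y * β' ^ 2) (pow_ne_zero 2 hβ0)
          (mul_ne_zero hyF (pow_ne_zero 2 hβ0')) ?_
        rw [pow_zero, one_mul]
        linear_combination h1
  · -- no label of type `2`
    intro l hl
    exfalso
    split_ifs at hl
    · exact absurd hl (by decide)
    · exact absurd hl (by decide)
  · intro d hd h
    have hd0 : d ≠ 0 := by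
      rintro rfl
      exact (Pool.Agent.Lib.MP_1a91b9_ntK.CF_iff _).1 hd s3 prime_s3 (dvd_zero _)
    refine AtF_of_Atl (fun δ hδ => ⟨?_, ?_⟩) h
    · refine DRk_curve hA hα (mul_ne_zero (hΔ0 δ) hd0) fun b hb => ?_
      obtain ⟨l, rfl⟩ := List.mem_iff_get.1 hb
      have h1 := hδ (finProdFinEquiv (l, 0))
      simp only [Equiv.symm_apply_apply, if_pos] at h1
      rw [el0] at h1
      have h2 := DRk_Wt_GdE (h1.1 (by decide))
      rw [show A.get l * (α * (δ.1 * d)) = α * δ.1 * A.get l * d by ring]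
      exact h2
    · refine DRk_curve hA hα (pow_ne_zero 2 (mul_ne_zero (hΔ0 δ) hd0)) fun b hb => ?_
      obtain ⟨l, rfl⟩ := List.mem_iff_get.1 hb
      have h1 := hδ (finProdFinEquiv (l, 1))
      simp only [Equiv.symm_apply_apply, if_neg (by decide : ¬ ((1 : Fin 2) = 0))] at h1
      rw [el1] at h1
      have h2 := DRk_Wt_GdE (h1.2 (by decide))
      refine DRk_Wt_congr (s := (α : K) * (A.get l : K)) (mul_ne_zero hα' (hgetK l)) ?_ h2
      push_cast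
      ring

open Pool.Agent.Lib.MP_1a91b9_ntT (K) in
/-- Case 2: `α` is a cube in `F`. -/
private theorem DRk_case2 {α : 𝓞 K} (hα : α ≠ 0) {F : Type} [Field F] [NumberField F]
    [Algebra K F] {A : List (𝓞 K)} (hA : MCT F A)
    (hcu : ∃ y : F, y ^ 3 = algebraMap K F (α : K)) {n : ℕ} {m u : 𝓞 K} (hm : m ∣ 3 ^ n)
    (hu : ¬ (s3 ^ 3 ∣ m ∧ s3 ^ 3 ∣ u)) (Δ : Finset (𝓞 K)) (h0 : 0 ∉ Δ)
    (hsep : Sep3a F (α : K) Δ) (t : ℕ) (ε : ℝ) (hε : 0 < ε) :
    ∀ᶠ X : ℝ in Filter.atTop,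
      bn Δ.card t ((∏' i : ℕ, (1 + 1 / (3 : ℝ) ^ (i + 1))⁻¹) ^ (2 * Module.finrank K F)) - ε ≤
      (Nat.card {d : 𝓞 K // (∀ p, Prime p → ¬ p ^ 3 ∣ d) ∧ m ∣ d - u ∧ |Algebra.norm ℤ d| ≤ X ∧
        AtF Δ t fun δ => Rk (⟨0, 0, algebraMap K F (α : K) *
          algebraMap K F ((δ * d : 𝓞 K) : K), 0, 0⟩ : WeierstrassCurve F) ∧
          Rk (⟨0, 0, algebraMap K F (α : K) *
          algebraMap K F (((δ * d) ^ 2 : 𝓞 K) : K), 0, 0⟩ : WeierstrassCurve F)} : ℝ) /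
        (Nat.card {d : 𝓞 K // (∀ p, Prime p → ¬ p ^ 3 ∣ d) ∧ m ∣ d - u ∧
          |Algebra.norm ℤ d| ≤ X} : ℝ) := by
  classical
  have hok := hA.ok
  have hα' : ((α : 𝓞 K) : K) ≠ 0 := by exact_mod_cast hα
  have hN : 0 < A.length := by
    rw [hok.len]
    exact Module.finrank_pos
  have hΔ0 : ∀ δ : Δ, (δ.1 : 𝓞 K) ≠ 0 := fun δ h => h0 (h ▸ δ.2)
  have hget : ∀ l : Fin A.length, A.get l ∈ A := fun l => List.get_mem A l
  have hget0 : ∀ l : Fin A.length, A.get l ≠ 0 := fun l => hok.ne _ (hget l)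
  have hgetK : ∀ l : Fin A.length, ((A.get l : 𝓞 K) : K) ≠ 0 := fun l => by
    exact_mod_cast hget0 l
  have hcube : ∀ l : Fin A.length, ∃ β : F, β ≠ 0 ∧ β ^ 3 = algebraMap K F (A.get l : K) := by
    intro l
    obtain ⟨β, hβ⟩ := hok.cu _ (hget l)
    refine ⟨β, ?_, hβ⟩
    rintro rfl
    rw [zero_pow three_ne_zero, eq_comm, map_eq_zero] at hβ
    exact hgetK l hβ
  have key := den_allT (n := n) (I := Δ) (N := A.length) hN (fun _ => 2)
    (fun x => α * (x.1.1 : 𝓞 K) * A.get x.2)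
    (fun x => mul_ne_zero (mul_ne_zero hα (hΔ0 x.1)) (hget0 x.2)) ?_ (w := 2 / 3)
    (by norm_num) (by norm_num) (fun _ _ => le_rfl)
    (hm.trans (pow3_dvd_Q9 n)) hu t (fun d => AtF Δ t fun δ => Rk (⟨0, 0, algebraMap K F (α : K) *
          algebraMap K F ((δ * d : 𝓞 K) : K), 0, 0⟩ : WeierstrassCurve F) ∧
          Rk (⟨0, 0, algebraMap K F (α : K) *
          algebraMap K F (((δ * d) ^ 2 : 𝓞 K) : K), 0, 0⟩ : WeierstrassCurve F)) ?_ ε hε
  · rw [Fintype.card_coe, hok.len] at key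
    filter_upwards [key] with X hX
    refine le_trans (sub_le_sub_right ?_ ε) hX
    have hc0 : (0 : ℝ) ≤ ∏' i : ℕ, (1 + 1 / (3 : ℝ) ^ (i + 1))⁻¹ := by
      rw [Pool.Agent.Lib.MP_1a91b9_ntK.cinf3_form]
      exact cinf3_pos.le
    have hc1 : ∏' i : ℕ, (1 + 1 / (3 : ℝ) ^ (i + 1))⁻¹ ≤ 2 / 3 := by
      rw [Pool.Agent.Lib.MP_1a91b9_ntK.cinf3_form]
      exact cinf3_le
    refine DRk_bn_mono _ _ (pow_nonneg hc0 _) ?_ ?_
    · rw [pow_mul]
      refine pow_le_pow_left₀ (pow_nonneg hc0 2) ?_ _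
      rw [pow_two]
      exact mul_le_mul_of_nonneg_right hc1 hc0
    · refine pow_le_one₀ (mul_nonneg (by norm_num) hc0) ?_
      linarith
  · rintro ⟨δ, l⟩ ⟨δ', l'⟩ hne ⟨y, hy⟩
    simp only at hy
    push_cast at hy
    obtain ⟨β, hβ0, hβ⟩ := hcube l
    obtain ⟨β', hβ0', hβ'⟩ := hcube l'
    have hδ : (((δ.1 : 𝓞 K) : K)) ≠ 0 := by exact_mod_cast hΔ0 δ
    have hy1 : y ^ 3 * ((((δ'.1 : 𝓞 K) : K)) * ((A.get l' : 𝓞 K) : K)) =
        (((δ.1 : 𝓞 K) : K)) * ((A.get l : 𝓞 K) : K) := by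
      refine mul_left_cancel₀ hα' ?_
      linear_combination hy
    have hy0 : y ≠ 0 := by
      rintro rfl
      rw [zero_pow three_ne_zero, zero_mul] at hy1
      exact mul_ne_zero hδ (hgetK l) hy1.symm
    have hyF : algebraMap K F y ≠ 0 := by rwa [map_ne_zero]
    by_cases hd : δ = δ'
    · subst hd
      have hl : l ≠ l' := fun h => hne (by rw [h])
      refine DRk_dis hok l l' hl ⟨y, mul_left_cancel₀ hδ ?_⟩
      linear_combination hy1
    · have h1 := congrArg (algebraMap K F) hy1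
      simp only [map_mul, map_pow] at h1
      rw [← hβ, ← hβ'] at h1
      refine DRk_sep hsep δ.2 δ'.2 (fun h => hd (Subtype.ext h)) 0
        (β := β) (γ := algebraMap K F y * β') hβ0 (mul_ne_zero hyF hβ0') ?_
      rw [pow_zero, one_mul]
      linear_combination h1
  · intro d hd h
    have hd0 : d ≠ 0 := by
      rintro rfl
      exact (Pool.Agent.Lib.MP_1a91b9_ntK.CF_iff _).1 hd s3 prime_s3 (dvd_zero _)
    refine AtF_of_Atl (fun δ hδ => ⟨?_, ?_⟩) h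
    · refine DRk_curve hA hα (mul_ne_zero (hΔ0 δ) hd0) fun b hb => ?_
      obtain ⟨l, rfl⟩ := List.mem_iff_get.1 hb
      have h2 := DRk_Wt_GdE ((hδ l).1 (by decide))
      rw [show A.get l * (α * (δ.1 * d)) = α * δ.1 * A.get l * d by ring]
      exact h2
    · refine DRk_curve hA hα (pow_ne_zero 2 (mul_ne_zero (hΔ0 δ) hd0)) fun b hb => ?_
      have hb0 : (b : K) ≠ 0 := by exact_mod_cast hok.ne b hb
      obtain ⟨y, hy⟩ := hcu
      obtain ⟨β, hβ⟩ := hok.cu b hb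
      obtain ⟨b', hb', z, hz⟩ := mct_full hA ((α : K) * (b : K) ^ 2)
        (mul_ne_zero hα' (pow_ne_zero 2 hb0)) ⟨y * β ^ 2, by
          rw [map_mul, map_pow, ← hy, ← hβ]
          ring⟩
      obtain ⟨l, rfl⟩ := List.mem_iff_get.1 hb'
      have hz0 : z ≠ 0 := by
        rintro rfl
        rw [zero_pow three_ne_zero, mul_zero] at hz
        exact mul_ne_zero hα' (pow_ne_zero 2 hb0) hz
      have h2 := DRk_Wt_GdE ((hδ l).2 (by decide))
      refine DRk_Wt_congr (s := (α : K) * (b : K) / z ^ 2)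
        (div_ne_zero (mul_ne_zero hα' hb0) (pow_ne_zero 2 hz0)) ?_ h2
      have hz6 : (z ^ 2) ^ 3 ≠ 0 := pow_ne_zero 3 (pow_ne_zero 2 hz0)
      rw [div_pow, mul_div_assoc', eq_div_iff hz6]
      push_cast
      linear_combination -((α : K) ^ 2 * (δ.1 : K) ^ 2 * (d : K) ^ 2) *
        ((α : K) * (b : K) ^ 2 + (A.get l : K) * z ^ 3) * hz

open Pool.Agent.Lib.MP_1a91b9_ntT (K) in
/-- **The rank part for both twists** (model: `kb_main` in `ntZ/C3Fin`). Let `A` be the list of `F`, `N = #A =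
[F : K]`, `c` the constant, `c ≤ 2 / 3` (`cinf3_le`, `cinf3_form`). For `b` in `A` the curve `y² + b α (δ d)² y =
x³` is isomorphic to the twist by `(b² α² δ d)² = b α (δ d)² (b α)³` (`Wt_cube`, `Wt_iso` in `ntN/Q/Main`).

Case 1: `α` is not a cube in `F`. Use `den_allT` with the `2 N` labels `α δ b` of type `0` and `α² δ b²` of type `1`
in the block `δ` (index `Fin (N * 2)` by `finProdFinEquiv`) and `w = 1`. They are different modulo cubes of `K`: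
`α δ b ~ α δ' b'` and `α² δ b² ~ α² δ' b'²` by `Sep3a` with `i = 0` if `δ ≠ δ'` and by `MCok.pw` if `δ = δ'`;
`α δ b ~ α² δ' b'²` gives that `δ / δ'` is `α` times a cube of `F`: by `Sep3a` with `i = 1` (or `2`) if `δ ≠ δ'`, by
the case if `δ = δ'` (the `b` are cubes in `F`).

Case 2: `α` is a cube in `F`. Use `den_allT` with the `N` labels `α δ b` of type `2` and `w = 2 / 3`; for `b` in
`A` the element `α b²` is a cube in `F`, so by `mct_full` it is `b' z³` with `b'` in `A`, and `(α δ b' d)²` is `b α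
(δ d)²` times a cube (of an element of `K`; multiply with denominators to stay in `𝓞 K`, or use that `GdE` gives
the result for the curve and transport by an isomorphism over `K`). Finally `(2 / 3 * c) ^ N ≥ c ^ (2 N)` and `bn`
is monotone (`bts_const`, `bts_mono` in `ntZ/Bin`). -/
theorem kb2_main {α : 𝓞 K} (hα : α ≠ 0) :
    KB2 K α (fun m u => (∃ n : ℕ, m ∣ 3 ^ n) ∧ ∀ p, Prime p → ¬ (p ^ 3 ∣ m ∧ p ^ 3 ∣ u)) := by
  intro F _ _ _ hF m u hmu Δ h0 hsep t ε hε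
  obtain ⟨⟨n, hm⟩, hu⟩ := hmu
  obtain ⟨A, hA⟩ := MCT.exists_of hF
  by_cases hcu : ∃ y : F, y ^ 3 = algebraMap K F (α : K)
  · exact DRk_case2 hα hA hcu hm (hu _ prime_s3) Δ h0 hsep t ε hε
  · exact DRk_case1 hα hA hcu hm (hu _ prime_s3) Δ h0 hsep t ε hε

/-- The theorem over a field isomorphic to `K` (copy of `KB.equiv` in `ntZ/C3Tr`). -/
theorem KB2.equiv {K K' : Type} [Field K] [NumberField K] [Field K'] [NumberField K'] (e : K ≃+* K')
    {α : 𝓞 K} {M : 𝓞 K → 𝓞 K → Prop} {M' : 𝓞 K' → 𝓞 K' → Prop}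
    (hM : ∀ m u, M' (RingOfIntegers.mapRingEquiv e m) (RingOfIntegers.mapRingEquiv e u) → M m u)
    (H : KB2 K α M) : KB2 K' (RingOfIntegers.mapRingEquiv e α) M' := by
  intro F _ _ _ hF m' u' hmu Δ' h0 hsep t ε hε
  obtain ⟨E, hE⟩ : ∃ E : 𝓞 K ≃+* 𝓞 K', E = RingOfIntegers.mapRingEquiv e := ⟨_, rfl⟩
  have hEe : ∀ d : 𝓞 K, ((E d : 𝓞 K') : K') = e (d : K) := fun d => by
    rw [hE]
    rfl
  rw [← hE] at hM hsep ⊢
  obtain ⟨m, rfl⟩ := E.surjective m'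
  obtain ⟨u, rfl⟩ := E.surjective u'
  obtain ⟨Δ, rfl⟩ : ∃ Δ : Finset (𝓞 K), Δ.map E.toEquiv.toEmbedding = Δ' := by
    refine ⟨Δ'.map E.symm.toEquiv.toEmbedding, ?_⟩
    rw [Finset.map_map]
    ext x
    rw [Finset.mem_map]
    constructor
    · rintro ⟨y, hy, rfl⟩
      have : E (E.symm y) = y := E.apply_symm_apply y
      show E (E.symm y) ∈ Δ'
      rw [this]
      exact hy
    · intro hx
      exact ⟨x, hx, E.apply_symm_apply x⟩
  let _ : Algebra K F := ((algebraMap K' F).comp (e : K →+* K')).toAlgebra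
  have hal : ∀ x : K, algebraMap K F x = algebraMap K' F (e x) := fun _ => rfl
  have hr : Set.range (algebraMap K F) = Set.range (algebraMap K' F) := by
    ext y
    constructor
    · rintro ⟨x, rfl⟩
      exact ⟨e x, (hal x).symm⟩
    · rintro ⟨x, rfl⟩
      exact ⟨e.symm x, by rw [hal, e.apply_symm_apply]⟩
  have hset : {x : F | ∃ c : K, x ^ 3 = algebraMap K F c} =
      {x : F | ∃ c : K', x ^ 3 = algebraMap K' F c} := by
    ext x
    constructor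
    · rintro ⟨c, hc⟩
      exact ⟨e c, hc⟩
    · rintro ⟨c, hc⟩
      exact ⟨e.symm c, by rw [hal, e.apply_symm_apply]; exact hc⟩
  have hmem : ∀ δ : 𝓞 K, δ ∈ Δ → E δ ∈ Δ.map E.toEquiv.toEmbedding := fun δ hδ =>
    Finset.mem_map.2 ⟨δ, hδ, rfl⟩
  have h1 := H F (adjoin_top hr (by rw [hset]; exact hF)) m u (hM m u hmu) Δ
    (fun h => h0 (Finset.mem_map.2 ⟨0, h, map_zero E⟩))
    (fun δ hδ δ' hδ' hne i x hx h => hsep (E δ) (hmem δ hδ) (E δ') (hmem δ' hδ')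
      (fun h => hne (E.injective h)) i x hx (by
        rw [hEe, hEe, hEe, ← map_pow e, ← map_mul e, ← hal, ← hal]
        exact h)) t ε hε
  have hfin : Module.finrank K F = Module.finrank K' F :=
    Algebra.finrank_eq_of_equiv_equiv e (RingEquiv.refl F) (by ext x; rfl)
  filter_upwards [h1] with X hX
  rw [← hfin, Finset.card_map]
  have c1 : Nat.card {d : 𝓞 K // (∀ p, Prime p → ¬ p ^ 3 ∣ d) ∧ m ∣ d - u ∧
        |Algebra.norm ℤ d| ≤ X ∧ AtF Δ t fun δ => Rk (⟨0, 0, algebraMap K F (α : K) *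
          algebraMap K F ((δ * d : 𝓞 K) : K), 0, 0⟩ : WeierstrassCurve F) ∧
          Rk (⟨0, 0, algebraMap K F (α : K) *
          algebraMap K F (((δ * d) ^ 2 : 𝓞 K) : K), 0, 0⟩ : WeierstrassCurve F)} =
      Nat.card {d : 𝓞 K' // (∀ p, Prime p → ¬ p ^ 3 ∣ d) ∧ E m ∣ d - E u ∧
        |Algebra.norm ℤ d| ≤ X ∧ AtF (Δ.map E.toEquiv.toEmbedding) t fun δ =>
          Rk (⟨0, 0, algebraMap K' F ((E α : 𝓞 K') : K') *
          algebraMap K' F ((δ * d : 𝓞 K') : K'), 0, 0⟩ : WeierstrassCurve F) ∧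
          Rk (⟨0, 0, algebraMap K' F ((E α : 𝓞 K') : K') *
          algebraMap K' F (((δ * d) ^ 2 : 𝓞 K') : K'), 0, 0⟩ : WeierstrassCurve F)} := by
    refine Nat.card_congr (E.toEquiv.subtypeEquiv fun d => ?_)
    show _ ↔ (∀ p, Prime p → ¬ p ^ 3 ∣ E d) ∧ E m ∣ E d - E u ∧ |Algebra.norm ℤ (E d)| ≤ X ∧
      AtF (Δ.map E.toEquiv.toEmbedding) t fun δ =>
          Rk (⟨0, 0, algebraMap K' F ((E α : 𝓞 K') : K') *
          algebraMap K' F ((δ * E d : 𝓞 K') : K'), 0, 0⟩ : WeierstrassCurve F) ∧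
          Rk (⟨0, 0, algebraMap K' F ((E α : 𝓞 K') : K') *
          algebraMap K' F (((δ * E d) ^ 2 : 𝓞 K') : K'), 0, 0⟩ : WeierstrassCurve F)
    rw [lfree_iff, norm_ringEquiv, ← map_sub, map_dvd_iff E, AtF_map]
    have h2 : ∀ δ : 𝓞 K, (((E.toEquiv δ : 𝓞 K') * E d : 𝓞 K') : K') = e ((δ * d : 𝓞 K) : K) := by
      intro δ
      rw [← hEe, map_mul]
      rfl
    have h3 : ∀ δ : 𝓞 K, ((((E.toEquiv δ : 𝓞 K') * E d) ^ 2 : 𝓞 K') : K') =
        e (((δ * d) ^ 2 : 𝓞 K) : K) := by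
      intro δ
      rw [← hEe, map_pow, map_mul]
      rfl
    simp only [h2, h3, hEe, hal]
  have c2 : Nat.card {d : 𝓞 K // (∀ p, Prime p → ¬ p ^ 3 ∣ d) ∧ m ∣ d - u ∧
        |Algebra.norm ℤ d| ≤ X} =
      Nat.card {d : 𝓞 K' // (∀ p, Prime p → ¬ p ^ 3 ∣ d) ∧ E m ∣ d - E u ∧
        |Algebra.norm ℤ d| ≤ X} := by
    refine Nat.card_congr (E.toEquiv.subtypeEquiv fun d => ?_)
    show _ ↔ (∀ p, Prime p → ¬ p ^ 3 ∣ E d) ∧ E m ∣ E d - E u ∧ |Algebra.norm ℤ (E d)| ≤ X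
    rw [lfree_iff, norm_ringEquiv, ← map_sub, map_dvd_iff E]
  rw [← c1, ← c2]
  exact hX

end Pool.Agent.Lib.MP_1a91b9_ntCC
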