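import Pool.Agent.Lib.MP_1a91b9_ntCC.DX
import Pool.Agent.Lib.MP_1a91b9_ntN.H.GdJ

/-!
# MP_1a91b9_nt (cubic stability), part D: the sizes of the kernels of the four matrices of a label
-/

set_option autoImplicit false
set_option linter.unusedSectionVars false

namespace Pool.Agent.Lib.MP_1a91b9_ntCC

open NumberField Finset Pool.Agent.Lib.MP_1a91b9_ntT Pool.Agent.Lib.MP_1a91b9_ntK
  Pool.Agent.Lib.MP_1a91b9_ntK.Da Pool.Agent.Lib.MP_1a91b9_ntK2 Pool.Agent.Lib.MP_1a91b9_ntK2.D9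
  Pool.Agent.Lib.MP_1a91b9_ntN Pool.Agent.Lib.MP_1a91b9_ntN.H

noncomputable section

/-- A set of primes `S` in the fine class `γ` and a label. -/
structure Cx (P T B : Finset P3) (γ : Bool ⊕ B → ZMod 3) (S : Finset P3) : Prop where
  hB : P ∪ T ⊆ B
  hPT : Disjoint P T
  hSB : Disjoint S B
  hγ : ∀ p ∈ P ∪ T, xB B γ p = ∑ q ∈ S, d3b.s q p
  hα : ∑ q ∈ S ∪ (P ∪ T), eT T q * d3b.a q = αO P T B γ
  hβ : ∑ q ∈ S ∪ (P ∪ T), eT T q * d3b.b q = βO P T B γ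
  hγS : ∀ j, ∑ q ∈ S, (dtB d3b B).a q j = γ j
  hne : S.Nonempty

theorem cx_of {P T B : Finset P3} (hP : P ⊆ B) (hT : T ⊆ B) (hPT : Disjoint P T)
    {γ : Bool ⊕ B → ZMod 3} {X : ℕ} {S : Finset P3} (hS : S ∈ SG (dtB d3b B) (SxT B) γ X)
    (hne : S ≠ ∅) : Cx P T B γ S := by
  obtain ⟨hS4, hS5⟩ := mem_SG.1 hS
  have hSB : Disjoint S B := (mem_SxT.1 hS4).2
  have hB : P ∪ T ⊆ B := union_subset hP hT
  have hSb : Disjoint S (P ∪ T) := disjoint_of_subset_right hB hSB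
  have hST : Disjoint S T := disjoint_of_subset_right hT hSB
  have he1 : ∀ q ∈ S, eT T q = 1 := fun q hq => if_neg (disjoint_left.1 hST hq)
  refine ⟨hB, hPT, hSB, ?_, ?_, ?_, hS5, nonempty_iff_ne_empty.2 hne⟩
  · intro p hp
    rw [xB, dif_pos (hB hp), ← hS5]
    rfl
  · rw [sum_union hSb, αO]
    congr 1
    rw [← hS5]
    exact sum_congr rfl fun q hq => by
      rw [he1 q hq, one_mul]
      rfl
  · rw [sum_union hSb, βO]
    congr 1
    rw [← hS5]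
    exact sum_congr rfl fun q hq => by
      rw [he1 q hq, one_mul]
      rfl

variable {P T B : Finset P3} {γ : Bool ⊕ B → ZMod 3} {S : Finset P3}

theorem Cx.hSb (h : Cx P T B γ S) : Disjoint S (P ∪ T) := disjoint_of_subset_right h.hB h.hSB

theorem Cx.hST (h : Cx P T B γ S) : Disjoint S T :=
  disjoint_of_subset_right (subset_union_right.trans h.hB) h.hSB

theorem Cx.he1 (h : Cx P T B γ S) : ∀ q ∈ S, eT T q = 1 :=
  fun q hq => if_neg (disjoint_left.1 h.hST hq)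

theorem Cx.kB_none (h : Cx P T B γ S) (k j : Fin 3) :
    (dtB d3b B).kB (cO k j P T B) (PO P T B none) (RO k j P T B γ none) S =
      (d3b.tw (k : ZMod 3) (j : ZMod 3)).kc (eT T) 1 (S ∪ (P ∪ T)) := by
  have hE : IsEmpty (Bo none) := ⟨fun u => by simpa using u.2⟩
  exact kB_unbordered d3b_OK.ok.sym (eT_mul _) h.he1 h.hB h.hSb (Bo none) h.hγ

theorem Cx.kB_some (h : Cx P T B γ S) (k j : Fin 3) (κ : ZMod 3) :
    (dtB d3b B).kB (cO k j P T B) (PO P T B (some κ)) (RO k j P T B γ (some κ)) S =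
      d3b.kB (eT T) (k : ZMod 3) (j : ZMod 3) κ (S ∪ (P ∪ T)) := by
  let _ : Unique (Bo (some κ)) := ⟨⟨⟨(), rfl⟩⟩, fun u => Subsingleton.elim _ _⟩
  exact kB_bordered d3b_OK.ok.sym (eT_mul _) h.he1 h.hB h.hSb (Bo (some κ)) h.hγ

theorem xo_nt {k j : Fin 3} {ρ : Option (ZMod 3)}
    (ht : ¬ Triv (cO k j P T B) (PO P T B ρ) (RO k j P T B γ ρ) γ) :
    xo k j P T B γ ρ S = (dtB d3b B).kB (cO k j P T B) (PO P T B ρ) (RO k j P T B γ ρ) S :=
  if_neg ht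

theorem Cx.xo_t (h : Cx P T B γ S) {k j : Fin 3} {ρ : Option (ZMod 3)}
    (ht : Triv (cO k j P T B) (PO P T B ρ) (RO k j P T B γ ρ) γ) :
    (dtB d3b B).kB (cO k j P T B) (PO P T B ρ) (RO k j P T B γ ρ) S =
      3 * xo k j P T B γ ρ S := by
  have h1 : xo k j P T B γ ρ S = kz (dtB d3b B) (cO k j P T B) (PO P T B ρ)
    (RO k j P T B γ ρ) S := if_pos ht
  rw [h1]
  obtain ⟨γ', h2, h3⟩ := ht
  refine kz_mul _ (nonempty_iff_ne_empty.1 h.hne) h2 fun e => ?_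
  simp only [h.hγS]
  exact h3 e

/-- `j ≠ 0`, no border -/
theorem Cx.xo_none_j (h : Cx P T B γ S) (k : Fin 3) {j : Fin 3} (hj : (j : ZMod 3) ≠ 0) :
    xo k j P T B γ none S = (d3b.tw (k : ZMod 3) (j : ZMod 3)).kc (eT T) 1 (S ∪ (P ∪ T)) := by
  rw [← h.kB_none]
  exact xo_nt (not_triv_s hj _ γ)

/-- `j ≠ 0`, with border -/
theorem Cx.xo_some_j (h : Cx P T B γ S) (k : Fin 3) {j : Fin 3} (hj : (j : ZMod 3) ≠ 0)
    (κ : ZMod 3) : xo k j P T B γ (some κ) S =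
      d3b.kB (eT T) (k : ZMod 3) (j : ZMod 3) κ (S ∪ (P ∪ T)) := by
  rw [← h.kB_some]
  exact xo_nt (not_triv_s hj _ γ)

/-- `k ≠ 0`, no border -/
theorem Cx.xo_none_k (h : Cx P T B γ S) {k : Fin 3} (hk : (k : ZMod 3) ≠ 0) (j : Fin 3) :
    xo k j P T B γ none S = (d3b.tw (k : ZMod 3) (j : ZMod 3)).kc (eT T) 1 (S ∪ (P ∪ T)) := by
  rw [← h.kB_none]
  have hE : IsEmpty (Bo none) := ⟨fun u => by simpa using u.2⟩
  exact xo_nt (not_triv_t hk hE _ γ)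

/-- `k = j = 0`, no border -/
theorem Cx.xo_none_0 (h : Cx P T B γ S) :
    (d3b.tw 0 0).kc (eT T) 1 (S ∪ (P ∪ T)) = 3 * xo 0 0 P T B γ none S := by
  have hE : IsEmpty (Bo none) := ⟨fun u => by simpa using u.2⟩
  have h1 : Triv (cO 0 0 P T B) (PO P T B none) (RO 0 0 P T B γ none) γ :=
    triv_zero h.hB fun u => (hE.false u).elim
  exact (h.kB_none 0 0).symm.trans (h.xo_t h1)

/-- `k = j = 0`, `α = 0`, with border -/
theorem Cx.xo_some_0 (h : Cx P T B γ S) (hα : αO P T B γ = 0) (κ : ZMod 3) :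
    d3b.kB (eT T) 0 0 κ (S ∪ (P ∪ T)) = 3 * xo 0 0 P T B γ (some κ) S := by
  have h1 : Triv (cO 0 0 P T B) (PO P T B (some κ)) (RO 0 0 P T B γ (some κ)) γ :=
    triv_zero h.hB fun _ => hα
  exact (h.kB_some 0 0 κ).symm.trans (h.xo_t h1)

end

end Pool.Agent.Lib.MP_1a91b9_ntCC
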