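import Pool.Agent.Lib.MP_1a91b9_ntN.DJ.Gd
import Pool.Agent.Lib.MP_1a91b9_ntCC.DDef

/-!
# MP_1a91b9_nt (cubic stability), part D: the four matrices of a label

`ρ = none`: the matrix without border; `ρ = some κ`: the bordered matrix with the corner `κ`.
-/

set_option autoImplicit false
set_option linter.unusedSectionVars false

namespace Pool.Agent.Lib.MP_1a91b9_ntCC

open NumberField Finset Pool.Agent.Lib.MP_1a91b9_ntT Pool.Agent.Lib.MP_1a91b9_ntK
  Pool.Agent.Lib.MP_1a91b9_ntK.Da Pool.Agent.Lib.MP_1a91b9_ntK2 Pool.Agent.Lib.MP_1a91b9_ntK2.D9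
  Pool.Agent.Lib.MP_1a91b9_ntN

noncomputable section

/-- The rows of the border: one or none. -/
abbrev Bo (ρ : Option (ZMod 3)) : Type := {_u : Unit // ρ.isSome = true}

/-- The class vector of the label `(k, j, P, T)`. -/
abbrev cO (k j : Fin 3) (P T B : Finset P3) : Bool ⊕ B → ZMod 3 :=
  cJ (eT T) (k : ZMod 3) (j : ZMod 3) B (P ∪ T)

/-- The columns of the matrix `ρ` of the label. -/
abbrev PO (P T B : Finset P3) (ρ : Option (ZMod 3)) :
    Bool ⊕ B → ↥(P ∪ T) ⊕ Bo ρ → ZMod 3 := PJ (eT T) B (P ∪ T) (Bo ρ)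

/-- The corner of the matrix `ρ` of the label. -/
abbrev RO (k j : Fin 3) (P T B : Finset P3) (γ : Bool ⊕ B → ZMod 3) (ρ : Option (ZMod 3)) :
    Matrix (↥(P ∪ T) ⊕ Bo ρ) (↥(P ∪ T) ⊕ Bo ρ) (ZMod 3) :=
  RJ d3b (eT T) (k : ZMod 3) (j : ZMod 3) (ρ.getD 0) B (P ∪ T) (Bo ρ) γ

open Classical in
/-- The size of the kernel of the matrix `ρ` of the label, divided by `3` if there is a trivial vector. -/
def xo (k j : Fin 3) (P T B : Finset P3) (γ : Bool ⊕ B → ZMod 3) (ρ : Option (ZMod 3))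
    (S : Finset P3) : ℕ :=
  if Triv (cO k j P T B) (PO P T B ρ) (RO k j P T B γ ρ) γ then
    kz (dtB d3b B) (cO k j P T B) (PO P T B ρ) (RO k j P T B γ ρ) S
  else (dtB d3b B).kB (cO k j P T B) (PO P T B ρ) (RO k j P T B γ ρ) S

/-- The class `α` of the label with the primes `S` of the fine class `γ`. -/
def αO (P T B : Finset P3) (γ : Bool ⊕ B → ZMod 3) : ZMod 3 :=
  γ (Sum.inl false) + ∑ p ∈ P ∪ T, eT T p * d3b.a p

/-- The class `β` of the label with the primes `S` of the fine class `γ`. -/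
def βO (P T B : Finset P3) (γ : Bool ⊕ B → ZMod 3) : ZMod 3 :=
  γ (Sum.inl true) + ∑ p ∈ P ∪ T, eT T p * d3b.b p

open Classical in
/-- The matrix which decides whether `D` is good. -/
def r0 (k j : Fin 3) (α β : ZMod 3) : Option (ZMod 3) :=
  if j = 1 then some (k : ZMod 3) else if j = 0 ∧ k = 0 ∧ α = 0 then some β else none

open Classical in
/-- The matrix which decides whether `D ^ 2` is good. -/
def r1 (k j : Fin 3) (α β : ZMod 3) : Option (ZMod 3) :=
  if j = 2 then some (-(k : ZMod 3)) else if j = 0 ∧ k = 0 ∧ α = 0 then some (-β) else none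

end

end Pool.Agent.Lib.MP_1a91b9_ntCC
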