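import Pool.Agent.Lib.MP_1a91b9_ntZ.AllB
import Pool.Agent.Lib.MP_1a91b9_ntCC.DRk

/-!
# MP_1a91b9_nt (cubic stability), part D: at least `t` of the pairs of twists by `δ d` and by its square have the
towers property
-/

set_option autoImplicit false

namespace Pool.Agent.Lib.MP_1a91b9_ntCC

open NumberField IsDedekindDomain WeierstrassCurve Module
open Pool.Agent.Lib.MP_1a91b9_ntJ Pool.Agent.Lib.MP_1a91b9_ntZ

/-- `Sep3a` for `a` times a cube. -/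
private theorem Den_sep {K : Type} [Field K] [NumberField K] {F : Type} [Field F] [Algebra K F]
    {a α t : K} (ht : t ≠ 0) (hα : α = a * t ^ 3) {Δ : Finset (𝓞 K)} (h : Sep3a F a Δ) :
    Sep3a F α Δ := by
  intro δ hδ δ' hδ' hne i x hx hx'
  have ht' : algebraMap K F t ≠ 0 := by rwa [map_ne_zero]
  have hti : algebraMap K F t ^ i ≠ 0 := pow_ne_zero i ht'
  refine h δ hδ δ' hδ' hne i (x / algebraMap K F t ^ i) (div_ne_zero hx hti) ?_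
  have e1 : algebraMap K F (α ^ i * (δ : K)) =
      (algebraMap K F t ^ i) ^ 3 * algebraMap K F (a ^ i * (δ : K)) := by
    rw [hα]
    simp only [map_mul, map_pow]
    ring
  rw [div_pow, div_mul_eq_mul_div, hx', e1, mul_div_cancel_left₀ _ (pow_ne_zero 3 hti)]

/-- **The density.** Model: `cub_bin` in `ntZ/AllB` (`star_three` twice, with `d` and with `δ d ^ 2`). -/
theorem cs_bin (K : Type) [Field K] [NumberField K] (hK : finrank ℚ K = 2)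
    (h3 : ∃ s : K, s ^ 2 = -3) {a : K} (ha : a ≠ 0) (F : Type) [Field F] [NumberField F]
    [Algebra K F]
    (hF : IntermediateField.adjoin K {x : F | ∃ c : K, x ^ 3 = algebraMap K F c} = ⊤)
    (n : ℕ) (m u : 𝓞 K) (hm : m ∣ 3 ^ n) (hu : ∀ p, Prime p → ¬ (p ^ 3 ∣ m ∧ p ^ 3 ∣ u))
    (T' : Finset (𝓞 K)) (h0 : 0 ∉ T') (hsep : Sep3a F a T') (t : ℕ) (ε : ℝ) (hε : 0 < ε) :
    ∀ᶠ X : ℝ in Filter.atTop,
      bn T'.card t ((∏' i : ℕ, (1 + 1 / (3 : ℝ) ^ (i + 1))⁻¹) ^ (2 * Module.finrank K F)) - ε ≤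
      (Nat.card {d : 𝓞 K // (∀ x, x ^ 3 ∣ d → IsUnit x) ∧ m ∣ d - u ∧ |Algebra.norm ℤ d| ≤ X ∧
        AtF T' t fun δ =>
          TowP K (⟨0, 0, algebraMap K F (a * ((δ : K) * (d : K))), 0, 0⟩ : WeierstrassCurve F) ∧
          TowP K (⟨0, 0, algebraMap K F (a * ((δ : K) * (d : K)) ^ 2), 0, 0⟩ :
            WeierstrassCurve F)} : ℝ) /
        (Nat.card {d : 𝓞 K // (∀ x, x ^ 3 ∣ d → IsUnit x) ∧ m ∣ d - u ∧
          |Algebra.norm ℤ d| ≤ X} : ℝ) := by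
  obtain ⟨s, hs⟩ := h3
  have htc : IsTotallyComplex K := tc_of_sq (D := -3) (by norm_num) (s := s) (by
    rw [hs]
    push_cast
    rfl)
  obtain ⟨e⟩ := exists_e6 hK hs
  obtain ⟨e'⟩ := Pool.Agent.Lib.MP_1a91b9_ntN.exists_iso36
  obtain ⟨f, -⟩ : ∃ f : Pool.Agent.Lib.MP_1a91b9_ntT.K ≃+* K, True :=
    ⟨(e' : Pool.Agent.Lib.MP_1a91b9_ntT.K ≃+* _).trans e, trivial⟩
  obtain ⟨E, hE⟩ : ∃ E : 𝓞 (Pool.Agent.Lib.MP_1a91b9_ntT.K) ≃+* 𝓞 K,
    E = RingOfIntegers.mapRingEquiv f := ⟨_, rfl⟩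
  have hpir : IsPrincipalIdealRing (𝓞 K) := Pool.Agent.Lib.MP_1a91b9_ntI.pir_of f
    Pool.Agent.Lib.MP_1a91b9_ntH.pidO
  have hp₀ : Prime (E Pool.Agent.Lib.MP_1a91b9_ntH.s3) := (MulEquiv.prime_iff E.toMulEquiv).2
    Pool.Agent.Lib.MP_1a91b9_ntH.prime_s3
  obtain ⟨α, t₀, hα, ht₀, hαt⟩ := exists_cube_mul ha
  have ht₀K : (t₀ : K) ≠ 0 := by exact_mod_cast ht₀
  have hsep' := Den_sep ht₀K hαt hsep
  obtain ⟨α', rfl⟩ := E.surjective α
  have hα' : α' ≠ 0 := by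
    rintro rfl
    exact hα (map_zero E)
  have H := KB2.equiv f (M' := fun a b => a = m ∧ b = u) (fun m' u' h => by
    have h1 := cls_tr f (a := 3 ^ n) (by rw [Nat.cast_pow, Nat.cast_ofNat]; exact hm) hu h.1 h.2
    rw [Nat.cast_pow, Nat.cast_ofNat] at h1
    exact ⟨⟨n, h1.1⟩, h1.2⟩) (kb2_main hα')
  rw [← hE] at H
  have h := H F hF m u ⟨rfl, rfl⟩ T' h0 hsep' t ε hε
  simp only [free_iff three_ne_zero hp₀]
  filter_upwards [h] with X hX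
  refine hX.trans (div_le_div_of_nonneg_right (Nat.cast_le.2 ?_) (Nat.cast_nonneg _))
  refine card_le_of ((finite_norm hK X).subset fun d hd => hd.2.2.1) ?_
  rintro d ⟨h1, h2, h3, h4⟩
  refine ⟨h1, h2, h3, h4.mono fun δ hδ h5 => ?_⟩
  have hd : δ * d ≠ 0 := mul_ne_zero (fun h => h0 (h ▸ hδ)) (ne_zero_of_free three_ne_zero hp₀ h1)
  have h6 := star_three e hF hs hα ht₀ hαt hd h5.1
  have h7 := star_three e hF hs hα ht₀ hαt (pow_ne_zero 2 hd) h5.2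
  rw [show ((δ * d : 𝓞 K) : K) = (δ : K) * (d : K) from rfl] at h6
  rw [show (((δ * d) ^ 2 : 𝓞 K) : K) = ((δ : K) * (d : K)) ^ 2 from rfl] at h7
  exact ⟨h6, h7⟩

end Pool.Agent.Lib.MP_1a91b9_ntCC
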