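import Pool.Agent.Lib.MP_1a91b9_ntCC.RFin
import Pool.Agent.Lib.MP_1a91b9_ntCC.Base3

/-!
# MP_1a91b9_nt (cubic stability): the curve `y² + 3 y = x³` over the fields `K(∛e)`
-/

set_option autoImplicit false

namespace Pool.Agent.Lib.MP_1a91b9_ntCC

open NumberField IsDedekindDomain WeierstrassCurve
open Pool.Agent.Lib.MP_1a91b9_ntC.Sh (RelQ)

/-- If no point is new then the group of points stays finite. -/
theorem finite_of_nonew {F F' : Type} [Field F] [Field F'] [Algebra F F'] {W : WeierstrassCurve F}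
    (hf : Finite W.toAffine.Point)
    (h : ∀ x' y' : F', (W.map (algebraMap F F')).toAffine.Equation x' y' →
      ∃ x y : F, algebraMap F F' x = x' ∧ algebraMap F F' y = y') :
    Finite (W.map (algebraMap F F')).toAffine.Point := by
  have inj := (algebraMap F F').injective
  let f : W.toAffine.Point → (W.map (algebraMap F F')).toAffine.Point := fun P =>
    match P with
    | .zero => .zero
    | .some x y hP => .some (algebraMap F F' x) (algebraMap F F' y)
        ((WeierstrassCurve.Affine.map_nonsingular W inj x y).2 hP)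
  refine Finite.of_surjective f ?_
  rintro (_ | ⟨x', y', hP⟩)
  · exact ⟨.zero, rfl⟩
  · obtain ⟨x, y, rfl, rfl⟩ := h x' y' hP.1
    exact ⟨.some x y ((WeierstrassCurve.Affine.map_nonsingular W inj x y).1 hP), rfl⟩

/-- The condition on the ramification is empty for `L = F`. -/
theorem ramV_self (K : Type) [Field K] [NumberField K] {F : Type} [Field F] [NumberField F]
    [Algebra K F] (V : WeierstrassCurve F) (q : ℕ) :
    Pool.Agent.Lib.MP_1a91b9_ntCS.S.RamV K V q F := by
  intro v w hvw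
  exfalso
  have h0 : v.asIdeal ≤ w.asIdeal ^ 2 := fun x hx => hvw (Ideal.mem_map_of_mem _ hx)
  have h1 : v.asIdeal = w.asIdeal :=
    v.isMaximal.eq_of_le w.isPrime.ne_top (h0.trans (Ideal.pow_le_self two_ne_zero))
  rw [h1] at h0
  exact absurd (Ideal.pow_lt_self w.asIdeal w.ne_bot w.isPrime.ne_top 2 le_rfl)
    (not_lt_of_ge h0)

/-- **Order and rank zero over `K(∛e)` for the curve `y² + 3 y = x³`.** -/
theorem rbase {K : Type} [Field K] [NumberField K] (hK : Module.finrank ℚ K = 2)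
    (h3 : ∃ s : K, s ^ 2 = -3) {F : Type} [Field F] [NumberField F] [Algebra K F]
    (hF : Module.finrank K F = 1) {e : K} (h : StbC (3 : K) F e) (F' : Type) [Field F']
    [NumberField F'] [Algebra F F'] (x : F') (hx : x ^ 3 = algebraMap F F' (algebraMap K F e))
    (hgen : IntermediateField.adjoin F {x} = ⊤) :
    (∃ g : ℂ → ℂ, Differentiable ℂ g ∧ (∀ s : ℂ, 3 / 2 < s.re →
      g s = (((⟨0, 0, 3, 0, 0⟩ : WeierstrassCurve K).map (algebraMap K F)).map
        (algebraMap F F')).LSeries s) ∧ g 1 ≠ 0) ∧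
    Finite (((⟨0, 0, 3, 0, 0⟩ : WeierstrassCurve K).map (algebraMap K F)).map
        (algebraMap F F')).toAffine.Point := by
  have hFQ : Module.finrank ℚ F = 2 := by
    rw [← Module.finrank_mul_finrank ℚ K F, hK, hF]
  have h3F : ∃ s : F, s ^ 2 = -3 := by
    obtain ⟨s, hs⟩ := h3
    refine ⟨algebraMap K F s, ?_⟩
    rw [← map_pow, hs, map_neg, map_ofNat]
  obtain ⟨⟨g0, d0, l0, n0⟩, hfin⟩ := base3 hFQ h3F
  have e1 : (⟨0, 0, 3, 0, 0⟩ : WeierstrassCurve K).map (algebraMap K F) =
      (⟨0, 0, 3, 0, 0⟩ : WeierstrassCurve F) :=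
    WeierstrassCurve.ext (map_zero _) (map_zero _) (map_ofNat _ 3) (map_zero _) (map_zero _)
  obtain ⟨hN, S, hS⟩ := h
  refine ⟨?_, ?_⟩
  · obtain ⟨q, hq1, hq⟩ := Nat.exists_infinite_primes (S.sup id + 1)
    have hqS : q ∉ S := fun h => by
      have h1 : id q ≤ S.sup id := Finset.le_sup h
      rw [id] at h1
      omega
    have _ : Fact q.Prime := ⟨hq⟩
    obtain ⟨⟨g, g1, g2, g3, -⟩, -⟩ := hS q hqS 0 F F (by rw [pow_zero, Module.finrank_self])
      (ramV_self K _ q) (ramV_self K _ q) F' x hx hgen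
    refine ⟨fun s => g0 s * g s, d0.mul g1, fun s hs => ?_, mul_ne_zero n0 g2⟩
    have h5 := g3 s hs
    have e2 : ((⟨0, 0, 3, 0, 0⟩ : WeierstrassCurve K).map (algebraMap K F)).map
        (algebraMap F F) = (⟨0, 0, 3, 0, 0⟩ : WeierstrassCurve F) := by
      rw [e1]
      exact WeierstrassCurve.map_id _
    rw [e2] at h5
    change g0 s * g s = _
    rw [e1, h5, l0 s hs]
  · have h1 := hN F' x hx hgen
    rw [e1] at h1 ⊢
    exact finite_of_nonew hfin h1

end Pool.Agent.Lib.MP_1a91b9_ntCC
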