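import Pool.Agent.Lib.MP_1a91b9_ntCC.RL

/-!
# The L-series over a cubic extension, any number field with a third root of unity
-/

set_option autoImplicit false

namespace Pool.Agent.Lib.MP_1a91b9_ntCC

open NumberField WeierstrassCurve
open Pool.Agent.Lib.MP_1a91b9_ntN (OddT K3 six3 Wu)

/-- a number field with a primitive third root of unity contains `K3` -/
theorem exists_emb3 {L : Type} [Field L] [NumberField L] (hz : ∃ z : L, z ^ 2 + z + 1 = 0) :
    Nonempty (K3 →+* L) := by
  obtain ⟨z, hz⟩ := hz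
  have hz1 : z ≠ 1 := by
    rintro rfl
    have h3 : (3 : L) ≠ 0 := by norm_num
    apply h3
    linear_combination hz
  have hz3 : z ^ 3 = 1 := by linear_combination (z - 1) * hz
  have hp : IsPrimitiveRoot z 3 := by
    rw [← orderOf_eq_prime hz3 hz1]
    exact IsPrimitiveRoot.orderOf z
  exact ⟨((Pool.Agent.Lib.MP_1a91b9_ntT.om_spec.embeddingsEquivPrimitiveRoots L
    (Polynomial.cyclotomic.irreducible_rat (by norm_num))).symm
    ⟨z, (mem_primitiveRoots (by norm_num)).2 hp⟩ : K3 →ₐ[ℚ] L).toRingHom⟩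

section
attribute [local instance 5000] Pool.Agent.Lib.MP_1a91b9_ntN.cd3

/-- **The L-series over a cubic extension.** -/
theorem ql3 {L L' : Type} [Field L] [NumberField L] [Field L'] [NumberField L'] [Algebra L L']
    (hz : ∃ z : L, z ^ 2 + z + 1 = 0) (o : OddT L) {e a : L} {y : L'} (ha : a ≠ 0)
    (hy : y ^ 3 = algebraMap L L' e) (hn : ¬ ∃ z : L, algebraMap L L' z = y)
    (hg : ∀ z : L', ∃ α β γ : L,
      z = algebraMap L L' α + algebraMap L L' β * y + algebraMap L L' γ * y ^ 2)
    {s : ℂ} (hs : 3 / 2 < s.re) :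
    (⟨0, 0, algebraMap L L' a, 0, 0⟩ : WeierstrassCurve L').LSeries s =
      (⟨0, 0, a, 0, 0⟩ : WeierstrassCurve L).LSeries s *
        ((⟨0, 0, e * a, 0, 0⟩ : WeierstrassCurve L).LSeries s *
          (⟨0, 0, e ^ 2 * a, 0, 0⟩ : WeierstrassCurve L).LSeries s) := by
  obtain ⟨f⟩ := exists_emb3 hz
  let _ : Algebra K3 L := f.toAlgebra
  let _ : Algebra K3 L' := ((algebraMap L L').comp f).toAlgebra
  have _ : IsScalarTower K3 L L' := IsScalarTower.of_algebraMap_eq fun _ => rfl
  have h := lser_cub six3 hy hn hg ha o hs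
  rw [← mul_assoc]
  exact h

end

end Pool.Agent.Lib.MP_1a91b9_ntCC
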