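import Mathlib

/-!
# A group with two commuting automorphisms of order three; classes modulo `3`
-/

set_option autoImplicit false

namespace Pool.Agent.Lib.MP_1a91b9_ntCC

theorem fix3 {A : Type*} [AddCommGroup A] (ρ μ : A →+ A) (hρ : ∀ a, ρ (ρ (ρ a)) = a)
    (hμ : ∀ a, μ (μ (μ a)) = a) (hc : ∀ a, ρ (μ a) = μ (ρ a)) (hT : ∀ a, μ a = a → ρ a = a)
    (h1 : ∀ a, ρ a = μ a → μ a = a) (h2 : ∀ a, ρ a = μ (μ a) → μ a = a) (a : A) :
    ρ (3 • a) = 3 • a := by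
  have hψ : ∀ b : A, ρ (b + μ b + μ (μ b)) = b + μ b + μ (μ b) := by
    intro b
    apply hT
    simp only [map_add, hμ]
    abel
  have hP0 : ρ (a + ρ a + ρ (ρ a)) = a + ρ a + ρ (ρ a) := by
    simp only [map_add, hρ]
    abel
  have hP1 : ρ (a + μ (μ (ρ a)) + μ (ρ (ρ a))) = a + μ (μ (ρ a)) + μ (ρ (ρ a)) := by
    apply hT
    apply h1
    simp only [map_add, hc, hρ, hμ]
    abel
  have hP2 : ρ (a + μ (ρ a) + μ (μ (ρ (ρ a)))) = a + μ (ρ a) + μ (μ (ρ (ρ a))) := by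
    apply hT
    apply h2
    simp only [map_add, hc, hρ, hμ]
    abel
  have e : 3 • a = (a + ρ a + ρ (ρ a)) + (a + μ (μ (ρ a)) + μ (ρ (ρ a))) +
      (a + μ (ρ a) + μ (μ (ρ (ρ a)))) - (ρ a + μ (ρ a) + μ (μ (ρ a))) -
      (ρ (ρ a) + μ (ρ (ρ a)) + μ (μ (ρ (ρ a)))) := by
    abel
  rw [e, map_sub, map_sub, map_add, map_add, hP0, hP1, hP2, hψ, hψ]

theorem reps3 {A : Type} [AddCommGroup A] (hA : AddGroup.FG A) :
    ∃ s : Set A, s.Finite ∧ ∀ x : A, ∃ r ∈ s, ∃ y : A, x = r + 3 • y := by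
  have h1 : Module.Finite ℤ A := Module.Finite.iff_addGroup_fg.2 hA
  let N : Submodule ℤ A := LinearMap.range (LinearMap.lsmul ℤ A 3)
  have h2 : Finite (A ⧸ N) := by
    refine Module.finite_of_fg_torsion _ ?_
    intro x
    refine ⟨⟨3, mem_nonZeroDivisors_of_ne_zero three_ne_zero⟩, ?_⟩
    induction x using Submodule.Quotient.induction_on with
    | H x =>
      show (3 : ℤ) • (Submodule.Quotient.mk x : A ⧸ N) = 0
      rw [← Submodule.Quotient.mk_smul, Submodule.Quotient.mk_eq_zero]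
      exact ⟨x, rfl⟩
  refine ⟨Set.range fun q : A ⧸ N => q.out, Set.finite_range _, fun x => ?_⟩
  refine ⟨_, ⟨Submodule.Quotient.mk x, rfl⟩, ?_⟩
  have h3 : (Submodule.Quotient.mk x : A ⧸ N) =
      Submodule.Quotient.mk (Submodule.Quotient.mk x : A ⧸ N).out := by
    exact (Quotient.out_eq _).symm
  rw [Submodule.Quotient.eq] at h3
  obtain ⟨y, hy⟩ := h3
  refine ⟨y, ?_⟩
  have hy' : (3 : ℤ) • y = x - (Submodule.Quotient.mk x : A ⧸ N).out := hy
  have h4 : 3 • y = x - (Submodule.Quotient.mk x : A ⧸ N).out := by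
    rw [← hy', ← natCast_zsmul]
    norm_num
  rw [h4]
  abel

end Pool.Agent.Lib.MP_1a91b9_ntCC
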