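import Pool.Agent.Lib.MP_1a91b9_nt.TwistRank
import Pool.Agent.Lib.MP_1a91b9_ntN.F.F5c

/-!
# The automorphism of order three of `y² + d y = x³`
-/

set_option autoImplicit false

namespace Pool.Agent.Lib.MP_1a91b9_ntCC

open WeierstrassCurve Pool.Agent.Lib.MP_1a91b9_nt

universe u

/-- the curve `y² + d y = x³` over `L`, `d` in `K` -/
abbrev Ed {K : Type u} (L : Type u) [Field K] [Field L] [Algebra K L] (d : K) : WeierstrassCurve L :=
  (⟨0, 0, d, 0, 0⟩ : WeierstrassCurve K).baseChange L

private theorem RM_mu {K L : Type u} [Field K] [Field L] [Algebra K L] [DecidableEq L] {v : L}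
    (hv2 : v ^ 2 + v + 1 = 0) (hv1 : v ≠ 1) (d : K) (S : WeierstrassCurve K)
    (hS : S = ⟨0, 0, d, 0, 0⟩) :
    ∃ μ : (S.baseChange L).toAffine.Point →+ (S.baseChange L).toAffine.Point,
      (∀ x y h, ∃ h', μ (Affine.Point.some x y h) = Affine.Point.some (v * x) y h') ∧
      (∀ P, μ (μ (μ P)) = P) ∧
      (∀ P, μ P = P → P = 0 ∨ ∃ (y : K) (h : _), P = Affine.Point.some 0 (algebraMap K L y) h) ∧
      {P | μ P = P}.Finite := by
  have hv3 : v ^ 3 = 1 := by linear_combination (v - 1) * hv2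
  have hv0 : v ≠ 0 := by
    rintro rfl
    rw [zero_pow three_ne_zero] at hv3
    exact zero_ne_one hv3
  -- the automorphism of the curve
  obtain ⟨μ, hμ⟩ := twist_equiv (S.baseChange L) (S.baseChange L)
    ⟨Units.mk0 (v ^ 2) (pow_ne_zero 2 hv0), 0, 0, 0⟩ (by
      rw [hS]
      refine WeierstrassCurve.ext ?_ ?_ ?_ ?_ ?_
      · simp [variableChange_a₁, WeierstrassCurve.baseChange]
      · simp [variableChange_a₂, WeierstrassCurve.baseChange]
      · rw [variableChange_a₃]
        change algebraMap K L d = _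
        have e : (v ^ 2) ^ 3 = 1 := by linear_combination (v ^ 3 + 1) * hv3
        simp [WeierstrassCurve.baseChange, e]
      · simp [variableChange_a₄, WeierstrassCurve.baseChange]
      · simp [variableChange_a₆, WeierstrassCurve.baseChange])
  have hμ' : ∀ (X Y : L) (h : (S.baseChange L).toAffine.Nonsingular X Y), ∃ h',
      μ (WeierstrassCurve.Affine.Point.some X Y h) =
        WeierstrassCurve.Affine.Point.some (v * X) Y h' := by
    intro X Y h
    obtain ⟨h', hh⟩ := hμ X Y h
    have e1 : (((⟨Units.mk0 (v ^ 2) (pow_ne_zero 2 hv0), 0, 0, 0⟩ :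
        WeierstrassCurve.VariableChange L).u : Lˣ) : L) ^ 2 * X + 0 = v * X := by
      show (v ^ 2) ^ 2 * X + 0 = v * X
      linear_combination (v * X) * hv3
    have e2 : (((⟨Units.mk0 (v ^ 2) (pow_ne_zero 2 hv0), 0, 0, 0⟩ :
        WeierstrassCurve.VariableChange L).u : Lˣ) : L) ^ 3 * Y +
        (((⟨Units.mk0 (v ^ 2) (pow_ne_zero 2 hv0), 0, 0, 0⟩ :
        WeierstrassCurve.VariableChange L).u : Lˣ) : L) ^ 2 * 0 * X + 0 = Y := by
      show (v ^ 2) ^ 3 * Y + (v ^ 2) ^ 2 * 0 * X + 0 = Y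
      linear_combination (Y * (v ^ 3 + 1)) * hv3
    have h'' : (S.baseChange L).toAffine.Nonsingular (v * X) Y :=
      Eq.mp (congrArg₂ (S.baseChange L).toAffine.Nonsingular e1 e2) h'
    refine ⟨h'', ?_⟩
    rw [hh, WeierstrassCurve.Affine.Point.some.injEq]
    exact ⟨e1, e2⟩
  have hμ3 : ∀ P, μ (μ (μ P)) = P := by
    intro P
    rcases P with _ | ⟨X, Y, h⟩
    · show μ (μ (μ 0)) = 0
      rw [map_zero, map_zero, map_zero]
    · obtain ⟨g1, e1⟩ := hμ' X Y h
      obtain ⟨g2, e2⟩ := hμ' _ _ g1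
      obtain ⟨g3, e3⟩ := hμ' _ _ g2
      rw [e1, e2, e3, WeierstrassCurve.Affine.Point.some.injEq]
      exact ⟨by linear_combination X * hv3, rfl⟩
  have ha : ∀ Y : L, (S.baseChange L).toAffine.Equation 0 Y ↔
      Y ^ 2 + algebraMap K L d * Y = 0 := by
    intro Y
    rw [WeierstrassCurve.Affine.equation_iff]
    have e1 : (S.baseChange L).toAffine.a₁ = 0 := by
      change algebraMap K L S.a₁ = 0
      rw [hS, map_zero]
    have e3 : (S.baseChange L).toAffine.a₃ = algebraMap K L d := by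
      change algebraMap K L S.a₃ = _
      rw [hS]
    have e6 : (S.baseChange L).toAffine.a₆ = 0 := by
      change algebraMap K L S.a₆ = 0
      rw [hS, map_zero]
    rw [e1, e3, e6]
    constructor
    · intro h
      linear_combination h
    · intro h
      linear_combination h
  have hk : ∀ P, μ P = P → P = 0 ∨ ∃ (y : K) (h : _), (y = 0 ∨ y = -d) ∧
      P = Affine.Point.some 0 (algebraMap K L y) h := by
    intro P hP'
    rcases P with _ | ⟨X, Y, h⟩
    · exact Or.inl rfl
    · right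
      obtain ⟨g1, e1⟩ := hμ' X Y h
      rw [e1, WeierstrassCurve.Affine.Point.some.injEq] at hP'
      have hX : X = 0 := by
        have h3 : (v - 1) * X = 0 := by linear_combination hP'.1
        exact (mul_eq_zero.1 h3).resolve_left (sub_ne_zero.2 hv1)
      subst hX
      have h4 : Y * (Y + algebraMap K L d) = 0 := by
        linear_combination (ha Y).1 h.1
      rcases mul_eq_zero.1 h4 with h5 | h5
      · have h6 : Y = algebraMap K L 0 := by rw [map_zero, h5]
        subst h6
        exact ⟨0, h, Or.inl rfl, rfl⟩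
      · have h6 : Y = algebraMap K L (-d) := by
          rw [map_neg]
          exact eq_neg_of_add_eq_zero_left h5
        subst h6
        exact ⟨-d, h, Or.inr rfl, rfl⟩
  refine ⟨μ.toAddMonoidHom, hμ', hμ3, fun P hP => ?_, ?_⟩
  · rcases hk P hP with h | ⟨y, h, -, e⟩
    · exact Or.inl h
    · exact Or.inr ⟨y, h, e⟩
  · let _ : ∀ Y : K, Decidable ((S.baseChange L).toAffine.Nonsingular 0 (algebraMap K L Y)) :=
      fun _ => Classical.dec _
    let g : K → (S.baseChange L).toAffine.Point := fun Y =>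
      if h : (S.baseChange L).toAffine.Nonsingular 0 (algebraMap K L Y) then
        WeierstrassCurve.Affine.Point.some 0 (algebraMap K L Y) h else 0
    refine Set.Finite.subset (((Set.toFinite {0, -d}).image g).union (Set.toFinite {0}))
      fun P hP => ?_
    rcases hk P hP with h | ⟨y, h, hy, e⟩
    · exact Or.inr h
    · left
      refine ⟨y, hy, ?_⟩
      rw [e]
      show (if h : (S.baseChange L).toAffine.Nonsingular 0 (algebraMap K L y) then
        WeierstrassCurve.Affine.Point.some 0 (algebraMap K L y) h else 0) = _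
      rw [dif_pos h]

private theorem RM_three {A : Type u} [AddCommGroup A] (μ : A →+ A) (hμ : ∀ a, μ (μ (μ a)) = a)
    (hk : {a : A | μ a = a}.Finite) (R : A) : {a : A | (3 : ℕ) • a = R}.Finite := by
  obtain ⟨D, hD⟩ : ∃ D : A →+ A, D = AddMonoidHom.id A - μ := ⟨_, rfl⟩
  obtain ⟨D', hD'⟩ : ∃ D : A →+ A, D = AddMonoidHom.id A - μ.comp μ := ⟨_, rfl⟩
  have eD : ∀ a, D a = a - μ a := fun a => by rw [hD]; rfl
  have eD' : ∀ a, D' a = a - μ (μ a) := fun a => by rw [hD']; rfl
  have kD : {a : A | D a = 0}.Finite := by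
    refine hk.subset fun a ha => ?_
    have h3 : D a = 0 := ha
    rw [eD, sub_eq_zero] at h3
    exact h3.symm
  have kD' : {a : A | D' a = 0}.Finite := by
    refine hk.subset fun a ha => ?_
    have h3 : D' a = 0 := ha
    rw [eD', sub_eq_zero] at h3
    have h4 := congrArg μ h3
    rw [hμ] at h4
    exact h4
  have h4 := MP_1a91b9_ntN.finite_pre D' kD'
    (MP_1a91b9_ntN.finite_pre D kD (hk.image fun t => R - t))
  refine h4.subset fun a ha => ?_
  have ha' : (3 : ℕ) • a = R := ha
  refine ⟨a + μ a + μ (μ a), ?_, ?_⟩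
  · show μ (a + μ a + μ (μ a)) = a + μ a + μ (μ a)
    rw [map_add, map_add, hμ]
    abel
  · show R - (a + μ a + μ (μ a)) = D (D' a)
    rw [← ha', eD, eD', map_sub, hμ]
    abel

theorem exists_mu {K L : Type u} [Field K] [Field L] [Algebra K L] [DecidableEq L] {v : L}
    (hv : v ^ 2 + v + 1 = 0) (hv1 : v ≠ 1) (d : K) :
    ∃ μ : (Ed L d).toAffine.Point →+ (Ed L d).toAffine.Point,
      (∀ x y h, ∃ h', μ (Affine.Point.some x y h) = Affine.Point.some (v * x) y h') ∧
      (∀ P, μ (μ (μ P)) = P) ∧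
      (∀ P, μ P = P → P = 0 ∨ ∃ (y : K) (h : _), P = Affine.Point.some 0 (algebraMap K L y) h) ∧
      {P | μ P = P}.Finite := by
  exact RM_mu hv hv1 d _ rfl

theorem three_fin {K L : Type u} [Field K] [Field L] [Algebra K L] [DecidableEq L] {v : L}
    (hv : v ^ 2 + v + 1 = 0) (hv1 : v ≠ 1) (d : K) (R : (Ed L d).toAffine.Point) :
    {P : (Ed L d).toAffine.Point | 3 • P = R}.Finite := by
  obtain ⟨μ, h1, h2, h3, h4⟩ := exists_mu (K := K) (L := L) hv hv1 d
  exact RM_three μ h2 h4 R

end Pool.Agent.Lib.MP_1a91b9_ntCC
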