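import Pool.Agent.Lib.MP_1a91b9_ntCC.RTb

/-!
# The ordinates in `F` of torsion points of `y² + a y = x³` over extensions of `F`
-/

set_option autoImplicit false

namespace Pool.Agent.Lib.MP_1a91b9_ntCC

open WeierstrassCurve Height

/-- **Finitely many ordinates of torsion points.** -/
theorem tors_y {F : Type} [Field F] [NumberField F] {a : F} (ha : a ≠ 0) :
    ∃ Y : Finset F, ∀ (F' : Type) [Field F'] [NumberField F'] [DecidableEq F'] [Algebra F F']
      (x : F') (y : F) (h : (⟨0, 0, algebraMap F F' a, 0, 0⟩ :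
        WeierstrassCurve F').toAffine.Nonsingular x (algebraMap F F' y)),
      IsOfFinAddOrder (Affine.Point.some _ _ h) → y ∈ Y := by
  classical
  obtain ⟨B, hBdef⟩ : ∃ B : F, B = a ^ 2 / 4 := ⟨_, rfl⟩
  have hB : B ≠ 0 := by
    rw [hBdef]
    exact div_ne_zero (pow_ne_zero 2 ha) (by norm_num)
  obtain ⟨C, hC⟩ := height_dupS hB
  obtain ⟨M, hM⟩ : ∃ M : ℝ, M = max (max C 0) (logHeight₁ (0 : F)) := ⟨_, rfl⟩
  have hMC : C ≤ M := by
    rw [hM]
    exact (le_max_left _ _).trans (le_max_left _ _)
  have hM0 : 0 ≤ M := by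
    rw [hM]
    exact (le_max_right _ _).trans (le_max_left _ _)
  have hMB : logHeight₁ (0 : F) ≤ M := by
    rw [hM]
    exact le_max_right _ _
  have hfin : {y : F | logHeight₁ (y + a / 2) ≤ M}.Finite := by
    have h1 : {x : F | logHeight₁ x ≤ M}.Finite := NumberField.finite_setOfPred_logHeight₁_le F M
    exact h1.preimage (f := fun y : F => y + a / 2) (fun y _ z _ hyz => add_right_cancel hyz)
  refine ⟨hfin.toFinset, ?_⟩
  intro F' _ _ _ _ x y h htor
  rw [Set.Finite.mem_toFinset]
  show logHeight₁ (y + a / 2) ≤ M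
  by_contra hlt
  rw [not_le] at hlt
  -- one step
  have hstep : ∀ z : F, M < logHeight₁ z → z ≠ 0 ∧ logHeight₁ z < logHeight₁ (dupS B z) := by
    intro z hz
    have h1 : z ≠ 0 := by
      rintro rfl
      linarith
    refine ⟨h1, ?_⟩
    have h2 := hC z h1
    linarith
  obtain ⟨u, hu⟩ : ∃ u : ℕ → F, u = fun k => (dupS B)^[k] (y + a / 2) := ⟨_, rfl⟩
  have hu0 : u 0 = y + a / 2 := by
    rw [hu]
    rfl
  have hus : ∀ k, u (k + 1) = dupS B (u k) := by
    intro k
    rw [hu]
    exact Function.iterate_succ_apply' _ _ _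
  have hgt : ∀ k, M < logHeight₁ (u k) := by
    intro k
    induction k with
    | zero =>
      rw [hu0]
      exact hlt
    | succ k ih =>
      rw [hus]
      exact ih.trans (hstep _ ih).2
  have hmono : StrictMono fun k => logHeight₁ (u k) := by
    refine strictMono_nat_of_lt_succ fun k => ?_
    rw [hus]
    exact (hstep _ (hgt k)).2
  have hpt : ∀ k, ∃ (x' : F') (h' : (⟨0, 0, algebraMap F F' a, 0, 0⟩ :
      WeierstrassCurve F').toAffine.Nonsingular x' (algebraMap F F' (u k - a / 2))),
      (2 ^ k : ℕ) • Affine.Point.some _ _ h = Affine.Point.some _ _ h' := by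
    intro k
    induction k with
    | zero =>
      have e0 : u 0 - a / 2 = y := by
        rw [hu0]
        ring
      rw [e0]
      exact ⟨x, h, by rw [pow_zero, one_nsmul]⟩
    | succ k ih =>
      obtain ⟨x', h', e⟩ := ih
      have e1 : algebraMap F F' (u k - a / 2) + algebraMap F F' a / 2 = algebraMap F F' (u k) := by
        rw [map_sub, map_div₀, map_ofNat]
        ring
      have h0 : algebraMap F F' (u k - a / 2) + algebraMap F F' a / 2 ≠ 0 := by
        rw [e1]
        intro h2
        apply (hstep _ (hgt k)).1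
        exact (map_eq_zero (algebraMap F F')).1 h2
      obtain ⟨x'', h'', e''⟩ := dupS_point h' h0
      have e3 : dupS (algebraMap F F' a ^ 2 / 4) (algebraMap F F' (u k - a / 2) +
          algebraMap F F' a / 2) - algebraMap F F' a / 2 = algebraMap F F' (u (k + 1) - a / 2) := by
        rw [e1, hus, hBdef, dupS, dupS]
        simp only [map_div₀, map_pow, map_sub, map_mul, map_add, map_ofNat]
      rw [pow_succ, mul_comm, mul_smul, e, e'']
      refine ⟨x'', e3 ▸ h'', ?_⟩
      congr 1
  have hfinm := finite_multiples.2 htor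
  have hinj : Function.Injective fun k : ℕ => (2 ^ k : ℕ) • Affine.Point.some _ _ h := by
    intro k l hkl
    obtain ⟨y1, h1, e1⟩ := hpt k
    obtain ⟨y2, h2, e2⟩ := hpt l
    have h3 : Affine.Point.some _ _ h1 = Affine.Point.some _ _ h2 := by
      rw [← e1, ← e2]
      exact hkl
    have h4 := (Affine.Point.some.inj h3).2
    have h5 := (algebraMap F F').injective h4
    have h6 : u k = u l := sub_left_injective h5
    exact hmono.injective (congrArg logHeight₁ h6)
  have hmem : ∀ k : ℕ, (2 ^ k : ℕ) • Affine.Point.some _ _ h ∈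
      (AddSubmonoid.multiples (Affine.Point.some _ _ h) : Set _) := fun k =>
    (AddSubmonoid.mem_multiples_iff _ _).2 ⟨2 ^ k, rfl⟩
  exact Set.infinite_of_injective_forall_mem hinj hmem hfinm

end Pool.Agent.Lib.MP_1a91b9_ntCC
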