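import Pool.Agent.Lib.MP_17a322_nt.VJ.MW4
import Pool.Agent.Lib.MP_1a91b9_ntCC.RTc
import Pool.Agent.Lib.MP_1a91b9_ntCC.RG
import Pool.Agent.Lib.MP_1a91b9_ntCC.RM

/-!
# No new points over a cubic extension

`F' = F(x)`, `x³ = e`, the twists of `E : y² + a y = x³` by `e` and `e²` have finitely many points over `F`, and
`e`, `e²` are not in finitely many classes of `F* / F*³`: then `E(F') = E(F)`.
-/

set_option autoImplicit false

namespace Pool.Agent.Lib.MP_1a91b9_ntCC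

open WeierstrassCurve Pool.Agent.Lib.MP_1a91b9_nt Pool.Agent.Lib.MP_1a91b9_ntN

section
variable {F : Type} [Field F] [NumberField F]

/-- the first coordinate -/
def rnX {L : Type} [Field L] {V : WeierstrassCurve L} (P : V.toAffine.Point) : L := match P with
  | .zero => 0
  | .some x _ _ => x

/-- the second coordinate -/
def rnY {L : Type} [Field L] {V : WeierstrassCurve L} (P : V.toAffine.Point) : L := match P with
  | .zero => 0
  | .some _ y _ => y

/-- the equation of the curve -/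
theorem rn_eq {K L : Type} [Field K] [Field L] [Algebra K L] (d : K) (x y : L) :
    (Ed L d).toAffine.Equation x y ↔ y ^ 2 + algebraMap K L d * y = x ^ 3 := by
  rw [WeierstrassCurve.Affine.equation_iff]
  have e1 : (Ed L d).toAffine.a₁ = 0 := map_zero _
  have e2 : (Ed L d).toAffine.a₂ = 0 := map_zero _
  have e3 : (Ed L d).toAffine.a₃ = algebraMap K L d := rfl
  have e4 : (Ed L d).toAffine.a₄ = 0 := map_zero _
  have e6 : (Ed L d).toAffine.a₆ = 0 := map_zero _
  rw [e1, e2, e3, e4, e6]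
  constructor
  · intro h
    linear_combination h
  · intro h
    linear_combination h

open Classical in
/-- **No new points**, the points. -/
theorem rn_main {a : F} (ha : a ≠ 0) {w : F} (hw : IsPrimitiveRoot w 3) :
    ∃ B : Finset F, (∀ β ∈ B, β ≠ 0) ∧ ∀ (F' : Type) [Field F'] [NumberField F'] [Algebra F F']
      (e : F) (θ : F'), θ ^ 3 = algebraMap F F' e → (¬ ∃ y : F, algebraMap F F' y = θ) →
      (∀ z : F', ∃ b c d : F,
        z = algebraMap F F' b + algebraMap F F' c * θ + algebraMap F F' d * θ ^ 2) →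
      Finite (⟨0, 0, e * a, 0, 0⟩ : WeierstrassCurve F).toAffine.Point →
      Finite (⟨0, 0, e ^ 2 * a, 0, 0⟩ : WeierstrassCurve F).toAffine.Point →
      (∀ β ∈ B, ∀ c : F, c ^ 3 * e ≠ β ∧ c ^ 3 * e ^ 2 ≠ β) →
      ∀ P : (Ed F' a).toAffine.Point, ∃ Q : (Ed F a).toAffine.Point,
        P = Affine.Point.map (W' := (⟨0, 0, a, 0, 0⟩ : WeierstrassCurve F)) (Algebra.ofId F F') Q := by
  obtain ⟨W, hW⟩ : ∃ W : WeierstrassCurve F, W = ⟨0, 0, a, 0, 0⟩ := ⟨_, rfl⟩
  have hΔ : W.Δ ≠ 0 := by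
    have h4 : W.Δ = -27 * a ^ 4 := by
      rw [hW]
      simp only [WeierstrassCurve.Δ, WeierstrassCurve.b₂, WeierstrassCurve.b₄,
        WeierstrassCurve.b₆, WeierstrassCurve.b₈]
      ring
    rw [h4]
    exact mul_ne_zero (by norm_num) (pow_ne_zero 4 ha)
  have hell : W.IsElliptic := ⟨isUnit_iff_ne_zero.2 hΔ⟩
  have hellF : (W.baseChange F).IsElliptic :=
    inferInstanceAs (W.map (algebraMap F F)).IsElliptic
  have hw3 : w ^ 3 = 1 := hw.pow_eq_one
  have hw1 : w ≠ 1 := hw.ne_one (by norm_num)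
  have hw2 : w ^ 2 + w + 1 = 0 := by
    have h3 : (w - 1) * (w ^ 2 + w + 1) = 0 := by linear_combination hw3
    exact (mul_eq_zero.1 h3).resolve_left (sub_ne_zero.2 hw1)
  obtain ⟨Y, hY⟩ := tors_y ha
  -- representatives
  obtain ⟨s, hs, hrep⟩ := reps3 (Pool.Agent.Lib.MP_17a322_nt.VJ.mordell_weil (W.baseChange F))
  subst hW
  -- the thirds over the algebraic closure
  let Fb := AlgebraicClosure F
  obtain ⟨wb, hwb⟩ : ∃ wb : Fb, wb = algebraMap F Fb w := ⟨_, rfl⟩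
  have hwb2 : wb ^ 2 + wb + 1 = 0 := by
    rw [hwb, ← map_pow, ← map_add, ← map_one (algebraMap F Fb), ← map_add, hw2, map_zero]
  have hwb1 : wb ≠ 1 := by
    rw [hwb]
    intro h
    apply hw1
    apply (algebraMap F Fb).injective
    rw [h, map_one]
  let Qs : Set (Ed Fb a).toAffine.Point :=
    ⋃ r ∈ s, {P | 3 • P = Affine.Point.map (W' := (⟨0, 0, a, 0, 0⟩ : WeierstrassCurve F))
      (Algebra.ofId F Fb) r}
  have hQs : Qs.Finite := hs.biUnion fun r _ => three_fin hwb2 hwb1 a _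
  let C : Set Fb := (rnX '' Qs) ∪ (rnY '' Qs)
  have hC : C.Finite := (hQs.image _).union (hQs.image _)
  let D : Set Fb := (fun z : Fb × Fb × Fb => ((z.1 + wb ^ 2 * z.2.1 + wb * z.2.2) / 3) ^ 3) ''
      (C ×ˢ C ×ˢ C) ∪
    (fun z : Fb × Fb × Fb => ((z.1 + wb * z.2.1 + wb ^ 2 * z.2.2) / 3) ^ 3) '' (C ×ˢ C ×ˢ C)
  have hD : D.Finite := ((hC.prod (hC.prod hC)).image _).union ((hC.prod (hC.prod hC)).image _)
  let B2 : Set F := {β : F | β ≠ 0 ∧ algebraMap F Fb β ∈ D}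
  have hB2 : B2.Finite := by
    refine Set.Finite.subset (hD.preimage ((algebraMap F Fb).injective.injOn)) ?_
    intro β hβ
    exact hβ.2
  let B1 : Set F := {β : F | β ≠ 0 ∧ ∃ y ∈ Y, β = y ^ 2 + a * y}
  have hB1 : B1.Finite := by
    refine Set.Finite.subset (Y.finite_toSet.image fun y => y ^ 2 + a * y) ?_
    rintro β ⟨_, y, hy, rfl⟩
    exact ⟨y, hy, rfl⟩
  refine ⟨(hB1.union hB2).toFinset, ?_, ?_⟩
  · intro β hβ
    rw [Set.Finite.mem_toFinset] at hβ
    rcases hβ with hβ | hβ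
    · exact hβ.1
    · exact hβ.1
  intro F' _ _ _ e θ hθ hθF hgen hf1 hf2 hB P
  have hB1' : ∀ β ∈ B1, ∀ c : F, c ^ 3 * e ≠ β ∧ c ^ 3 * e ^ 2 ≠ β := fun β hβ =>
    hB β (by rw [Set.Finite.mem_toFinset]; exact Or.inl hβ)
  have hB2' : ∀ β ∈ B2, ∀ c : F, c ^ 3 * e ≠ β ∧ c ^ 3 * e ^ 2 ≠ β := fun β hβ =>
    hB β (by rw [Set.Finite.mem_toFinset]; exact Or.inr hβ)
  have hθ0 : θ ≠ 0 := by
    rintro rfl
    exact hθF ⟨0, map_zero _⟩
  have he : e ≠ 0 := by
    rintro rfl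
    rw [map_zero] at hθ
    exact hθ0 ((pow_eq_zero_iff three_ne_zero).1 hθ)
  obtain ⟨σ, hσ, hσ3, hfix⟩ := exists_sigma3 hw hθ hθF hgen
  obtain ⟨v, hv⟩ : ∃ v : F', v = algebraMap F F' w := ⟨_, rfl⟩
  have hv2 : v ^ 2 + v + 1 = 0 := by
    rw [hv, ← map_pow, ← map_add, ← map_one (algebraMap F F'), ← map_add, hw2, map_zero]
  have hv3 : v ^ 3 = 1 := by linear_combination (v - 1) * hv2
  have hv1 : v ≠ 1 := by
    rw [hv]
    intro h
    apply hw1
    apply (algebraMap F F').injective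
    rw [h, map_one]
  have hv0 : v ≠ 0 := by
    rintro rfl
    rw [zero_pow three_ne_zero] at hv3
    exact zero_ne_one hv3
  rw [← hv] at hσ
  have hσv : σ v = v := by rw [hv, AlgEquiv.commutes]
  have hE : ∀ x y : F', (Ed F' a).toAffine.Nonsingular x y →
      y ^ 2 + algebraMap F F' a * y = x ^ 3 := fun x y h => (rn_eq a x y).1 h.1
  -- the eigenvectors
  have heig1 : ∀ z : F', σ z = v * z → ∃ c : F, z = algebraMap F F' c * θ := by
    intro z hz
    obtain ⟨c, hc⟩ := hfix (z / θ) (by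
      rw [map_div₀, hz, hσ]
      field_simp)
    exact ⟨c, by rw [hc]; field_simp⟩
  have heig2 : ∀ z : F', σ z = v ^ 2 * z → ∃ c : F, z = algebraMap F F' c * θ ^ 2 := by
    intro z hz
    obtain ⟨c, hc⟩ := hfix (z / θ ^ 2) (by
      rw [map_div₀, map_pow, hz, hσ]
      field_simp)
    exact ⟨c, by rw [hc]; field_simp⟩
  -- the automorphisms
  obtain ⟨μ, hμ', hμ3, hμ1, hμf⟩ := exists_mu (K := F) (L := F') hv2 hv1 a
  let ρ : (Ed F' a).toAffine.Point →+ (Ed F' a).toAffine.Point :=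
    (galRho (M := F') (⟨0, 0, a, 0, 0⟩ : WeierstrassCurve F) σ).toAddMonoidHom
  have hρ' : ∀ (X Y : F') (h : (Ed F' a).toAffine.Nonsingular X Y), ∃ h',
      ρ (WeierstrassCurve.Affine.Point.some X Y h) =
        WeierstrassCurve.Affine.Point.some (σ X) (σ Y) h' := fun X Y h => ⟨_, rfl⟩
  have hρ3 : ∀ P, ρ (ρ (ρ P)) = P := by
    intro P
    rcases P with _ | ⟨X, Y, h⟩
    · show ρ (ρ (ρ 0)) = 0
      rw [map_zero, map_zero, map_zero]
    · obtain ⟨g1, e1⟩ := hρ' X Y h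
      obtain ⟨g2, e2⟩ := hρ' _ _ g1
      obtain ⟨g3, e3⟩ := hρ' _ _ g2
      rw [e1, e2, e3, WeierstrassCurve.Affine.Point.some.injEq]
      exact ⟨hσ3 X, hσ3 Y⟩
  have hcomm : ∀ P, ρ (μ P) = μ (ρ P) := by
    intro P
    rcases P with _ | ⟨X, Y, h⟩
    · show ρ (μ 0) = μ (ρ 0)
      rw [map_zero, map_zero, map_zero]
    · obtain ⟨g1, e1⟩ := hρ' X Y h
      obtain ⟨g2, e2⟩ := hμ' _ _ g1
      obtain ⟨g3, e3⟩ := hμ' X Y h
      obtain ⟨g4, e4⟩ := hρ' _ _ g3
      rw [e1, e2, e3, e4, WeierstrassCurve.Affine.Point.some.injEq]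
      exact ⟨by rw [map_mul, hσv], rfl⟩
  -- points over `F`
  have hρF : ∀ Q : (Ed F a).toAffine.Point,
      ρ (Affine.Point.map (W' := (⟨0, 0, a, 0, 0⟩ : WeierstrassCurve F)) (Algebra.ofId F F') Q) =
        Affine.Point.map (W' := (⟨0, 0, a, 0, 0⟩ : WeierstrassCurve F)) (Algebra.ofId F F') Q := by
    rintro (_ | ⟨x, y, h⟩)
    · show ρ 0 = 0
      exact map_zero ρ
    · obtain ⟨h', e1⟩ := hρ' (algebraMap F F' x) (algebraMap F F' y)
        ((Affine.baseChange_nonsingular (⟨0, 0, a, 0, 0⟩ : WeierstrassCurve F).toAffine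
          (Algebra.ofId F F').injective _ _).mpr h)
      refine e1.trans ?_
      change Affine.Point.some _ _ _ = Affine.Point.some _ _ _
      rw [Affine.Point.some.injEq]
      exact ⟨σ.commutes x, σ.commutes y⟩
  have hρfix : ∀ Q, ρ Q = Q → ∃ R : (Ed F a).toAffine.Point,
      Q = Affine.Point.map (W' := (⟨0, 0, a, 0, 0⟩ : WeierstrassCurve F)) (Algebra.ofId F F') R := by
    rintro (_ | ⟨x, y, h⟩) hQ
    · exact ⟨0, rfl⟩
    · obtain ⟨h', e1⟩ := hρ' x y h
      rw [e1, Affine.Point.some.injEq] at hQ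
      obtain ⟨x, rfl⟩ := hfix x hQ.1
      obtain ⟨y, rfl⟩ := hfix y hQ.2
      exact ⟨Affine.Point.some x y ((Affine.baseChange_nonsingular
        (⟨0, 0, a, 0, 0⟩ : WeierstrassCurve F).toAffine
        (Algebra.ofId F F').injective _ _).mp h), rfl⟩
  have hT : ∀ Q, μ Q = Q → ρ Q = Q := by
    intro Q hQ
    rcases hμ1 Q hQ with rfl | ⟨y, h, rfl⟩
    · exact map_zero ρ
    · obtain ⟨h', e1⟩ := hρ' 0 (algebraMap F F' y) h
      rw [e1, Affine.Point.some.injEq]
      exact ⟨map_zero σ, σ.commutes y⟩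
  -- a point of finite order with ordinate in `F`
  have htor : ∀ (x : F') (y : F) (h : (Ed F' a).toAffine.Nonsingular x (algebraMap F F' y)),
      IsOfFinAddOrder (Affine.Point.some _ _ h) → y ∈ Y := by
    intro x y h hfin
    have key : ∀ V : WeierstrassCurve F', V = ⟨0, 0, algebraMap F F' a, 0, 0⟩ →
        ∀ h : V.toAffine.Nonsingular x (algebraMap F F' y),
          IsOfFinAddOrder (Affine.Point.some _ _ h) → y ∈ Y := by
      rintro _ rfl h hfin
      exact hY F' x y h hfin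
    refine key (Ed F' a) ?_ h hfin
    exact WeierstrassCurve.ext (map_zero _) (map_zero _) rfl (map_zero _) (map_zero _)
  have hfinord : ∀ f : (Ed F' a).toAffine.Point →+ (Ed F' a).toAffine.Point,
      {Q | f Q = 0}.Finite → ∀ Q, f Q = 0 → IsOfFinAddOrder Q := by
    intro f hf Q hQ
    have h1 : Finite f.ker := hf
    have h2 : IsOfFinAddOrder (⟨Q, hQ⟩ : f.ker) := isOfFinAddOrder_of_finite _
    exact AddMonoidHom.isOfFinAddOrder f.ker.subtype h2
  have h1 : ∀ Q, ρ Q = μ Q → μ Q = Q := by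
    intro Q hQ
    have hf := eig_finite a e θ v hθ0 hθ σ hσ hv3 hfix (⟨0, 0, a, 0, 0⟩ : WeierstrassCurve F)
      (⟨0, 0, e * a, 0, 0⟩ : WeierstrassCurve F) rfl rfl hf1 μ hμ'
    have ho : IsOfFinAddOrder Q := by
      refine hfinord (ρ - μ) (hf.subset fun R hR => ?_) Q ?_
      · have h2 : ρ R - μ R = 0 := hR
        exact sub_eq_zero.1 h2
      · show ρ Q - μ Q = 0
        exact sub_eq_zero.2 hQ
    rcases Q with _ | ⟨x, y, h⟩
    · exact map_zero μ
    · obtain ⟨g1, e1⟩ := hρ' x y h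
      obtain ⟨g2, e2⟩ := hμ' x y h
      rw [e1, e2, Affine.Point.some.injEq] at hQ
      obtain ⟨c, rfl⟩ := heig1 x hQ.1
      obtain ⟨y, rfl⟩ := hfix y hQ.2
      have h3 := htor _ y h ho
      have h4 := hE _ _ h
      have h5 : c ^ 3 * e = y ^ 2 + a * y := by
        apply (algebraMap F F').injective
        rw [map_mul, map_pow, ← hθ, map_add, map_pow, map_mul, h4]
        ring
      have h6 : c = 0 := by
        by_contra hc
        exact (hB1' (c ^ 3 * e) ⟨mul_ne_zero (pow_ne_zero 3 hc) he, y, h3, h5⟩ c).1 rfl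
      subst h6
      rw [e2, Affine.Point.some.injEq]
      exact ⟨by rw [map_zero]; ring, rfl⟩
  have h2 : ∀ Q, ρ Q = μ (μ Q) → μ Q = Q := by
    intro Q hQ
    have hf := eig_finite a (e ^ 2) (θ ^ 2) (v ^ 2) (pow_ne_zero 2 hθ0)
      (by rw [map_pow, ← hθ]; ring) σ (by rw [map_pow, hσ]; ring)
      (by linear_combination (v ^ 3 + 1) * hv3) hfix (⟨0, 0, a, 0, 0⟩ : WeierstrassCurve F)
      (⟨0, 0, e ^ 2 * a, 0, 0⟩ : WeierstrassCurve F) rfl rfl hf2 (fun P => μ (μ P))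
      (fun X Y h => by
        obtain ⟨g1, e1⟩ := hμ' X Y h
        obtain ⟨g2, e2⟩ := hμ' _ _ g1
        have e3 : v ^ 2 * X = v * (v * X) := by ring
        have h' : (Ed F' a).toAffine.Nonsingular (v ^ 2 * X) Y := by
          rw [e3]
          exact g2
        refine ⟨h', ?_⟩
        show μ (μ _) = _
        rw [e1, e2, WeierstrassCurve.Affine.Point.some.injEq]
        exact ⟨e3.symm, rfl⟩)
    have ho : IsOfFinAddOrder Q := by
      refine hfinord (ρ - μ.comp μ) (hf.subset fun R hR => ?_) Q ?_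
      · have h2 : ρ R - μ (μ R) = 0 := hR
        exact sub_eq_zero.1 h2
      · show ρ Q - μ (μ Q) = 0
        exact sub_eq_zero.2 hQ
    rcases Q with _ | ⟨x, y, h⟩
    · exact map_zero μ
    · obtain ⟨g1, e1⟩ := hρ' x y h
      obtain ⟨g2, e2⟩ := hμ' x y h
      obtain ⟨g3, e3⟩ := hμ' _ _ g2
      rw [e1, e2, e3, Affine.Point.some.injEq] at hQ
      obtain ⟨c, rfl⟩ := heig2 x (by rw [hQ.1]; ring)
      obtain ⟨y, rfl⟩ := hfix y hQ.2
      have h3 := htor _ y h ho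
      have h4 := hE _ _ h
      have h5 : c ^ 3 * e ^ 2 = y ^ 2 + a * y := by
        apply (algebraMap F F').injective
        rw [map_mul, map_pow, map_pow, ← hθ, map_add, map_pow, map_mul, h4]
        ring
      have h6 : c = 0 := by
        by_contra hc
        exact (hB1' (c ^ 3 * e ^ 2) ⟨mul_ne_zero (pow_ne_zero 3 hc) (pow_ne_zero 2 he), y, h3,
          h5⟩ c).2 rfl
      subst h6
      rw [e2, Affine.Point.some.injEq]
      exact ⟨by rw [map_zero]; ring, rfl⟩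
  by_contra hcon
  have hDP : ρ P ≠ P := fun h => hcon (hρfix P h)
  -- `3 P` is over `F`
  obtain ⟨R, hR⟩ := hρfix _ (fix3 ρ μ hρ3 hμ3 hcomm hT h1 h2 P)
  obtain ⟨r, hr, T, hT'⟩ := hrep R
  obtain ⟨P', hP'⟩ : ∃ P', P' = P - Affine.Point.map
      (W' := (⟨0, 0, a, 0, 0⟩ : WeierstrassCurve F)) (Algebra.ofId F F') T := ⟨_, rfl⟩
  have h3P' : 3 • P' = Affine.Point.map
      (W' := (⟨0, 0, a, 0, 0⟩ : WeierstrassCurve F)) (Algebra.ofId F F') r := by
    rw [hP', smul_sub, hR, hT', map_add, map_nsmul]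
    abel
  have hρP' : ρ P' ≠ P' := by
    intro h4
    apply hDP
    rw [hP', map_sub, hρF] at h4
    exact sub_left_injective h4
  have h3ρ : ∀ Q, 3 • Q = Affine.Point.map
      (W' := (⟨0, 0, a, 0, 0⟩ : WeierstrassCurve F)) (Algebra.ofId F F') r →
      3 • ρ Q = Affine.Point.map
      (W' := (⟨0, 0, a, 0, 0⟩ : WeierstrassCurve F)) (Algebra.ofId F F') r := by
    intro Q hQ
    rw [← map_nsmul, hQ, hρF]
  -- into the algebraic closure
  let φ : F' →ₐ[F] Fb := IsAlgClosed.lift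
  have hφv : φ v = wb := by rw [hv, AlgHom.commutes, hwb]
  have hmap : ∀ Q : (Ed F' a).toAffine.Point,
      3 • Q = Affine.Point.map (W' := (⟨0, 0, a, 0, 0⟩ : WeierstrassCurve F))
        (Algebra.ofId F F') r →
        Affine.Point.map (W' := (⟨0, 0, a, 0, 0⟩ : WeierstrassCurve F)) φ Q ∈ Qs := by
    intro Q hQ
    refine Set.mem_biUnion hr ?_
    show 3 • Affine.Point.map (W' := (⟨0, 0, a, 0, 0⟩ : WeierstrassCurve F)) φ Q = _
    rw [← map_nsmul, hQ]
    rcases r with _ | ⟨x, y, h⟩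
    · rfl
    · change Affine.Point.some _ _ _ = Affine.Point.some _ _ _
      rw [Affine.Point.some.injEq]
      exact ⟨φ.commutes x, φ.commutes y⟩
  have m1 := hmap P' h3P'
  have m2 := hmap (ρ P') (h3ρ _ h3P')
  have m3 := hmap (ρ (ρ P')) (h3ρ _ (h3ρ _ h3P'))
  rcases P' with _ | ⟨x, y, h⟩
  · exact hρP' (map_zero ρ)
  · have key : ∀ z : F', φ z ∈ C → φ (σ z) ∈ C → φ (σ (σ z)) ∈ C → σ z = z := by
      intro z z1 z2 z3
      obtain ⟨b, c, d, rfl⟩ := hgen z
      obtain ⟨z, hz⟩ : ∃ z, z = algebraMap F F' b + algebraMap F F' c * θ +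
          algebraMap F F' d * θ ^ 2 := ⟨_, rfl⟩
      rw [← hz] at z1 z2 z3 ⊢
      have s1 : σ z = algebraMap F F' b + v * (algebraMap F F' c * θ) +
          v ^ 2 * (algebraMap F F' d * θ ^ 2) := by
        rw [hz]
        simp only [map_add, map_mul, map_pow, AlgEquiv.commutes, hσ]
        ring
      have s2 : σ (σ z) = algebraMap F F' b + v ^ 2 * (algebraMap F F' c * θ) +
          v * (algebraMap F F' d * θ ^ 2) := by
        rw [s1]
        simp only [map_add, map_mul, map_pow, AlgEquiv.commutes, hσ, hσv]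
        linear_combination (v * (algebraMap F F' d * θ ^ 2)) * hv3
      have hφ3 : algebraMap F Fb e = φ θ ^ 3 := by
        rw [← map_pow, hθ, AlgHom.commutes]
      have hc : c = 0 := by
        by_contra hc
        refine (hB2' (c ^ 3 * e) ⟨mul_ne_zero (pow_ne_zero 3 hc) he, Or.inl
          ⟨(φ z, φ (σ z), φ (σ (σ z))), ⟨z1, z2, z3⟩, ?_⟩⟩ c).1 rfl
        show ((φ z + wb ^ 2 * φ (σ z) + wb * φ (σ (σ z))) / 3) ^ 3 = algebraMap F Fb (c ^ 3 * e)
        have h5 : z + v ^ 2 * σ z + v * σ (σ z) = 3 * (algebraMap F F' c * θ) := by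
          rw [s2, s1, hz]
          linear_combination (algebraMap F F' b + algebraMap F F' d * θ ^ 2 * (v ^ 2 - v + 1)) * hv2 +
            (2 * (algebraMap F F' c * θ)) * hv3
        have h6 : φ z + wb ^ 2 * φ (σ z) + wb * φ (σ (σ z)) =
            3 * (algebraMap F Fb c * φ θ) := by
          rw [← hφv, ← map_pow, ← map_mul, ← map_mul, ← map_add, ← map_add, h5, map_mul,
            map_mul, map_ofNat, AlgHom.commutes]
        rw [h6, map_mul, map_pow, hφ3]
        ring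
      have hd : d = 0 := by
        by_contra hd
        refine (hB2' (d ^ 3 * e ^ 2) ⟨mul_ne_zero (pow_ne_zero 3 hd) (pow_ne_zero 2 he), Or.inr
          ⟨(φ z, φ (σ z), φ (σ (σ z))), ⟨z1, z2, z3⟩, ?_⟩⟩ d).2 rfl
        show ((φ z + wb * φ (σ z) + wb ^ 2 * φ (σ (σ z))) / 3) ^ 3 =
          algebraMap F Fb (d ^ 3 * e ^ 2)
        have h5 : z + v * σ z + v ^ 2 * σ (σ z) = 3 * (algebraMap F F' d * θ ^ 2) := by
          rw [s2, s1, hz]
          linear_combination (algebraMap F F' b + algebraMap F F' c * θ * (v ^ 2 - v + 1)) * hv2 +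
            (2 * (algebraMap F F' d * θ ^ 2)) * hv3
        have h6 : φ z + wb * φ (σ z) + wb ^ 2 * φ (σ (σ z)) =
            3 * (algebraMap F Fb d * φ θ ^ 2) := by
          rw [← hφv, ← map_pow, ← map_mul, ← map_mul, ← map_add, ← map_add, h5, map_mul,
            map_mul, map_ofNat, AlgHom.commutes, map_pow]
        rw [h6, map_mul, map_pow, map_pow, hφ3]
        ring
      rw [s1, hz, hc, hd, map_zero]
      ring
    apply hρP'
    obtain ⟨g1, e1⟩ := hρ' x y h
    obtain ⟨g2, e2⟩ := hρ' _ _ g1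
    rw [e1, e2] at m3
    rw [e1] at m2 ⊢
    rw [Affine.Point.some.injEq]
    constructor
    · exact key x (Or.inl ⟨_, m1, rfl⟩) (Or.inl ⟨_, m2, rfl⟩) (Or.inl ⟨_, m3, rfl⟩)
    · exact key y (Or.inr ⟨_, m1, rfl⟩) (Or.inr ⟨_, m2, rfl⟩) (Or.inr ⟨_, m3, rfl⟩)

/-- **No new points**, for `E : y² + a y = x³` over the cubic extensions `F' = F(θ)`, `θ ^ 3 = e`, for which the twists of
`E` by `e` and `e ^ 2` have finitely many points over `F` and `e`, `e ^ 2` are not in the finitely many classes modulo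
cubes of the elements of `B`. -/
theorem no_new3 {F : Type} [Field F] [NumberField F] (hz : ∃ z : F, z ^ 2 + z + 1 = 0) {a : F}
    (ha : a ≠ 0) :
    ∃ B : Finset F, (∀ β ∈ B, β ≠ 0) ∧ ∀ (F' : Type) [Field F'] [NumberField F'] [Algebra F F']
      (e : F) (θ : F'), θ ^ 3 = algebraMap F F' e → (¬ ∃ y : F, algebraMap F F' y = θ) →
      (∀ z : F', ∃ b c d : F,
        z = algebraMap F F' b + algebraMap F F' c * θ + algebraMap F F' d * θ ^ 2) →
      Finite (⟨0, 0, e * a, 0, 0⟩ : WeierstrassCurve F).toAffine.Point →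
      Finite (⟨0, 0, e ^ 2 * a, 0, 0⟩ : WeierstrassCurve F).toAffine.Point →
      (∀ β ∈ B, ∀ c : F, c ^ 3 * e ≠ β ∧ c ^ 3 * e ^ 2 ≠ β) →
      ∀ x' y' : F', ((⟨0, 0, a, 0, 0⟩ : WeierstrassCurve F).baseChange F').toAffine.Equation x' y' →
        ∃ x₀ y₀ : F, algebraMap F F' x₀ = x' ∧ algebraMap F F' y₀ = y' := by
  classical
  obtain ⟨z, hz⟩ := hz
  have hz1 : z ≠ 1 := by
    rintro rfl
    have h3 : (3 : F) ≠ 0 := by norm_num
    apply h3
    linear_combination hz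
  have hz3 : z ^ 3 = 1 := by linear_combination (z - 1) * hz
  have hp : IsPrimitiveRoot z 3 := by
    rw [← orderOf_eq_prime hz3 hz1]
    exact IsPrimitiveRoot.orderOf z
  obtain ⟨B, hB0, hB⟩ := rn_main ha hp
  refine ⟨B, hB0, ?_⟩
  intro F' _ _ _ e θ hθ hθF hgen hf1 hf2 hb x' y' heq
  have hΔ' : (Ed F' a).Δ ≠ 0 := by
    change ((⟨0, 0, a, 0, 0⟩ : WeierstrassCurve F).map (algebraMap F F')).Δ ≠ 0
    rw [WeierstrassCurve.map_Δ]
    refine (_root_.map_ne_zero _).2 ?_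
    have h4 : (⟨0, 0, a, 0, 0⟩ : WeierstrassCurve F).Δ = -27 * a ^ 4 := by
      simp only [WeierstrassCurve.Δ, WeierstrassCurve.b₂, WeierstrassCurve.b₄,
        WeierstrassCurve.b₆, WeierstrassCurve.b₈]
      ring
    rw [h4]
    exact mul_ne_zero (by norm_num) (pow_ne_zero 4 ha)
  have hns : (Ed F' a).toAffine.Nonsingular x' y' := by
    rw [← Affine.equation_iff_nonsingular_of_Δ_ne_zero hΔ']
    exact heq
  obtain ⟨Q, hQ⟩ := hB F' e θ hθ hθF hgen hf1 hf2 hb (Affine.Point.some x' y' hns)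
  rcases Q with _ | ⟨x₀, y₀, h₀⟩
  · cases hQ
  · change Affine.Point.some _ _ _ = Affine.Point.some _ _ _ at hQ
    rw [Affine.Point.some.injEq] at hQ
    exact ⟨x₀, y₀, hQ.1.symm, hQ.2.symm⟩

end

end Pool.Agent.Lib.MP_1a91b9_ntCC
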