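import Pool.Agent.Lib.MP_1a91b9_ntN.F.F5c

/-!
# The classes modulo cubes of `K` which become cubes in `F`; cube-free elements
-/

set_option autoImplicit false

namespace Pool.Agent.Lib.MP_1a91b9_ntCC

open NumberField IntermediateField

/-- Cube roots which generate the same field. -/
theorem cb_same {K E : Type} [Field K] [Field E] [Algebra K E] {w : K}
    (hw : IsPrimitiveRoot w 3) {a b : K} {x y : E} (hx : x ^ 3 = algebraMap K E a)
    (hn : ¬ ∃ z : K, algebraMap K E z = x)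
    (hgen : ∀ z : E, ∃ b c e : K, z = algebraMap K E b + algebraMap K E c * x +
      algebraMap K E e * x ^ 2) (hy : y ^ 3 = algebraMap K E b) (hb : b ≠ 0) :
    (∃ c : K, b = c ^ 3) ∨ (∃ c : K, b = a * c ^ 3) ∨ ∃ c : K, b = a ^ 2 * c ^ 3 := by
  obtain ⟨σ, hσ, -, hfix⟩ := Pool.Agent.Lib.MP_1a91b9_ntN.exists_sigma3 hw hx hn hgen
  have inj := (algebraMap K E).injective
  have hx0 : x ≠ 0 := by
    rintro rfl
    exact hn ⟨0, map_zero _⟩
  have hy0 : y ≠ 0 := by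
    rintro rfl
    rw [zero_pow three_ne_zero, eq_comm, map_eq_zero] at hy
    exact hb hy
  obtain ⟨v, hv⟩ : ∃ v : E, v = algebraMap K E w := ⟨_, rfl⟩
  rw [← hv] at hσ
  have hvp : IsPrimitiveRoot v 3 := by
    rw [hv]
    exact hw.map_of_injective inj
  have hv3 : v ^ 3 = 1 := hvp.pow_eq_one
  have h1 : (σ y / y) ^ 3 = 1 := by
    rw [div_pow, ← map_pow, hy, AlgEquiv.commutes, div_self]
    rw [← hy]
    exact pow_ne_zero 3 hy0
  have : NeZero 3 := ⟨three_ne_zero⟩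
  obtain ⟨i, hi, hiv⟩ := hvp.eq_pow_of_pow_eq_one h1
  have hσy : σ y = v ^ i * y := by
    rw [hiv]
    field_simp
  have hv0 : v ≠ 0 := by
    rintro rfl
    rw [zero_pow three_ne_zero] at hv3
    exact zero_ne_one hv3
  obtain ⟨c, hc⟩ := hfix (y / x ^ i) (by
    rw [map_div₀, map_pow, hσy, hσ, mul_pow]
    field_simp)
  have hyc : y = algebraMap K E c * x ^ i := by
    rw [hc]
    field_simp
  have hb' : b = a ^ i * c ^ 3 := by
    apply inj
    rw [← hy, hyc, map_mul, map_pow, map_pow, ← hx]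
    ring
  interval_cases i
  · exact Or.inl ⟨c, by rw [hb']; ring⟩
  · exact Or.inr (Or.inl ⟨c, by rw [hb']; ring⟩)
  · exact Or.inr (Or.inr ⟨c, by rw [hb']⟩)

/-- **Finitely many classes modulo cubes of `K` become cubes in `F`.** -/
theorem kum3_fin {K F : Type} [Field K] [NumberField K] [Field F] [NumberField F] [Algebra K F]
    {w : K} (hw : IsPrimitiveRoot w 3) :
    ∃ C : Set K, C.Finite ∧ ∀ a : K, a ≠ 0 → (∃ x : F, x ^ 3 = algebraMap K F a) →
      ∃ b ∈ C, ∃ y : K, a = b * y ^ 3 := by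
  classical
  have inj := (algebraMap K F).injective
  have hfin : Finite (IntermediateField K F) := by
    have h1 : FiniteDimensional K F := FiniteDimensional.right ℚ K F
    exact Field.finite_intermediateField_of_exists_primitive_element K F
      (Field.exists_primitive_element K F)
  -- a representative for each field
  have hrep : ∀ E : IntermediateField K F, ∃ a : K, (∃ x : F, x ^ 3 = algebraMap K F a ∧
      (¬ ∃ z : K, algebraMap K F z = x) ∧ K⟮x⟯ = E) ∨ ¬ ∃ (a : K) (x : F),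
        x ^ 3 = algebraMap K F a ∧ (¬ ∃ z : K, algebraMap K F z = x) ∧ K⟮x⟯ = E := by
    intro E
    by_cases h : ∃ (a : K) (x : F), x ^ 3 = algebraMap K F a ∧
        (¬ ∃ z : K, algebraMap K F z = x) ∧ K⟮x⟯ = E
    · obtain ⟨a, x, h1⟩ := h
      exact ⟨a, Or.inl ⟨x, h1⟩⟩
    · exact ⟨0, Or.inr h⟩
  choose r hr using hrep
  refine ⟨{1} ∪ (Set.range r ∪ Set.range fun E => r E ^ 2),
    (Set.finite_singleton 1).union ((Set.finite_range r).union (Set.finite_range _)), ?_⟩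
  rintro a ha ⟨x, hx⟩
  by_cases hK : ∃ z : K, algebraMap K F z = x
  · obtain ⟨z, rfl⟩ := hK
    exact ⟨1, Or.inl rfl, z, inj (by rw [← hx, one_mul, map_pow])⟩
  obtain ⟨E, hE⟩ : ∃ E : IntermediateField K F, E = K⟮x⟯ := ⟨_, rfl⟩
  rcases hr E with ⟨x', hx', hn', hE'⟩ | h
  swap
  · exact absurd ⟨a, x, hx, hK, hE.symm⟩ h
  have hxE : x ∈ E := by
    rw [hE]
    exact mem_adjoin_simple_self K x
  have hxE' : x' ∈ E := by
    rw [← hE']
    exact mem_adjoin_simple_self K x'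
  have hgen : ∀ z : E, ∃ b c e : K, z = algebraMap K E b + algebraMap K E c * (⟨x', hxE'⟩ : E) +
      algebraMap K E e * (⟨x', hxE'⟩ : E) ^ 2 := by
    have hint : IsIntegral K x' := ⟨Polynomial.X ^ 3 - Polynomial.C (r E),
      Polynomial.monic_X_pow_sub_C (r E) three_ne_zero, by
        rw [Polynomial.eval₂_sub, Polynomial.eval₂_X_pow, Polynomial.eval₂_C, hx', sub_self]⟩
    rintro ⟨z, hz⟩
    have h2 : z ∈ K⟮x'⟯ := by
      rw [hE']
      exact hz
    have hmon : (Polynomial.X ^ 3 - Polynomial.C (r E) : Polynomial K).Monic :=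
      Polynomial.monic_X_pow_sub_C (r E) three_ne_zero
    rw [← IntermediateField.mem_toSubalgebra,
      IntermediateField.adjoin_simple_toSubalgebra_of_isAlgebraic hint.isAlgebraic,
      Algebra.adjoin_singleton_eq_range_aeval] at h2
    obtain ⟨p, hp⟩ := h2
    obtain ⟨q, hq⟩ : ∃ q, q = p %ₘ (Polynomial.X ^ 3 - Polynomial.C (r E)) := ⟨_, rfl⟩
    have hdeg : q.natDegree < 3 := by
      have h1 := Polynomial.natDegree_modByMonic_lt p hmon (by
        intro h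
        have h2 := congrArg Polynomial.natDegree h
        rw [Polynomial.natDegree_X_pow_sub_C, Polynomial.natDegree_one] at h2
        exact absurd h2 (by norm_num))
      rwa [Polynomial.natDegree_X_pow_sub_C, ← hq] at h1
    have h2 : Polynomial.aeval x' p = Polynomial.aeval x' q := by
      have h3 := Polynomial.modByMonic_add_div p (Polynomial.X ^ 3 - Polynomial.C (r E))
      rw [← hq] at h3
      rw [← h3, map_add, map_mul]
      have h4 : Polynomial.aeval x' (Polynomial.X ^ 3 - Polynomial.C (r E) : Polynomial K) = 0 := by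
        rw [map_sub, map_pow, Polynomial.aeval_X, Polynomial.aeval_C, hx', sub_self]
      rw [h4, zero_mul, add_zero]
    refine ⟨q.coeff 0, q.coeff 1, q.coeff 2, Subtype.ext ?_⟩
    have h5 : z = Polynomial.aeval x' p := hp.symm
    show z = algebraMap K F (q.coeff 0) + algebraMap K F (q.coeff 1) * x' +
      algebraMap K F (q.coeff 2) * x' ^ 2
    rw [h5, h2, Polynomial.aeval_eq_sum_range' hdeg, Finset.sum_range_succ, Finset.sum_range_succ,
      Finset.sum_range_one, pow_zero, pow_one, Algebra.smul_def, Algebra.smul_def,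
      Algebra.smul_def, mul_one]
  have h3 := cb_same (E := E) hw (a := r E) (b := a) (x := ⟨x', hxE'⟩) (y := ⟨x, hxE⟩)
    (Subtype.ext hx') (by
      rintro ⟨z, hz⟩
      exact hn' ⟨z, congrArg Subtype.val hz⟩) hgen (Subtype.ext hx) ha
  rcases h3 with ⟨c, hc⟩ | ⟨c, hc⟩ | ⟨c, hc⟩
  · exact ⟨1, Or.inl rfl, c, by rw [hc, one_mul]⟩
  · exact ⟨r E, Or.inr (Or.inl ⟨E, rfl⟩), c, hc⟩
  · exact ⟨r E ^ 2, Or.inr (Or.inr ⟨E, rfl⟩), c, hc⟩

/-- Two cube-free elements whose quotient is a cube in the field are associated. -/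
theorem assoc_of_cb {K : Type} [Field K] [NumberField K] [IsPrincipalIdealRing (𝓞 K)] {d d' : 𝓞 K}
    (hd : ∀ x, x ^ 3 ∣ d → IsUnit x) (hd' : ∀ x, x ^ 3 ∣ d' → IsUnit x) {y : K} (hy0 : y ≠ 0)
    (hy : (d : K) = (d' : K) * y ^ 3) : Associated d' d := by
  obtain ⟨r, s, hs, hrs, rfl⟩ : ∃ r s : 𝓞 K, s ≠ 0 ∧ IsCoprime r s ∧ y = (r : K) / (s : K) := by
    obtain ⟨r, s, hs, h1⟩ := IsFractionRing.exists_reduced_fraction (A := 𝓞 K) y
    refine ⟨r, s, nonZeroDivisors.coe_ne_zero s, ?_, ?_⟩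
    · exact hs.isCoprime
    · rw [← h1, IsFractionRing.mk'_eq_div]
  have hsK : (s : K) ≠ 0 := by exact_mod_cast hs
  have h1 : d * s ^ 3 = d' * r ^ 3 := by
    apply FaithfulSMul.algebraMap_injective (𝓞 K) K
    rw [map_mul, map_mul, map_pow, map_pow]
    show (d : K) * (s : K) ^ 3 = (d' : K) * (r : K) ^ 3
    rw [hy, div_pow, mul_assoc, div_mul_cancel₀ _ (pow_ne_zero 3 hsK)]
  have h2 : s ^ 3 ∣ d' := by
    have h3 : s ^ 3 ∣ d' * r ^ 3 := by
      rw [← h1]
      exact dvd_mul_left _ _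
    exact (hrs.symm.pow (m := 3) (n := 3)).dvd_of_dvd_mul_right h3
  have h4 : r ^ 3 ∣ d := by
    have h3 : r ^ 3 ∣ d * s ^ 3 := by
      rw [h1]
      exact dvd_mul_left _ _
    exact (hrs.pow (m := 3) (n := 3)).dvd_of_dvd_mul_right h3
  obtain ⟨a, ha⟩ := (hd' s h2).pow 3
  obtain ⟨b, hb⟩ := (hd r h4).pow 3
  rw [← ha, ← hb] at h1
  exact ⟨b * a⁻¹, by
    rw [Units.val_mul, ← mul_assoc, ← h1, mul_assoc, Units.mul_inv, mul_one]⟩

/-- **Finiteness.** -/
theorem fin_ex3 {K F : Type} [Field K] [NumberField K] [IsPrincipalIdealRing (𝓞 K)]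
    [Finite (𝓞 K)ˣ] [Field F] [NumberField F] [Algebra K F] (hz : ∃ z : K, z ^ 2 + z + 1 = 0)
    {δ : 𝓞 K} (hδ : δ ≠ 0) {β : F} (hβ : β ≠ 0) :
    {d : 𝓞 K | (∀ x, x ^ 3 ∣ d → IsUnit x) ∧ ∃ c : F,
      c ^ 3 * algebraMap K F ((δ : K) * (d : K)) = β ∨
      c ^ 3 * algebraMap K F ((δ : K) * (d : K)) ^ 2 = β}.Finite := by
  classical
  obtain ⟨z, hz⟩ := hz
  have hz1 : z ≠ 1 := by
    rintro rfl
    have h3 : (3 : K) ≠ 0 := by norm_num
    apply h3
    linear_combination hz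
  have hz3 : z ^ 3 = 1 := by linear_combination (z - 1) * hz
  have hp : IsPrimitiveRoot z 3 := by
    rw [← orderOf_eq_prime hz3 hz1]
    exact IsPrimitiveRoot.orderOf z
  obtain ⟨C, hC, hCK⟩ := kum3_fin (F := F) hp
  have hδ' : algebraMap K F (δ : K) ≠ 0 := by
    rw [Ne, map_eq_zero]
    exact_mod_cast hδ
  have cf0 : ∀ d : 𝓞 K, (∀ x, x ^ 3 ∣ d → IsUnit x) → d ≠ 0 := by
    rintro _ h rfl
    exact not_isUnit_zero (h 0 (dvd_zero _))
  -- a set in which all the quotients are cubes in `F` is finite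
  have key : ∀ S : Set (𝓞 K), (∀ d ∈ S, ∀ x, x ^ 3 ∣ d → IsUnit x) →
      (∀ d ∈ S, ∀ d' ∈ S, ∃ x : F, x ^ 3 = algebraMap K F ((d : K) / (d' : K))) → S.Finite := by
    intro S hS hSS
    rcases S.eq_empty_or_nonempty with h0 | ⟨d₀, hd₀⟩
    · rw [h0]
      exact Set.finite_empty
    have h1 : ∀ d ∈ S, ∃ b ∈ C, ∃ y : K, (d : K) / (d₀ : K) = b * y ^ 3 := by
      intro d hd
      refine hCK _ (div_ne_zero ?_ ?_) (hSS d hd d₀ hd₀)
      · exact_mod_cast cf0 d (hS d hd)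
      · exact_mod_cast cf0 d₀ (hS d₀ hd₀)
    have h2 : S ⊆ ⋃ b ∈ C, {d ∈ S | ∃ y : K, (d : K) / (d₀ : K) = b * y ^ 3} := by
      intro d hd
      obtain ⟨b, hb, y, hy⟩ := h1 d hd
      exact Set.mem_biUnion hb ⟨hd, y, hy⟩
    refine (hC.biUnion fun b _ => ?_).subset h2
    rcases ({d ∈ S | ∃ y : K, (d : K) / (d₀ : K) = b * y ^ 3} : Set (𝓞 K)).eq_empty_or_nonempty
      with h3 | ⟨d₁, hd₁, y₁, hy₁⟩
    · rw [h3]
      exact Set.finite_empty
    refine (Set.finite_range fun u : (𝓞 K)ˣ => d₁ * (u : 𝓞 K)).subset ?_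
    rintro d ⟨hd, y, hy⟩
    have n₀ : (d₀ : K) ≠ 0 := by exact_mod_cast cf0 d₀ (hS d₀ hd₀)
    have n₁ : (d₁ : K) ≠ 0 := by exact_mod_cast cf0 d₁ (hS d₁ hd₁)
    have n : (d : K) ≠ 0 := by exact_mod_cast cf0 d (hS d hd)
    have hby : b * y ^ 3 ≠ 0 := by
      rw [← hy]
      exact div_ne_zero n n₀
    have hby₁ : b * y₁ ^ 3 ≠ 0 := by
      rw [← hy₁]
      exact div_ne_zero n₁ n₀
    have hb0 : b ≠ 0 := left_ne_zero_of_mul hby
    have hy0 : y ≠ 0 := by
      rintro rfl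
      exact hby (by ring)
    have hy₁0 : y₁ ≠ 0 := by
      rintro rfl
      exact hby₁ (by ring)
    obtain ⟨u, hu⟩ := assoc_of_cb (hS d hd) (hS d₁ hd₁) (y := y / y₁) (div_ne_zero hy0 hy₁0) (by
      rw [div_eq_iff n₀] at hy hy₁
      rw [hy, hy₁]
      field_simp)
    exact ⟨u, hu⟩
  obtain ⟨S1, hS1⟩ : ∃ S : Set (𝓞 K), S = {d : 𝓞 K | (∀ x, x ^ 3 ∣ d → IsUnit x) ∧ ∃ c : F,
      c ^ 3 * algebraMap K F ((δ : K) * (d : K)) = β} := ⟨_, rfl⟩
  obtain ⟨S2, hS2⟩ : ∃ S : Set (𝓞 K), S = {d : 𝓞 K | (∀ x, x ^ 3 ∣ d → IsUnit x) ∧ ∃ c : F,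
      c ^ 3 * algebraMap K F ((δ : K) * (d : K)) ^ 2 = β} := ⟨_, rfl⟩
  have hsub : {d : 𝓞 K | (∀ x, x ^ 3 ∣ d → IsUnit x) ∧ ∃ c : F,
      c ^ 3 * algebraMap K F ((δ : K) * (d : K)) = β ∨
      c ^ 3 * algebraMap K F ((δ : K) * (d : K)) ^ 2 = β} ⊆ S1 ∪ S2 := by
    rintro d ⟨hd, c, hc | hc⟩
    · left
      rw [hS1]
      exact ⟨hd, c, hc⟩
    · right
      rw [hS2]
      exact ⟨hd, c, hc⟩
  refine Set.Finite.subset (Set.Finite.union ?_ ?_) hsub
  · refine key S1 (fun d hd => ?_) fun d hd d' hd' => ?_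
    · rw [hS1] at hd
      exact hd.1
    · rw [hS1] at hd hd'
      obtain ⟨hd, c, hc⟩ := hd
      obtain ⟨hd', c', hc'⟩ := hd'
      have n : algebraMap K F (d : K) ≠ 0 := by
        rw [Ne, map_eq_zero]
        exact_mod_cast cf0 d hd
      have n' : algebraMap K F (d' : K) ≠ 0 := by
        rw [Ne, map_eq_zero]
        exact_mod_cast cf0 d' hd'
      have hc0 : c ≠ 0 := by
        rintro rfl
        exact hβ (by rw [← hc]; ring)
      refine ⟨c' / c, ?_⟩
      rw [← hc'] at hc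
      rw [map_mul, map_mul] at hc
      rw [div_pow, map_div₀, div_eq_div_iff (pow_ne_zero 3 hc0) n']
      refine mul_left_cancel₀ hδ' ?_
      linear_combination -hc
  · refine key S2 (fun d hd => ?_) fun d hd d' hd' => ?_
    · rw [hS2] at hd
      exact hd.1
    · rw [hS2] at hd hd'
      obtain ⟨hd, c, hc⟩ := hd
      obtain ⟨hd', c', hc'⟩ := hd'
      have n : algebraMap K F (d : K) ≠ 0 := by
        rw [Ne, map_eq_zero]
        exact_mod_cast cf0 d hd
      have n' : algebraMap K F (d' : K) ≠ 0 := by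
        rw [Ne, map_eq_zero]
        exact_mod_cast cf0 d' hd'
      have hc0' : c' ≠ 0 := by
        rintro rfl
        exact hβ (by rw [← hc']; ring)
      refine ⟨algebraMap K F ((d : K) / (d' : K)) * (c / c'), ?_⟩
      rw [← hc'] at hc
      rw [map_mul, map_mul] at hc
      rw [map_div₀]
      obtain ⟨p, hp⟩ : ∃ p, p = algebraMap K F (d : K) := ⟨_, rfl⟩
      obtain ⟨p', hp'⟩ : ∃ p, p = algebraMap K F (d' : K) := ⟨_, rfl⟩
      obtain ⟨q, hq⟩ : ∃ q, q = algebraMap K F (δ : K) := ⟨_, rfl⟩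
      rw [← hp] at n
      rw [← hp'] at n'
      rw [← hq] at hδ'
      rw [← hp, ← hp', ← hq] at hc
      rw [← hp, ← hp']
      have h5 : c ^ 3 * p ^ 2 = c' ^ 3 * p' ^ 2 := by
        refine mul_left_cancel₀ (pow_ne_zero 2 hδ') ?_
        linear_combination hc
      field_simp
      linear_combination h5

end Pool.Agent.Lib.MP_1a91b9_ntCC
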