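import Pool.Agent.Lib.MP_1a91b9_ntC.Inf
import Pool.Agent.Lib.MP_1a91b9_ntW.J.Mono

/-!
# Infinitely many cube-free elements in a class; monotonicity of the proportion up to finitely many exceptions
-/

set_option autoImplicit false

namespace Pool.Agent.Lib.MP_1a91b9_ntCC

open NumberField Filter Topology
open Pool.Agent.Lib.MP_1a91b9_ntC (inf_pf inf_ne)

/-- the product of a cube-free element and of a squarefree element which is coprime to it is cube-free -/
theorem cf_mul {K : Type} [Field K] [NumberField K] [IsPrincipalIdealRing (𝓞 K)] {d z : 𝓞 K}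
    (hd : ∀ x, x ^ 3 ∣ d → IsUnit x) (hz : Squarefree z) (hdz : IsCoprime d z) :
    ∀ x, x ^ 3 ∣ d * z → IsUnit x := by
  intro x hx
  by_contra hu
  have hd0 : d ≠ 0 := by
    rintro rfl
    exact not_isUnit_zero (hd 0 (dvd_zero _))
  have hx0 : x ≠ 0 := by
    rintro rfl
    rw [zero_pow three_ne_zero, zero_dvd_iff] at hx
    exact mul_ne_zero hd0 hz.ne_zero hx
  obtain ⟨p, hp, hpx⟩ := WfDvdMonoid.exists_irreducible_factor hu hx0
  have hp3 : p ^ 3 ∣ d * z := (pow_dvd_pow_of_dvd hpx 3).trans hx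
  by_cases hpd : p ∣ d
  · have h1 : ¬ p ∣ z := fun h => hp.not_isUnit (hdz.isUnit_of_dvd' hpd h)
    have h2 : IsCoprime (p ^ 3) z := (hp.coprime_iff_not_dvd.2 h1).pow_left
    exact hp.not_isUnit (hd p (h2.dvd_of_dvd_mul_right hp3))
  · have h2 : IsCoprime (p ^ 3) d := (hp.coprime_iff_not_dvd.2 hpd).pow_left
    have h3 : p ^ 3 ∣ z := h2.dvd_of_dvd_mul_left hp3
    have h4 : p * p ∣ z := (Dvd.intro (p) (by ring)).trans h3
    exact hp.not_isUnit (hz p h4)

/-- **Infinitely many cube-free elements in the class of a cube-free element.** -/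
theorem inf_cf {K : Type} [Field K] [NumberField K] [IsPrincipalIdealRing (𝓞 K)] {m u d₀ : 𝓞 K}
    (hm : m ≠ 0) (h0 : ∀ x, x ^ 3 ∣ d₀ → IsUnit x) (h1 : m ∣ d₀ - u) :
    {d : 𝓞 K | (∀ x, x ^ 3 ∣ d → IsUnit x) ∧ m ∣ d - u}.Infinite := by
  classical
  have h00 : d₀ ≠ 0 := by
    rintro rfl
    exact not_isUnit_zero (h0 0 (dvd_zero _))
  obtain ⟨f, hf⟩ := inf_pf (K := K)
  have hmd : m * d₀ ≠ 0 := mul_ne_zero hm h00
  -- the rational primes whose factor divides `m d₀` are finitely many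
  have hfin : {p : ℕ | p.Prime ∧ f p ∣ m * d₀}.Finite := by
    have hI : Ideal.span {m * d₀} ≠ (0 : Ideal (𝓞 K)) := by
      rw [Ideal.zero_eq_bot, Ne, Ideal.span_singleton_eq_bot]
      exact hmd
    have hF := Ideal.finite_factors hI
    let g : {p : ℕ // p.Prime ∧ f p ∣ m * d₀} →
        {v : IsDedekindDomain.HeightOneSpectrum (𝓞 K) | v.asIdeal ∣ Ideal.span {m * d₀}} := fun p =>
      ⟨⟨Ideal.span {f p.1}, (Ideal.span_singleton_prime (hf p.1 p.2.1).1.ne_zero).2 (hf p.1 p.2.1).1, by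
        rw [Ne, Ideal.span_singleton_eq_bot]
        exact (hf p.1 p.2.1).1.ne_zero⟩, by
        show Ideal.span {f p.1} ∣ Ideal.span {m * d₀}
        rw [Ideal.dvd_span_singleton, Ideal.mem_span_singleton]
        exact p.2.2⟩
    have hg : Function.Injective g := by
      intro p q hpq
      have h2 : Ideal.span {f p.1} = Ideal.span {f q.1} := by
        have := congrArg (fun v => v.1.asIdeal) hpq
        exact this
      by_contra hne
      have h3 : p.1 ≠ q.1 := fun h => hne (Subtype.ext h)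
      have h4 := inf_ne hf p.2.1 q.2.1 h3
      rw [Ideal.span_singleton_eq_span_singleton] at h2
      have h5 : IsUnit (f p.1) := h4.isUnit_of_dvd' dvd_rfl h2.dvd
      exact (hf p.1 p.2.1).1.not_isUnit h5
    have := hF.to_subtype
    have h6 : Finite {p : ℕ // p.Prime ∧ f p ∣ m * d₀} := Finite.of_injective g hg
    exact Set.finite_coe_iff.1 h6
  have hinf : {p : ℕ | p.Prime ∧ ¬ f p ∣ m * d₀}.Infinite := by
    have h2 : {p : ℕ | p.Prime ∧ ¬ f p ∣ m * d₀} = {p : ℕ | p.Prime} \ {p : ℕ | p.Prime ∧ f p ∣ m * d₀} := by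
      ext p
      simp only [Set.mem_ofPred_eq, Set.mem_sdiff, not_and]
      constructor
      · rintro ⟨h3, h4⟩
        exact ⟨h3, fun _ => h4⟩
      · rintro ⟨h3, h4⟩
        exact ⟨h3, h4 h3⟩
    rw [h2]
    exact Nat.infinite_setOfPred_prime.sdiff hfin
  -- the finite ring
  have hmI : Ideal.span {m} ≠ (⊥ : Ideal (𝓞 K)) := by
    rw [Ne, Ideal.span_singleton_eq_bot]
    exact hm
  have : Finite (𝓞 K ⧸ Ideal.span {m}) := Ideal.finiteQuotientOfFreeOfNeBot _ hmI
  have := hinf.to_subtype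
  obtain ⟨c, hc⟩ := Finite.exists_infinite_fiber
    (fun p : {p : ℕ | p.Prime ∧ ¬ f p ∣ m * d₀} => Ideal.Quotient.mk (Ideal.span {m}) (f p.1))
  -- `c` is a unit
  have hcu : IsUnit c := by
    obtain ⟨p, hp⟩ := hc.nonempty
    have h2 : IsCoprime (f p.1) m := by
      refine ((hf p.1 p.2.1).1.irreducible.coprime_iff_not_dvd).2 fun h => ?_
      exact p.2.2 (h.mul_right _)
    obtain ⟨a, b, hab⟩ := h2
    have h3 : Ideal.Quotient.mk (Ideal.span {m}) a * c = 1 := by
      rw [← hp]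
      show Ideal.Quotient.mk (Ideal.span {m}) a * Ideal.Quotient.mk (Ideal.span {m}) (f p.1) = 1
      rw [← map_mul, ← map_one (Ideal.Quotient.mk (Ideal.span {m})), Ideal.Quotient.eq,
        Ideal.mem_span_singleton]
      exact ⟨-b, by linear_combination hab⟩
    exact IsUnit.of_mul_eq_one _ (by rw [mul_comm]; exact h3)
  obtain ⟨cu, rfl⟩ := hcu
  have : Fintype (𝓞 K ⧸ Ideal.span {m})ˣ := Fintype.ofFinite _
  set h := Fintype.card (𝓞 K ⧸ Ideal.span {m})ˣ with hh
  have hpos : 0 < h := Fintype.card_pos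
  let e := Infinite.natEmbedding ((fun p : {p : ℕ | p.Prime ∧ ¬ f p ∣ m * d₀} =>
    Ideal.Quotient.mk (Ideal.span {m}) (f p.1)) ⁻¹' {(cu : 𝓞 K ⧸ Ideal.span {m})})
  let w : ℕ → ℕ := fun i => (e i).1.1
  have hw : Function.Injective w := fun i j hij => e.injective (Subtype.ext (Subtype.ext hij))
  have hwp : ∀ i, (w i).Prime := fun i => (e i).1.2.1
  have hwd : ∀ i, ¬ f (w i) ∣ m * d₀ := fun i => (e i).1.2.2
  have hwc : ∀ i, Ideal.Quotient.mk (Ideal.span {m}) (f (w i)) = (cu : 𝓞 K ⧸ Ideal.span {m}) :=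
    fun i => (e i).2
  have hpr : ∀ i, Prime (f (w i)) := fun i => (hf _ (hwp i)).1
  have hcop : ∀ i j, i ≠ j → IsCoprime (f (w i)) (f (w j)) := fun i j hij =>
    inf_ne hf (hwp i) (hwp j) fun h => hij (hw h)
  let z : ℕ → 𝓞 K := fun k => ∏ i ∈ Finset.range h, f (w (k * h + i))
  have hz : ∀ k, (∀ x, x ^ 3 ∣ d₀ * z k → IsUnit x) ∧ m ∣ d₀ * z k - u := by
    intro k
    constructor
    · refine cf_mul h0 ?_ ?_
      · refine Finset.squarefree_prod_of_pairwise_isCoprime ?_ ?_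
        · intro i _ j _ hij
          refine IsCoprime.isRelPrime (hcop _ _ ?_)
          intro h2
          exact hij (by omega)
        · intro i _
          exact (hpr _).squarefree
      · refine IsCoprime.prod_right fun i _ => ?_
        refine IsCoprime.symm ?_
        refine ((hpr (k * h + i)).irreducible.coprime_iff_not_dvd).2 fun h2 => ?_
        exact hwd _ (h2.mul_left _)
    · have h2 : Ideal.Quotient.mk (Ideal.span {m}) (z k) = 1 := by
        show Ideal.Quotient.mk (Ideal.span {m}) (∏ i ∈ Finset.range h, f (w (k * h + i))) = 1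
        rw [map_prod, Finset.prod_congr rfl fun i _ => hwc _, Finset.prod_const, Finset.card_range,
          ← Units.val_pow_eq_pow_val, pow_card_eq_one, Units.val_one]
      rw [← Ideal.mem_span_singleton, ← Ideal.Quotient.eq, map_mul, h2, mul_one, Ideal.Quotient.eq,
        Ideal.mem_span_singleton]
      exact h1
  have hzi : Function.Injective fun k => d₀ * z k := by
    intro j k hjk
    by_contra hne
    have h2 : f (w (j * h + 0)) ∣ d₀ * z k := by
      have h3 : d₀ * z j = d₀ * z k := hjk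
      rw [← h3]
      refine Dvd.dvd.mul_left ?_ _
      exact Finset.dvd_prod_of_mem _ (Finset.mem_range.2 hpos)
    rcases (hpr _).dvd_or_dvd h2 with h3 | h3
    · exact hwd _ (h3.mul_left _)
    · rw [Prime.dvd_finsetProd_iff (hpr _)] at h3
      obtain ⟨i, hi, h4⟩ := h3
      have h5 : j * h + 0 ≠ k * h + i := by
        intro h6
        rw [Finset.mem_range] at hi
        apply hne
        have h7 : (j * h + 0) / h = (k * h + i) / h := by rw [h6]
        rw [add_zero, Nat.mul_div_cancel _ hpos, mul_comm k h, Nat.mul_add_div hpos,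
          Nat.div_eq_of_lt hi, add_zero] at h7
        exact h7
      have h6 := hcop _ _ h5
      exact (hpr _).not_isUnit (h6.isUnit_of_dvd' dvd_rfl h4)
  exact Set.infinite_of_injective_forall_mem hzi hz

/-- **Monotonicity up to finitely many exceptions**, any type of objects `d` with a size `N d`. -/
theorem mono_fin {α : Type} {N : α → ℝ} {A P Q : α → Prop} {c : ℝ}
    (hN : ∀ X : ℝ, {d : α | A d ∧ N d ≤ X}.Finite)
    (h : ∀ ε : ℝ, 0 < ε → ∀ᶠ X : ℝ in atTop, c - ε ≤
      (Nat.card {d : α // A d ∧ N d ≤ X ∧ P d} : ℝ) / (Nat.card {d : α // A d ∧ N d ≤ X} : ℝ))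
    (hinf : {d : α | A d} = ∅ ∨ {d : α | A d}.Infinite)
    (hex : {d : α | A d ∧ P d ∧ ¬ Q d}.Finite) (ε : ℝ) (hε : 0 < ε) :
    ∀ᶠ X : ℝ in atTop, c - ε ≤
      (Nat.card {d : α // A d ∧ N d ≤ X ∧ Q d} : ℝ) / (Nat.card {d : α // A d ∧ N d ≤ X} : ℝ) := by
  rcases hinf with hinf | hinf
  · filter_upwards [h ε hε] with X hX
    have h1 : ∀ R : α → Prop, Nat.card {d : α // A d ∧ N d ≤ X ∧ R d} = 0 := by
      intro R
      have : IsEmpty {d : α // A d ∧ N d ≤ X ∧ R d} := by
        constructor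
        rintro ⟨d, hd, -⟩
        have h2 : d ∈ ({d : α | A d} : Set α) := hd
        rw [hinf] at h2
        exact h2
      exact Nat.card_of_isEmpty
    rw [h1 P] at hX
    rw [h1 Q]
    exact hX
  · obtain ⟨e, he⟩ : ∃ e : ℕ, e = hex.toFinset.card := ⟨_, rfl⟩
    obtain ⟨n, hn⟩ := exists_nat_ge (2 * (e : ℝ) / ε)
    obtain ⟨S, hS, hSn⟩ := hinf.exists_subset_card_eq (n + 1)
    obtain ⟨B, hB⟩ : ∃ B : ℝ, ∀ d ∈ S, N d ≤ B := by
      obtain ⟨B, hB⟩ := (S.image N).bddAbove
      exact ⟨B, fun d hd => hB (Finset.mem_coe.2 (Finset.mem_image_of_mem _ hd))⟩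
    filter_upwards [h (ε / 2) (half_pos hε), eventually_ge_atTop B] with X hX hXB
    have hfin : ∀ R : α → Prop, {d : α | A d ∧ N d ≤ X ∧ R d}.Finite := by
      intro R
      refine (hN X).subset ?_
      rintro d ⟨h1, h2, -⟩
      exact ⟨h1, h2⟩
    have hNn : (n + 1 : ℕ) ≤ Nat.card {d : α // A d ∧ N d ≤ X} := by
      have h1 : (S : Set α) ⊆ {d : α | A d ∧ N d ≤ X} := fun d hd => ⟨hS hd, (hB d hd).trans hXB⟩
      have h2 := Set.ncard_le_ncard h1 (hN X)
      rw [Set.ncard_coe_finset, hSn] at h2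
      exact h2
    have hPQ : Nat.card {d : α // A d ∧ N d ≤ X ∧ P d} ≤
        Nat.card {d : α // A d ∧ N d ≤ X ∧ Q d} + e := by
      have h1 : {d : α | A d ∧ N d ≤ X ∧ P d} ⊆ {d : α | A d ∧ N d ≤ X ∧ Q d} ∪
          (hex.toFinset : Set α) := by
        rintro d ⟨h1, h3, h4⟩
        by_cases hQ : Q d
        · exact Or.inl ⟨h1, h3, hQ⟩
        · refine Or.inr ?_
          rw [Set.Finite.coe_toFinset]
          exact ⟨h1, h4, hQ⟩
      have h2 := (Set.ncard_le_ncard h1 ((hfin Q).union (Finset.finite_toSet _))).trans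
        (Set.ncard_union_le _ _)
      rw [Set.ncard_coe_finset, ← he] at h2
      exact h2
    obtain ⟨M, hM⟩ : ∃ M, M = Nat.card {d : α // A d ∧ N d ≤ X} := ⟨_, rfl⟩
    obtain ⟨p, hp⟩ : ∃ p, p = Nat.card {d : α // A d ∧ N d ≤ X ∧ P d} := ⟨_, rfl⟩
    obtain ⟨q, hq⟩ : ∃ q, q = Nat.card {d : α // A d ∧ N d ≤ X ∧ Q d} := ⟨_, rfl⟩
    rw [← hM] at hNn hX ⊢
    rw [← hp] at hX hPQ
    rw [← hq] at hPQ ⊢
    have hM0 : (0 : ℝ) < M := by
      have h3 : ((n + 1 : ℕ) : ℝ) ≤ M := by exact_mod_cast hNn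
      push_cast at h3
      have h4 : (0 : ℝ) ≤ n := Nat.cast_nonneg n
      linarith
    have h3 : (p : ℝ) ≤ q + e := by exact_mod_cast hPQ
    have h4 : (p : ℝ) / M ≤ q / M + e / M := by
      rw [← add_div]
      exact div_le_div_of_nonneg_right h3 hM0.le
    have h5 : (e : ℝ) / M ≤ ε / 2 := by
      rw [div_le_iff₀ hM0]
      have h6 : ((n + 1 : ℕ) : ℝ) ≤ M := by exact_mod_cast hNn
      push_cast at h6
      have h7 : 2 * (e : ℝ) / ε ≤ M := by linarith
      rw [div_le_iff₀ hε] at h7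
      linarith
    linarith

end Pool.Agent.Lib.MP_1a91b9_ntCC
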