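import Pool.Agent.Lib.MP_1a91b9_ntN.F.Fin3
import Pool.Agent.Lib.MP_1a91b9_ntN.Q.Iso
import Pool.Agent.Lib.MP_1a91b9_ntI.Qd

/-!
# The places above `3` in the towers
-/

set_option autoImplicit false

namespace Pool.Agent.Lib.MP_1a91b9_ntCC

open NumberField IsDedekindDomain
open Pool.Agent.Lib.MP_1a91b9_ntN (OddT K3)

/-- Odd ramification. -/
theorem oddT_up {F L : Type} [Field F] [NumberField F] [Field L] [NumberField L] [Algebra F L]
    (h : OddT F) (ho : ∀ w : HeightOneSpectrum (𝓞 L), Odd (w.asIdeal.ramificationIdx (𝓞 F))) :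
    OddT L := by
  intro w hw
  have h1 : (3 : 𝓞 F) ∈ (w.under (𝓞 F)).asIdeal := by
    show algebraMap (𝓞 F) (𝓞 L) 3 ∈ w.asIdeal
    rw [map_ofNat]
    exact hw
  obtain ⟨n, hn1, hn2⟩ := h _ h1
  have h2 := Pool.Agent.Lib.MP_1a91b9_ntN.log_base w (3 : F)
  rw [map_ofNat, hn2] at h2
  refine ⟨w.asIdeal.ramificationIdx (𝓞 F) * n, ?_, by rw [h2]; ring⟩
  exact ((Int.odd_coe_nat _).2 (ho w)).mul hn1

/-- the ramification index divides the degree -/
theorem ro_dvd {F M : Type} [Field F] [NumberField F] [Field M] [NumberField M] [Algebra F M]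
    [IsGalois F M] (w : HeightOneSpectrum (𝓞 M)) :
    w.asIdeal.ramificationIdx (𝓞 F) ∣ Module.finrank F M := by
  have hvp : (w.under (𝓞 F)).asIdeal.IsPrime := (w.under (𝓞 F)).isPrime
  have hvm : (w.under (𝓞 F)).asIdeal.IsMaximal := (w.under (𝓞 F)).isMaximal
  have hfund := Ideal.ncard_primesOver_mul_ramificationIdxIn_mul_inertiaDegIn
    (w.under (𝓞 F)).asIdeal (𝓞 M) Gal(M/F)
  rw [IsGalois.card_aut_eq_finrank] at hfund
  have i1 : w.asIdeal.IsPrime := w.isPrime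
  have i2 : w.asIdeal.LiesOver (w.under (𝓞 F)).asIdeal := ⟨rfl⟩
  have h1 : w.asIdeal.ramificationIdx (𝓞 F) =
      Ideal.ramificationIdxIn (w.under (𝓞 F)).asIdeal (𝓞 M) :=
    (Ideal.ramificationIdxIn_eq_ramificationIdx (w.under (𝓞 F)).asIdeal w.asIdeal Gal(M/F)).symm
  obtain ⟨c, hc⟩ : ∃ c, c = (w.under (𝓞 F)).asIdeal.ramificationIdxIn (𝓞 M) := ⟨_, rfl⟩
  rw [h1]
  rw [← hc] at hfund ⊢
  rw [← hfund]
  exact Dvd.dvd.mul_left (Dvd.intro _ rfl) _

theorem oddT_gal {F L M : Type} [Field F] [NumberField F] [Field L] [NumberField L] [Field M]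
    [NumberField M] [Algebra F L] [Algebra L M] [Algebra F M] [IsScalarTower F L M] [IsGalois F M]
    (hM : Odd (Module.finrank F M)) (h : OddT F) : OddT L := by
  refine oddT_up h fun w => ?_
  have iw : w.asIdeal.IsMaximal := w.isMaximal
  obtain ⟨P, hP, hPw⟩ := Ideal.exists_maximal_ideal_liesOver_of_isIntegral (S := 𝓞 M) w.asIdeal
  have hPb : P ≠ ⊥ := by
    rintro rfl
    have h2 := hPw.over
    rw [Ideal.under_bot] at h2
    exact w.ne_bot h2
  obtain ⟨u, hu⟩ : ∃ u : HeightOneSpectrum (𝓞 M), u = ⟨P, hP.isPrime, hPb⟩ := ⟨_, rfl⟩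
  have huP : u.asIdeal = P := by rw [hu]
  have iu : u.asIdeal.LiesOver w.asIdeal := by
    rw [huP]
    exact hPw
  have h1 : w.asIdeal.ramificationIdx (𝓞 F) ∣ u.asIdeal.ramificationIdx (𝓞 F) :=
    Ideal.ramificationIdx_below_dvd (R := 𝓞 F) w.asIdeal u.asIdeal
  exact Odd.of_dvd_nat (Odd.of_dvd_nat hM (ro_dvd u)) h1

section
attribute [local instance 5000] Pool.Agent.Lib.MP_1a91b9_ntN.cd3

theorem oddT_F (K : Type) [Field K] [NumberField K] (hK : Module.finrank ℚ K = 2)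
    (h3 : ∃ s : K, s ^ 2 = -3) (F : Type) [Field F] [NumberField F] [Algebra K F]
    (hF : IntermediateField.adjoin K {x : F | ∃ c : K, x ^ 3 = algebraMap K F c} = ⊤) : OddT F := by
  obtain ⟨s, hs⟩ := h3
  have hθ : ((1 + s) / 2 : K) ^ 2 = (1 + s) / 2 - 1 := by
    field_simp
    linear_combination hs
  have hl : ((Pool.Agent.Lib.MP_1a91b9_nuT.CD.ta : 𝓞 K3) : K3) ^ 2 =
      (Pool.Agent.Lib.MP_1a91b9_nuT.CD.ta : 𝓞 K3) - 1 := by
    have h1 := congrArg (fun x : 𝓞 K3 => (x : K3)) Pool.Agent.Lib.MP_1a91b9_nuT.CD.quad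
    rw [Pool.Agent.Lib.MP_1a91b9_ntN.cdtr_eq3, Pool.Agent.Lib.MP_1a91b9_ntN.cdnm_eq3] at h1
    push_cast at h1
    rw [one_mul] at h1
    exact h1
  obtain ⟨e⟩ := Pool.Agent.Lib.MP_1a91b9_ntI.exists_iso_pq (K := K3)
    (Pool.Agent.Lib.MP_1a91b9_nuT.finrank_K : Module.finrank ℚ K3 = 2) hK (t := 1) (n := 1)
    (by norm_num) (s := ((Pool.Agent.Lib.MP_1a91b9_nuT.CD.ta : 𝓞 K3) : K3))
    (by rw [hl]; push_cast; ring) (s' := (1 + s) / 2) (by rw [hθ]; push_cast; ring)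
  let _ : Algebra K3 F := ((algebraMap K F).comp (e : K3 →+* K)).toAlgebra
  have hal : ∀ x : K3, algebraMap K3 F x = algebraMap K F (e x) := fun _ => rfl
  have hr : Set.range (algebraMap K3 F) = Set.range (algebraMap K F) := by
    ext y
    constructor
    · rintro ⟨x, rfl⟩
      exact ⟨e x, (hal x).symm⟩
    · rintro ⟨x, rfl⟩
      exact ⟨e.symm x, by rw [hal, e.apply_symm_apply]⟩
  have hset : {x : F | ∃ c : K3, x ^ 3 = algebraMap K3 F c} =
      {x : F | ∃ c : K, x ^ 3 = algebraMap K F c} := by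
    ext x
    constructor
    · rintro ⟨c, hc⟩
      exact ⟨e c, hc⟩
    · rintro ⟨c, hc⟩
      exact ⟨e.symm c, by rw [hal, e.apply_symm_apply]; exact hc⟩
  obtain ⟨A, hA⟩ := Pool.Agent.Lib.MP_1a91b9_ntN.MCT.exists_of (F := F)
    (Pool.Agent.Lib.MP_1a91b9_ntN.adjoin_top hr (by rw [hset]; exact hF))
  exact hA.oddT

end

/-- **The places above `3` in the towers.** -/
theorem oddT_tower (K : Type) [Field K] [NumberField K] (hK : Module.finrank ℚ K = 2)
    (h3 : ∃ s : K, s ^ 2 = -3) (F : Type) [Field F] [NumberField F] [Algebra K F]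
    (hF : IntermediateField.adjoin K {x : F | ∃ c : K, x ^ 3 = algebraMap K F c} = ⊤)
    (L M : Type) [Field L] [NumberField L] [Field M] [NumberField M] [Algebra F L] [Algebra L M]
    [Algebra F M] [IsScalarTower F L M] [IsGalois F M] (hM : Odd (Module.finrank F M)) : OddT L :=
  oddT_gal hM (oddT_F K hK h3 F hF)

end Pool.Agent.Lib.MP_1a91b9_ntCC
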