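import Pool.Agent.Lib.MP_1a91b9_ntCC.Den
import Pool.Agent.Lib.MP_1a91b9_ntCC.RN
import Pool.Agent.Lib.MP_1a91b9_ntCC.RXa
import Pool.Agent.Lib.MP_1a91b9_ntCC.RXb
import Pool.Agent.Lib.MP_1a91b9_ntCS.S.T
import Pool.Agent.Lib.MP_1a91b9_ntW.J.Mono

/-!
# MP_1a91b9_nt (cubic stability): the law
-/

set_option autoImplicit false

namespace Pool.Agent.Lib.MP_1a91b9_ntCC

open NumberField IsDedekindDomain WeierstrassCurve
open Pool.Agent.Lib.MP_1a91b9_ntJ (TowP finite_norm)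
open Pool.Agent.Lib.MP_1a91b9_ntZ (bn AtF AtF.mono set_form CB cb_three)
open Pool.Agent.Lib.MP_1a91b9_ntCS.S (RamV tow_step3 cube_gen)
open Pool.Agent.Lib.MP_1a91b9_ntC.Sh (RelQ)

noncomputable section

/-- The towers property for `L = M = F`: the group of points is finite. -/
theorem fin_of_towP {K : Type} [Field K] [NumberField K] {F : Type} [Field F] [NumberField F]
    [Algebra K F] {V : WeierstrassCurve F} (h : TowP K V) : Finite V.toAffine.Point := by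
  obtain ⟨S, hS⟩ := h
  obtain ⟨q, hq1, hq⟩ := Nat.exists_infinite_primes (S.sup id + 1)
  have hqS : q ∉ S := fun h => by
    have h1 : id q ≤ S.sup id := Finset.le_sup h
    rw [id] at h1
    omega
  have _ : Fact q.Prime := ⟨hq⟩
  obtain ⟨g, -, -, -, -, -, -, g7, -⟩ := hS q hqS 0 F F F (by rw [pow_zero, Module.finrank_self])
    (fun v w hvw => by
      exfalso
      have h0 : v.asIdeal ≤ w.asIdeal ^ 2 := fun x hx => hvw (Ideal.mem_map_of_mem _ hx)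
      have h1 : v.asIdeal = w.asIdeal :=
        v.isMaximal.eq_of_le w.isPrime.ne_top (h0.trans (Ideal.pow_le_self two_ne_zero))
      rw [h1] at h0
      exact absurd (Ideal.pow_lt_self w.asIdeal w.ne_bot w.isPrime.ne_top 2 le_rfl)
        (not_lt_of_ge h0)) V 1 (by
      rw [one_smul])
  exact g7

/-- no new points over `F(∛e)` -/
def NoNewC {K : Type} [Field K] (a : K) (F : Type) [Field F] [NumberField F] [Algebra K F]
    (e : K) : Prop :=
  ∀ (F' : Type) [Field F'] [NumberField F'] [Algebra F F'] (x : F'),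
    x ^ 3 = algebraMap F F' (algebraMap K F e) → IntermediateField.adjoin F {x} = ⊤ →
    ∀ x' y' : F', (((⟨0, 0, a, 0, 0⟩ : WeierstrassCurve K).map (algebraMap K F)).map
      (algebraMap F F')).toAffine.Equation x' y' →
      ∃ x y : F, algebraMap F F' x = x' ∧ algebraMap F F' y = y'

/-- the property in the towers -/
def TowC {K : Type} [Field K] [NumberField K] (a : K) (F : Type) [Field F] [NumberField F]
    [Algebra K F] (e : K) : Prop :=
  ∃ S : Finset ℕ, ∀ (q : ℕ) [Fact q.Prime], q ∉ S →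
    ∀ (k : ℕ) (L M : Type) [Field L] [NumberField L] [Field M] [NumberField M] [Algebra F L]
      [Algebra L M] [Algebra F M] [IsScalarTower F L M] [IsGalois F M],
      Module.finrank F M = q ^ k →
    RamV K (⟨0, 0, algebraMap K F (a * e), 0, 0⟩ : WeierstrassCurve F) q L →
    RamV K (⟨0, 0, algebraMap K F (a * e ^ 2), 0, 0⟩ : WeierstrassCurve F) q L →
    ∀ (L' : Type) [Field L'] [NumberField L'] [Algebra L L'] (y : L'),
      y ^ 3 = algebraMap L L' (algebraMap F L (algebraMap K F e)) →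
      IntermediateField.adjoin L {y} = ⊤ →
      RelQ q (((⟨0, 0, a, 0, 0⟩ : WeierstrassCurve K).map (algebraMap K F)).map (algebraMap F L))
        ((((⟨0, 0, a, 0, 0⟩ : WeierstrassCurve K).map (algebraMap K F)).map
          (algebraMap F L)).map (algebraMap L L'))

/-- both properties -/
def StbC {K : Type} [Field K] [NumberField K] (a : K) (F : Type) [Field F] [NumberField F]
    [Algebra K F] (e : K) : Prop :=
  NoNewC a F e ∧ TowC a F e

/-- the step -/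
theorem stbC_step {K : Type} [Field K] [NumberField K] (hK : Module.finrank ℚ K = 2)
    (h3 : ∃ s : K, s ^ 2 = -3) {a : K} (ha : a ≠ 0) {F : Type} [Field F] [NumberField F]
    [Algebra K F] (hF : IntermediateField.adjoin K {x : F | ∃ c : K, x ^ 3 = algebraMap K F c} = ⊤)
    {B : Finset F}
    (hB : ∀ (F' : Type) [Field F'] [NumberField F'] [Algebra F F']
      (e : F) (θ : F'), θ ^ 3 = algebraMap F F' e → (¬ ∃ y : F, algebraMap F F' y = θ) →
      (∀ z : F', ∃ b c d : F,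
        z = algebraMap F F' b + algebraMap F F' c * θ + algebraMap F F' d * θ ^ 2) →
      Finite (⟨0, 0, e * algebraMap K F a, 0, 0⟩ : WeierstrassCurve F).toAffine.Point →
      Finite (⟨0, 0, e ^ 2 * algebraMap K F a, 0, 0⟩ : WeierstrassCurve F).toAffine.Point →
      (∀ β ∈ B, ∀ c : F, c ^ 3 * e ≠ β ∧ c ^ 3 * e ^ 2 ≠ β) →
      ∀ x' y' : F', ((⟨0, 0, algebraMap K F a, 0, 0⟩ : WeierstrassCurve F).baseChange
        F').toAffine.Equation x' y' →
        ∃ x₀ y₀ : F, algebraMap F F' x₀ = x' ∧ algebraMap F F' y₀ = y')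
    {d : 𝓞 K} (hd : d ≠ 0)
    (hT1 : TowP K (⟨0, 0, algebraMap K F (a * (d : K)), 0, 0⟩ : WeierstrassCurve F))
    (hT2 : TowP K (⟨0, 0, algebraMap K F (a * (d : K) ^ 2), 0, 0⟩ : WeierstrassCurve F))
    (h1 : ∀ c : F, c ^ 3 * algebraMap K F (d : K) ≠ 1)
    (hdB : ∀ β ∈ B, ∀ c : F, c ^ 3 * algebraMap K F (d : K) ≠ β ∧
      c ^ 3 * algebraMap K F (d : K) ^ 2 ≠ β) : StbC a F (d : K) := by
  have hd0 : algebraMap K F (d : K) ≠ 0 := by
    rw [Ne, map_eq_zero]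
    exact_mod_cast hd
  have hcu : ¬ ∃ x : F, x ^ 3 = algebraMap K F (d : K) := by
    rintro ⟨x, hx⟩
    refine h1 x⁻¹ ?_
    rw [← hx, inv_pow, inv_mul_cancel₀]
    rw [hx]
    exact hd0
  refine ⟨fun F' _ _ _ x hx hgen x' y' heq => ?_, tow_step3 hK h3 ha hF hd hcu hT1 hT2⟩
  have hn : ¬ ∃ y : F, algebraMap F F' y = x := by
    rintro ⟨y, rfl⟩
    refine hcu ⟨y, (algebraMap F F').injective ?_⟩
    rw [map_pow, hx]
  have f1 := fin_of_towP hT1
  have f2 := fin_of_towP hT2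
  rw [map_mul, mul_comm] at f1
  rw [map_mul, map_pow, mul_comm] at f2
  refine hB F' _ x hx hn (fun z => cube_gen hx hgen z) f1 f2 hdB x' y' ?_
  have e1 : ((⟨0, 0, a, 0, 0⟩ : WeierstrassCurve K).map (algebraMap K F)).map (algebraMap F F') =
      (⟨0, 0, algebraMap K F a, 0, 0⟩ : WeierstrassCurve F).baseChange F' :=
    WeierstrassCurve.ext (by simp) (by simp) rfl (by simp) (by simp)
  rwa [e1] at heq

/-- **The law for finite sets of multipliers.** -/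
theorem csR_fin (K : Type) [Field K] [NumberField K] (hK : Module.finrank ℚ K = 2)
    (h3 : ∃ s : K, s ^ 2 = -3) {a : K} (ha : a ≠ 0) (F : Type) [Field F] [NumberField F]
    [Algebra K F]
    (hF : IntermediateField.adjoin K {x : F | ∃ c : K, x ^ 3 = algebraMap K F c} = ⊤)
    (n : ℕ) (m u : 𝓞 K) (hm : m ∣ 3 ^ n) (hu : ∀ p, Prime p → ¬ (p ^ 3 ∣ m ∧ p ^ 3 ∣ u))
    (T' : Finset (𝓞 K)) (h0 : 0 ∉ T') (hsep : Sep3a F a T') (t : ℕ) (ε : ℝ) (hε : 0 < ε) :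
    ∀ᶠ X : ℝ in Filter.atTop,
      bn T'.card t ((∏' i : ℕ, (1 + 1 / (3 : ℝ) ^ (i + 1))⁻¹) ^ (2 * Module.finrank K F)) - ε ≤
      (Nat.card {d : 𝓞 K // (∀ x, x ^ 3 ∣ d → IsUnit x) ∧ m ∣ d - u ∧ |Algebra.norm ℤ d| ≤ X ∧
        AtF T' t fun δ => StbC a F ((δ : K) * (d : K))} : ℝ) /
        (Nat.card {d : 𝓞 K // (∀ x, x ^ 3 ∣ d → IsUnit x) ∧ m ∣ d - u ∧
          |Algebra.norm ℤ d| ≤ X} : ℝ) := by
  obtain ⟨s, hs⟩ := h3
  have hs' : s ^ 2 = ((-3 : ℤ) : K) := by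
    rw [hs]
    push_cast
    rfl
  have hfu : Finite (𝓞 K)ˣ := Pool.Agent.Lib.MP_1a91b9_ntW.J.finite_units hK
    (Pool.Agent.Lib.MP_1a91b9_ntW.J.no_real hs' (by norm_num))
  have htc : IsTotallyComplex K := Pool.Agent.Lib.MP_1a91b9_ntJ.tc_of_sq (D := -3) (by norm_num)
    (s := s) hs'
  have hpir : IsPrincipalIdealRing (𝓞 K) := by
    obtain ⟨e⟩ := Pool.Agent.Lib.MP_1a91b9_ntJ.exists_e6 hK hs
    obtain ⟨e'⟩ := Pool.Agent.Lib.MP_1a91b9_ntN.exists_iso36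
    obtain ⟨f, -⟩ : ∃ f : Pool.Agent.Lib.MP_1a91b9_ntT.K ≃+* K, True :=
      ⟨(e' : Pool.Agent.Lib.MP_1a91b9_ntT.K ≃+* _).trans e, trivial⟩
    exact Pool.Agent.Lib.MP_1a91b9_ntI.pir_of f Pool.Agent.Lib.MP_1a91b9_ntH.pidO
  have hz : ∃ z : K, z ^ 2 + z + 1 = 0 := by
    refine ⟨(-1 + s) / 2, ?_⟩
    field_simp
    linear_combination hs
  have hzF : ∃ z : F, z ^ 2 + z + 1 = 0 := by
    obtain ⟨z, hz⟩ := hz
    refine ⟨algebraMap K F z, ?_⟩
    rw [← map_pow, ← map_add, ← map_one (algebraMap K F), ← map_add, hz, map_zero]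
  have haF : algebraMap K F a ≠ 0 := (map_ne_zero _).2 ha
  have hm0 : m ≠ 0 := by
    rintro rfl
    have h4 : (3 : 𝓞 K) ≠ 0 := by norm_num
    exact pow_ne_zero n h4 (zero_dvd_iff.1 hm)
  obtain ⟨B, hB0, hB⟩ := no_new3 hzF haF
  have hlaw := cs_bin K hK ⟨s, hs⟩ ha F hF n m u hm hu T' h0 hsep t
  simp only [← and_assoc] at hlaw ⊢
  have key := mono_fin (α := 𝓞 K) (N := fun d => ((|Algebra.norm ℤ d| : ℤ) : ℝ))
    (A := fun d => (∀ x, x ^ 3 ∣ d → IsUnit x) ∧ m ∣ d - u)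
    (P := fun d => AtF T' t fun δ =>
          TowP K (⟨0, 0, algebraMap K F (a * ((δ : K) * (d : K))), 0, 0⟩ : WeierstrassCurve F) ∧
          TowP K (⟨0, 0, algebraMap K F (a * ((δ : K) * (d : K)) ^ 2), 0, 0⟩ :
            WeierstrassCurve F))
    (Q := fun d => AtF T' t fun δ => StbC a F ((δ : K) * (d : K)))
    (c := bn T'.card t ((∏' i : ℕ, (1 + 1 / (3 : ℝ) ^ (i + 1))⁻¹) ^ (2 * Module.finrank K F)))
    (fun X => (finite_norm hK X).subset fun d hd => hd.2)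
    (fun η hη => by
      have h := hlaw η hη
      simp only [and_assoc] at h ⊢
      exact h) ?_ ?_ ε hε
  · simp only [and_assoc] at key ⊢
    exact key
  · rcases Set.eq_empty_or_nonempty {d : 𝓞 K | (∀ x, x ^ 3 ∣ d → IsUnit x) ∧ m ∣ d - u} with
      h2 | ⟨d₀, h2, h3⟩
    · exact Or.inl h2
    · exact Or.inr (inf_cf hm0 h2 h3)
  · have hex : (⋃ δ ∈ (T' : Set (𝓞 K)), ⋃ β ∈ (insert 1 (B : Set F)), {d : 𝓞 K |
        (∀ x, x ^ 3 ∣ d → IsUnit x) ∧ ∃ c : F,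
          c ^ 3 * algebraMap K F ((δ : K) * (d : K)) = β ∨
          c ^ 3 * algebraMap K F ((δ : K) * (d : K)) ^ 2 = β}).Finite := by
      refine Set.Finite.biUnion T'.finite_toSet fun δ hδ => ?_
      refine Set.Finite.biUnion (B.finite_toSet.insert 1) fun β hβ => ?_
      refine fin_ex3 hz (fun h => h0 (h ▸ hδ)) ?_
      rcases hβ with rfl | hβ
      · exact one_ne_zero
      · exact hB0 β hβ
    refine hex.subset ?_
    rintro d ⟨⟨hd, -⟩, h2, h3⟩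
    by_contra hcon
    refine h3 (h2.mono fun δ hδ h4 => ?_)
    have hδ0 : δ ≠ 0 := fun h => h0 (h ▸ hδ)
    have hd0 : d ≠ 0 := by
      rintro rfl
      have h5 : IsUnit (0 : 𝓞 K) := hd 0 (dvd_zero _)
      exact not_isUnit_zero h5
    have hns : ∀ β ∈ insert 1 (B : Set F), ∀ c : F,
        c ^ 3 * algebraMap K F ((δ : K) * (d : K)) ≠ β ∧
          c ^ 3 * algebraMap K F ((δ : K) * (d : K)) ^ 2 ≠ β := by
      intro β hβ c
      constructor
      · intro h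
        exact hcon (Set.mem_biUnion hδ (Set.mem_biUnion hβ ⟨hd, c, Or.inl h⟩))
      · intro h
        exact hcon (Set.mem_biUnion hδ (Set.mem_biUnion hβ ⟨hd, c, Or.inr h⟩))
    obtain ⟨e, he⟩ : ∃ e : 𝓞 K, e = δ * d := ⟨_, rfl⟩
    have he' : (e : K) = (δ : K) * (d : K) := by
      rw [he]
      rfl
    have he0 : e ≠ 0 := by
      rw [he]
      exact mul_ne_zero hδ0 hd0
    rw [← he'] at h4 hns ⊢
    exact stbC_step hK ⟨s, hs⟩ ha hF hB he0 h4.1 h4.2 (fun c => (hns 1 (Or.inl rfl) c).1)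
      fun β hβ c => hns β (Or.inr hβ) c

open Classical in
/-- **The law.** -/
theorem csR (K : Type) [Field K] [NumberField K] (hK : Module.finrank ℚ K = 2)
    (h3 : ∃ s : K, s ^ 2 = -3) {a : K} (ha : a ≠ 0) (F : Type) [Field F] [NumberField F]
    [Algebra K F]
    (hF : IntermediateField.adjoin K {x : F | ∃ c : K, x ^ 3 = algebraMap K F c} = ⊤)
    (T : Set (𝓞 K)) (h0 : 0 ∉ T)
    (hT : ∀ δ ∈ T, ∀ δ' ∈ T, δ ≠ δ' → ∀ i : ℕ, ∀ x : F, x ≠ 0 →
      x ^ 3 * algebraMap K F (δ' : K) ≠ algebraMap K F (a ^ i * (δ : K)))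
    (n : ℕ) (m u : 𝓞 K) (hm : m ∣ 3 ^ n) (hu : ∀ p, Prime p → ¬ (p ^ 3 ∣ m ∧ p ^ 3 ∣ u))
    (c : ℝ) (hc : c = ∏' i : ℕ, (1 + 1 / (3 : ℝ) ^ (i + 1))⁻¹) (t : ℕ) (v : ℝ)
    (hv : v = if T.Infinite then 1 else ∑ j ∈ Finset.Icc t T.ncard, (T.ncard.choose j : ℝ) *
      (c ^ (2 * Module.finrank K F)) ^ j *
        (1 - c ^ (2 * Module.finrank K F)) ^ (T.ncard - j)) (ε : ℝ) (hε : 0 < ε) :
    ∀ᶠ X : ℝ in Filter.atTop, v - ε ≤
      (Nat.card {d : 𝓞 K // (∀ x, x ^ 3 ∣ d → IsUnit x) ∧ m ∣ d - u ∧ |Algebra.norm ℤ d| ≤ X ∧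
        t ≤ {δ ∈ T | StbC a F ((δ : K) * (d : K))}.encard} : ℝ) /
        (Nat.card {d : 𝓞 K // (∀ x, x ^ 3 ∣ d → IsUnit x) ∧ m ∣ d - u ∧
          |Algebra.norm ℤ d| ≤ X} : ℝ) := by
  have hv' : (T.Infinite → v = 1) ∧
      (T.Finite → v = bn T.ncard t (c ^ (2 * Module.finrank K F))) := by
    constructor
    · intro h
      rw [hv, if_pos h]
    · intro h
      rw [hv, if_neg (Set.not_infinite.2 h)]
      rfl
  obtain ⟨s, hs⟩ := h3
  have htc : IsTotallyComplex K := Pool.Agent.Lib.MP_1a91b9_ntJ.tc_of_sq (D := -3) (by norm_num)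
    (s := s) (by
      rw [hs]
      push_cast
      rfl)
  have hcb : CB (c ^ (2 * Module.finrank K F)) := by
    rw [hc]
    exact cb_three.pow _
  refine set_form (A := fun d : 𝓞 K => ∀ x, x ^ 3 ∣ d → IsUnit x) (B := fun d => m ∣ d - u)
    (C := fun X d => |Algebra.norm ℤ d| ≤ X) hcb.1 hcb.2 T t (fun X => finite_norm hK X)
    (fun T' hT' η hη => ?_) hv' ε hε
  rw [hc]
  exact csR_fin K hK ⟨s, hs⟩ ha F hF n m u hm hu T' (fun h => h0 (hT' _ h))
    (fun δ hδ δ' hδ' hne => hT δ (hT' δ hδ) δ' (hT' δ' hδ') hne) t η hη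

end

end Pool.Agent.Lib.MP_1a91b9_ntCC
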