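import Pool.Agent.Lib.MP_1a91b9_ntN.F.Fin3

/-!
# The L-series over a cubic extension is the product of the L-series of the curve and of its two twists
-/

set_option autoImplicit false

namespace Pool.Agent.Lib.MP_1a91b9_ntCC

open NumberField IsDedekindDomain WeierstrassCurve
  Pool.Agent.Lib.MP_1a91b9_nt Pool.Agent.Lib.MP_1a91b9_nuT Pool.Agent.Lib.MP_1a91b9_ntM
open Pool.Agent.Lib.MP_1a91b9_nuX.PG Pool.Agent.Lib.MP_1a91b9_nuX.LG Pool.Agent.Lib.MP_1a91b9_nuX.GL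
  Pool.Agent.Lib.MP_1a91b9_nuX.PH
open Pool.Agent.Lib.MP_1a91b9_nuX.PA (pC bC_eq)
open Pool.Agent.Lib.MP_1a91b9_ntN

universe u

section
variable [CD]

/-- **The step.** -/
theorem lser_step3 {N F : Type u} [Field N] [NumberField N] [Field F] [NumberField F]
    [Algebra N F] [Algebra K N] [Algebra K F] {W Wa Wb : WeierstrassCurve N}
    {W' : WeierstrassCurve F} {ps pa pb : Ideal (𝓞 N) → 𝓞 K} {ps' : Ideal (𝓞 F) → 𝓞 K}
    (h : PDat N W ps) (ha : PDat N Wa pa) (hb : PDat N Wb pb) (h' : PDat F W' ps')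
    (hL : LocStep3 ps pa pb ps') {s : ℂ} (hs : 3 / 2 < s.re) :
    W'.LSeries s = W.LSeries s * Wa.LSeries s * Wb.LSeries s := by
  have e1 := Lf_step3 (pC ps) (pC pa) (pC pb) (pC ps') h.pC_one h.pC_mul h.nrm ha.pC_one ha.pC_mul
    ha.nrm hb.pC_one hb.pC_mul hb.nrm h'.pC_one h'.pC_mul h'.nrm hL.complex' s hs
  have e2 := Lf_step3 (bC ps) (bC pa) (bC pb) (bC ps') h.bC_one h.bC_mul h.norm_bC ha.bC_one
    ha.bC_mul ha.norm_bC hb.bC_one hb.bC_mul hb.norm_bC h'.bC_one h'.bC_mul h'.norm_bC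
    hL.complex s hs
  rw [h.ser s hs, ha.ser s hs, hb.ser s hs, h'.ser s hs, e1, e2]
  ring

/-- **The L-series over a cubic extension**, curves `y² + δ y = x³`. -/
theorem lser_cub {F F' : Type u} [Field F] [NumberField F] [Field F'] [NumberField F'] [Algebra F F']
    [Algebra K F] [Algebra K F'] [IsScalarTower K F F'] {x : F'} (h : Six) {α δ : F}
    (hx : x ^ 3 = algebraMap F F' α) (hn : ¬ ∃ y : F, algebraMap F F' y = x)
    (hgen : ∀ z : F', ∃ b c d : F,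
      z = algebraMap F F' b + algebraMap F F' c * x + algebraMap F F' d * x ^ 2)
    (hδ : δ ≠ 0) (o : OddT F) {s : ℂ} (hs : 3 / 2 < s.re) :
    (Wu F' (algebraMap F F' δ)).LSeries s =
      (Wu F δ).LSeries s * (Wu F (α * δ)).LSeries s * (Wu F (α ^ 2 * δ)).LSeries s := by
  have hα := alpha_ne hx hn
  have hE := ellK_six h.tr h.nm
  have hδ' : algebraMap F F' δ ≠ 0 := by
    rw [Ne, map_eq_zero]
    exact hδ
  exact lser_step3 (pdatP hE (fm_Wu h.A h.B hδ)) (pdatP hE (fm_Wu h.A h.B (mul_ne_zero hα hδ)))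
    (pdatP hE (fm_Wu h.A h.B (mul_ne_zero (pow_ne_zero 2 hα) hδ)))
    (pdatP hE (fm_Wu h.A h.B hδ')) (locStep3 hE h.A h.B h.quad hgen hα hδ hx hn o) hs

end

end Pool.Agent.Lib.MP_1a91b9_ntCC
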