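import Mathlib

/-!
# Heights of the ordinates of `y² + a y = x³`: duplication
-/

set_option autoImplicit false

namespace Pool.Agent.Lib.MP_1a91b9_ntCC

open Height

/-- the duplication map on the ordinates of `y² = x³ + B` -/
noncomputable def dupS {F : Type*} [Field F] (B s : F) : F :=
  (s ^ 4 + 18 * B * s ^ 2 - 27 * B ^ 2) / (8 * s ^ 3)

open MvPolynomial in
/-- the cubic coefficients -/
private noncomputable def RTa_q {F : Type} [Field F] (B : F) (a : Fin 2 × Fin 2) :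
    MvPolynomial (Fin 2) F :=
  (![![X 0 ^ 3, C (-(9 / 4) * B) * (X 0 ^ 2 * X 1) + C (27 / 8 * B ^ 2) * X 1 ^ 3],
    ![C (-(1 / (27 * B ^ 2))) * X 1 ^ 3 + C (-(2 / (81 * B ^ 3))) * (X 0 ^ 2 * X 1),
      C (13 / (216 * B ^ 2)) * (X 0 * X 1 ^ 2) + C (1 / (324 * B ^ 3)) * X 0 ^ 3]] :
      Fin 2 → Fin 2 → MvPolynomial (Fin 2) F) a.1 a.2

open MvPolynomial in
private theorem RTa_q_hom {F : Type} [Field F] (B : F) (a : Fin 2 × Fin 2) :
    (RTa_q B a).IsHomogeneous 3 := by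
  obtain ⟨i, j⟩ := a
  fin_cases i <;> fin_cases j
  · exact isHomogeneous_X_pow 0 3
  · exact (((isHomogeneous_X_pow 0 2).mul (isHomogeneous_X F 1)).C_mul _).add
      ((isHomogeneous_X_pow 1 3).C_mul _)
  · exact ((isHomogeneous_X_pow 1 3).C_mul _).add
      (((isHomogeneous_X_pow 0 2).mul (isHomogeneous_X F 1)).C_mul _)
  · exact (((isHomogeneous_X F 0).mul (isHomogeneous_X_pow 1 2)).C_mul _).add
      ((isHomogeneous_X_pow 0 3).C_mul _)

theorem height_dupS {F : Type} [Field F] [NumberField F] {B : F} (hB : B ≠ 0) :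
    ∃ C : ℝ, ∀ s : F, s ≠ 0 → 4 * logHeight₁ s - C ≤ logHeight₁ (dupS B s) := by
  obtain ⟨C₁, hC⟩ := Height.logHeight_eval_ge' (K := F) (M := 3) (N := 4) (RTa_q_hom B)
  refine ⟨-C₁, fun s _ => ?_⟩
  have h1 := hC (fun j => MvPolynomial.C
      ((![s ^ 4 + 18 * B * s ^ 2 - 27 * B ^ 2, 8 * s ^ 3] : Fin 2 → F) j)) (x := ![s, 1]) (by
    intro k
    fin_cases k
    · simp [RTa_q, Fin.sum_univ_two]
      ring
    · simp [RTa_q, Fin.sum_univ_two]
      field_simp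
      ring)
  unfold dupS
  rw [Height.logHeight₁_div_eq_logHeight, Height.logHeight₁_eq_logHeight]
  have h2 : (fun j => (MvPolynomial.C
      ((![s ^ 4 + 18 * B * s ^ 2 - 27 * B ^ 2, 8 * s ^ 3] : Fin 2 → F) j) :
      MvPolynomial (Fin 2) F).eval ![s, 1]) =
      ![s ^ 4 + 18 * B * s ^ 2 - 27 * B ^ 2, 8 * s ^ 3] := by
    funext j
    rw [MvPolynomial.eval_C]
  rw [h2] at h1
  have h3 : C₁ + 4 * logHeight ![s, 1] ≤
      logHeight ![s ^ 4 + 18 * B * s ^ 2 - 27 * B ^ 2, 8 * s ^ 3] := by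
    exact_mod_cast h1
  linarith

end Pool.Agent.Lib.MP_1a91b9_ntCC
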