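import Pool.Agent.Lib.MP_1a91b9_ntCC.RTa

/-!
# The duplication on `y² + a y = x³`
-/

set_option autoImplicit false

namespace Pool.Agent.Lib.MP_1a91b9_ntCC

open WeierstrassCurve

theorem dupS_point {F : Type} [Field F] [CharZero F] [DecidableEq F] {a x y : F}
    (h : (⟨0, 0, a, 0, 0⟩ : WeierstrassCurve F).toAffine.Nonsingular x y) (h0 : y + a / 2 ≠ 0) :
    ∃ (x' : F) (h' : (⟨0, 0, a, 0, 0⟩ : WeierstrassCurve F).toAffine.Nonsingular x'
        (dupS (a ^ 2 / 4) (y + a / 2) - a / 2)),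
      (2 : ℕ) • Affine.Point.some x y h = Affine.Point.some _ _ h' := by
  have heq : y ^ 2 + a * y = x ^ 3 := by
    have h1 := h.1
    rw [Affine.equation_iff] at h1
    simp only [zero_mul, add_zero] at h1
    exact h1
  have hneg : (⟨0, 0, a, 0, 0⟩ : WeierstrassCurve F).toAffine.negY x y = -y - a := by
    simp [Affine.negY]
  have hd : 2 * y + a ≠ 0 := by
    intro h2
    apply h0
    linear_combination h2 / 2
  have hne : y ≠ (⟨0, 0, a, 0, 0⟩ : WeierstrassCurve F).toAffine.negY x y := by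
    rw [hneg]
    intro h2
    apply hd
    linear_combination h2
  have hs := Affine.Point.add_self_of_Y_ne (h₁ := h) hne
  have hy : (⟨0, 0, a, 0, 0⟩ : WeierstrassCurve F).toAffine.addY x x y
      ((⟨0, 0, a, 0, 0⟩ : WeierstrassCurve F).toAffine.slope x x y y) =
        dupS (a ^ 2 / 4) (y + a / 2) - a / 2 := by
    rw [Affine.slope_of_Y_ne rfl hne, hneg]
    simp only [Affine.addY, Affine.negAddY, Affine.negY, Affine.addX, dupS]
    have h5 : y - (-y - a) = 2 * y + a := by ring
    have h6 : y + a / 2 = (2 * y + a) / 2 := by ring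
    rw [h5, h6]
    generalize hw : 2 * y + a = w at hd
    have hy' : y = (w - a) / 2 := by
      rw [← hw]
      ring
    have hx3 : 4 * x ^ 3 = w ^ 2 - a ^ 2 := by
      rw [← heq, ← hw]
      ring
    rw [hy']
    field_simp
    linear_combination (-1728 * (4 * x ^ 3 + w ^ 2 - a ^ 2) + 2304 * w ^ 2) * hx3
  have hn := Affine.nonsingular_add h h (fun hxy => hne hxy.2)
  rw [hy] at hn
  refine ⟨_, hn, ?_⟩
  rw [two_nsmul, hs]
  congr 1

end Pool.Agent.Lib.MP_1a91b9_ntCC
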